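import Mathlib

-- part Pool.Agent.P.MP_459691_co.ConfA
section

set_option autoImplicit false
set_option linter.unusedSectionVars false

open Finset Matrix

namespace Pool.Agent.Elspas.Conf

variable {ι : Type} [DecidableEq ι] {n : ℕ}

/-- sign vectors with pairwise inner products at most one -/
structure Cfg (x : ι → Fin n → ℝ) : Prop where
  sgn : ∀ i a, x i a = 1 ∨ x i a = -1
  le_one : ∀ i j, i ≠ j → x i ⬝ᵥ x j ≤ 1

theorem dot_self_nonneg (u : Fin n → ℝ) : 0 ≤ u ⬝ᵥ u :=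
  Finset.sum_nonneg fun a _ => mul_self_nonneg (u a)

theorem amgm (u v : Fin n → ℝ) (l : ℝ) : -(2 * l * (u ⬝ᵥ v)) ≤ u ⬝ᵥ u + l ^ 2 * (v ⬝ᵥ v) := by
  have h := dot_self_nonneg (u + l • v)
  rw [add_dotProduct, dotProduct_add, dotProduct_add, smul_dotProduct, dotProduct_smul,
    dotProduct_smul, smul_dotProduct, dotProduct_comm v u] at h
  simp only [smul_eq_mul] at h
  nlinarith

theorem dot_sum_sum (S T : Finset ι) (c d : ι → ℝ) (y z : ι → Fin n → ℝ) :
    (∑ i ∈ S, c i • y i) ⬝ᵥ (∑ j ∈ T, d j • z j) =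
      ∑ i ∈ S, ∑ j ∈ T, c i * d j * (y i ⬝ᵥ z j) := by
  rw [sum_dotProduct]
  refine Finset.sum_congr rfl fun i _ => ?_
  rw [dotProduct_sum]
  refine Finset.sum_congr rfl fun j _ => ?_
  rw [smul_dotProduct, dotProduct_smul]
  simp only [smul_eq_mul]; ring

variable {x : ι → Fin n → ℝ}

theorem Cfg.mul_self (h : Cfg x) (i : ι) (a : Fin n) : x i a * x i a = 1 := by
  rcases h.sgn i a with e | e <;> rw [e] <;> norm_num

theorem Cfg.self (h : Cfg x) (i : ι) : x i ⬝ᵥ x i = n := by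
  simp [dotProduct, h.mul_self]

theorem Cfg.ge (h : Cfg x) (i j : ι) : -(n : ℝ) ≤ x i ⬝ᵥ x j := by
  have := amgm (x i) (x j) 1
  rw [h.self, h.self] at this
  linarith

/-- the norm of a nonnegative combination -/
theorem Cfg.nsq_le (h : Cfg x) (S : Finset ι) (w : ι → ℝ) (hw : ∀ j ∈ S, 0 ≤ w j) :
    (∑ j ∈ S, w j • x j) ⬝ᵥ (∑ j ∈ S, w j • x j) ≤
      n * ∑ j ∈ S, w j ^ 2 + (∑ j ∈ S, w j) ^ 2 := by
  rw [dot_sum_sum, pow_two (∑ j ∈ S, w j), Finset.sum_mul_sum, Finset.mul_sum, ← Finset.sum_add_distrib]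
  refine Finset.sum_le_sum fun i hi => ?_
  have e : (n : ℝ) * w i ^ 2 = ∑ j ∈ S, if j = i then (n : ℝ) * w i ^ 2 else 0 := by
    rw [Finset.sum_ite_eq' S i]; simp [hi]
  rw [e, ← Finset.sum_add_distrib]
  refine Finset.sum_le_sum fun j hj => ?_
  have hij := mul_nonneg (hw i hi) (hw j hj)
  by_cases e : j = i
  · subst e
    rw [h.self]; simp only [if_true]; nlinarith
  · have := h.le_one i j (Ne.symm e)
    simp only [e, if_false]; nlinarith

/-- negative part of the Gram matrix -/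
noncomputable def g (x : ι → Fin n → ℝ) (i j : ι) : ℝ := max (-(x i ⬝ᵥ x j)) 0

theorem g_nonneg (i j : ι) : 0 ≤ g x i j := le_max_right _ _

theorem g_ge (i j : ι) : -(x i ⬝ᵥ x j) ≤ g x i j := le_max_left _ _

theorem g_comm (i j : ι) : g x i j = g x j i := by
  unfold g; rw [dotProduct_comm]

theorem g_mul (i j : ι) : g x i j * (x i ⬝ᵥ x j) = -(g x i j ^ 2) := by
  unfold g
  rcases le_total (-(x i ⬝ᵥ x j)) 0 with e | e
  · rw [max_eq_right e]; ring
  · rw [max_eq_left e]; ring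

theorem Cfg.g_self (h : Cfg x) (i : ι) : g x i i = 0 := by
  unfold g; rw [h.self]; exact max_eq_right (by simp)

theorem Cfg.g_le (h : Cfg x) (i j : ι) : g x i j ≤ n :=
  max_le (by linarith [h.ge i j]) (Nat.cast_nonneg n)

theorem Cfg.sq_le (h : Cfg x) (i j : ι) (hij : i ≠ j) : (x i ⬝ᵥ x j) ^ 2 ≤ g x i j ^ 2 + 1 := by
  have h1 := h.le_one i j hij
  unfold g
  rcases le_total (-(x i ⬝ᵥ x j)) 0 with e | e
  · rw [max_eq_right e]; nlinarith
  · rw [max_eq_left e]; nlinarith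

theorem Cfg.le_sub_g (h : Cfg x) (i j : ι) (hij : i ≠ j) : x i ⬝ᵥ x j ≤ 1 - g x i j := by
  have h1 := h.le_one i j hij
  unfold g
  rcases le_total (-(x i ⬝ᵥ x j)) 0 with e | e
  · rw [max_eq_right e]; linarith
  · rw [max_eq_left e]; linarith

/-- the row bound -/
theorem Cfg.row (h : Cfg x) (S : Finset ι) (i : ι) :
    n * ∑ j ∈ S, g x i j ^ 2 ≤ (n : ℝ) ^ 3 + (∑ j ∈ S, g x i j) ^ 2 := by
  have h1 := amgm (∑ j ∈ S, g x i j • x j) (x i) n
  have h2 := h.nsq_le S (g x i) fun j _ => g_nonneg i j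
  have h3 : (∑ j ∈ S, g x i j • x j) ⬝ᵥ x i = -∑ j ∈ S, g x i j ^ 2 := by
    rw [sum_dotProduct, ← Finset.sum_neg_distrib]
    refine Finset.sum_congr rfl fun j _ => ?_
    rw [smul_dotProduct, smul_eq_mul, dotProduct_comm, g_mul]
  rw [h3, h.self] at h1
  nlinarith

theorem Cfg.msq_le (h : Cfg x) (S : Finset ι) :
    (∑ j ∈ S, x j) ⬝ᵥ (∑ j ∈ S, x j) ≤ S.card * (n + S.card) := by
  have := h.nsq_le S (fun _ => 1) fun _ _ => zero_le_one
  simp only [one_smul, one_pow, Finset.sum_const, nsmul_eq_mul, mul_one] at this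
  nlinarith

/-- the row sums of the negative part are small in mean square -/
theorem Cfg.gam (h : Cfg x) (S : Finset ι) (hS : (S.card : ℝ) ≤ 3 * n) (hn : 0 < n) :
    ∑ i ∈ S, (∑ j ∈ S, g x i j) ^ 2 ≤ 136 * S.card * (n : ℝ) ^ 2 := by
  set m : Fin n → ℝ := ∑ j ∈ S, x j with hm
  set p : ℝ := (S.card : ℝ) with hp
  have hp0 : 0 ≤ p := Nat.cast_nonneg _
  have hn0 : (0 : ℝ) < n := by exact_mod_cast hn
  set w : ι → ℝ := fun i => max (-(x i ⬝ᵥ m)) 0 with hw
  have hw0 : ∀ i, 0 ≤ w i := fun i => le_max_right _ _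
  have hR : ∀ i ∈ S, x i ⬝ᵥ m ≤ n + p - ∑ j ∈ S, g x i j := by
    intro i hi
    have e : (n : ℝ) + p - ∑ j ∈ S, g x i j =
        ∑ j ∈ S, ((if j = i then (n : ℝ) else 0) + 1 - g x i j) := by
      rw [Finset.sum_sub_distrib, Finset.sum_add_distrib, Finset.sum_ite_eq' S i]
      simp [hi, hp]
    rw [e, hm, dotProduct_sum]
    refine Finset.sum_le_sum fun j _ => ?_
    by_cases e : j = i
    · subst e; rw [h.self, h.g_self]; simp
    · have := h.le_sub_g i j (Ne.symm e)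
      simp only [e, if_false]; linarith
  have hmm : ∑ i ∈ S, x i ⬝ᵥ m = m ⬝ᵥ m := by rw [hm, sum_dotProduct]
  have hm2 : m ⬝ᵥ m ≤ p * (n + p) := h.msq_le S
  have hsw : ∑ i ∈ S, w i ≤ p * (n + p) := by
    have : ∑ i ∈ S, (w i + x i ⬝ᵥ m) ≤ ∑ i ∈ S, ((n : ℝ) + p) := by
      refine Finset.sum_le_sum fun i hi => ?_
      have h1 := hR i hi
      have h2 : 0 ≤ ∑ j ∈ S, g x i j := Finset.sum_nonneg fun j _ => g_nonneg i j
      simp only [hw]
      rcases le_total (-(x i ⬝ᵥ m)) 0 with e | e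
      · rw [max_eq_right e]; linarith
      · rw [max_eq_left e]; linarith
    rw [Finset.sum_add_distrib, hmm, Finset.sum_const, nsmul_eq_mul] at this
    linarith [dot_self_nonneg m]
  have hsw0 : 0 ≤ ∑ i ∈ S, w i := Finset.sum_nonneg fun i _ => hw0 i
  have h1 := amgm (∑ i ∈ S, w i • x i) m n
  have h2 := h.nsq_le S w fun i _ => hw0 i
  have h3 : (∑ i ∈ S, w i • x i) ⬝ᵥ m = -∑ i ∈ S, w i ^ 2 := by
    rw [sum_dotProduct, ← Finset.sum_neg_distrib]
    refine Finset.sum_congr rfl fun i _ => ?_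
    rw [smul_dotProduct, smul_eq_mul]
    simp only [hw]
    rcases le_total (-(x i ⬝ᵥ m)) 0 with e | e
    · rw [max_eq_right e]; ring
    · rw [max_eq_left e]; ring
  rw [h3] at h1
  have h4 : p * (n + p) ≤ 4 * p * n := by nlinarith
  have h5 : (∑ i ∈ S, w i) ^ 2 ≤ (4 * p * n) ^ 2 := pow_le_pow_left₀ hsw0 (by linarith) 2
  have h6 : n * ∑ i ∈ S, w i ^ 2 ≤ n * (52 * p * (n : ℝ) ^ 2) := by
    have h7 : (n : ℝ) ^ 2 * (m ⬝ᵥ m) ≤ (n : ℝ) ^ 2 * (4 * p * n) :=
      mul_le_mul_of_nonneg_left (by linarith) (by positivity)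
    have h8 : (4 * p * n) ^ 2 ≤ 48 * p * (n : ℝ) ^ 3 := by
      have : p * (p * (n : ℝ) ^ 2) ≤ 3 * n * (p * (n : ℝ) ^ 2) :=
        mul_le_mul_of_nonneg_right hS (by positivity)
      nlinarith
    nlinarith
  have h7 : ∑ i ∈ S, w i ^ 2 ≤ 52 * p * (n : ℝ) ^ 2 := le_of_mul_le_mul_left h6 hn0
  have h8 : ∑ i ∈ S, (∑ j ∈ S, g x i j) ^ 2 ≤ ∑ i ∈ S, (32 * (n : ℝ) ^ 2 + 2 * w i ^ 2) := by
    refine Finset.sum_le_sum fun i hi => ?_
    have h1 := hR i hi
    have h2 : 0 ≤ ∑ j ∈ S, g x i j := Finset.sum_nonneg fun j _ => g_nonneg i j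
    have h3 : -(x i ⬝ᵥ m) ≤ w i := le_max_left _ _
    have h4 : ∑ j ∈ S, g x i j ≤ 4 * n + w i := by linarith
    have h5 := pow_le_pow_left₀ h2 h4 2
    nlinarith [sq_nonneg (4 * (n : ℝ) - w i)]
  rw [Finset.sum_add_distrib, Finset.sum_const, nsmul_eq_mul, ← Finset.mul_sum] at h8
  nlinarith

/-- second moment inside any subfamily -/
theorem Cfg.block (h : Cfg x) (S : Finset ι) (hS : (S.card : ℝ) ≤ 3 * n) (hn : 0 < n) :
    ∑ i ∈ S, ∑ j ∈ S.erase i, (x i ⬝ᵥ x j) ^ 2 ≤ S.card * (n : ℝ) ^ 2 + 139 * S.card * n := by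
  have hn0 : (0 : ℝ) < n := by exact_mod_cast hn
  have hp0 : (0 : ℝ) ≤ S.card := Nat.cast_nonneg _
  have h1 : ∑ i ∈ S, ∑ j ∈ S.erase i, (x i ⬝ᵥ x j) ^ 2 ≤
      ∑ i ∈ S, (∑ j ∈ S, g x i j ^ 2 + S.card) := by
    refine Finset.sum_le_sum fun i _ => ?_
    calc ∑ j ∈ S.erase i, (x i ⬝ᵥ x j) ^ 2 ≤ ∑ j ∈ S.erase i, (g x i j ^ 2 + 1) :=
          Finset.sum_le_sum fun j hj => h.sq_le i j (Finset.ne_of_mem_erase hj).symm
      _ ≤ ∑ j ∈ S, (g x i j ^ 2 + 1) :=
          Finset.sum_le_sum_of_subset_of_nonneg (Finset.erase_subset _ _)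
            fun j _ _ => by positivity
      _ = _ := by rw [Finset.sum_add_distrib]; simp
  have h2 : n * ∑ i ∈ S, ∑ j ∈ S, g x i j ^ 2 ≤
      ∑ i ∈ S, ((n : ℝ) ^ 3 + (∑ j ∈ S, g x i j) ^ 2) := by
    rw [Finset.mul_sum]
    exact Finset.sum_le_sum fun i _ => h.row S i
  rw [Finset.sum_add_distrib, Finset.sum_const, nsmul_eq_mul] at h1 h2
  have h3 := h.gam S hS hn
  have h4 : n * ∑ i ∈ S, ∑ j ∈ S, g x i j ^ 2 ≤
      n * (S.card * (n : ℝ) ^ 2 + 136 * S.card * n) := by nlinarith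
  have h5 := le_of_mul_le_mul_left h4 hn0
  nlinarith

end Pool.Agent.Elspas.Conf
end

-- part Pool.Agent.P.MP_459691_co.ConfB
section

set_option autoImplicit false
set_option linter.unusedSectionVars false

open Finset Matrix

namespace Pool.Agent.Elspas.Conf

variable {ι : Type} [DecidableEq ι] [Fintype ι] {n : ℕ}

/-- squared Frobenius norm -/
def fr {α β : Type} [Fintype α] [Fintype β] (A : Matrix α β ℝ) : ℝ := ∑ i, ∑ j, A i j ^ 2

theorem fr_nonneg {α β : Type} [Fintype α] [Fintype β] (A : Matrix α β ℝ) : 0 ≤ fr A :=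
  Finset.sum_nonneg fun _ _ => Finset.sum_nonneg fun _ _ => sq_nonneg _

theorem fr_eq_trace {α β : Type} [Fintype α] [Fintype β] (A : Matrix α β ℝ) :
    fr A = trace (A * Aᵀ) := by
  simp [fr, trace, Matrix.mul_apply, sq]

theorem fr_mul_le {α β γ : Type} [Fintype α] [Fintype β] [Fintype γ] (A : Matrix α β ℝ)
    (B : Matrix β γ ℝ) : fr (A * B) ≤ fr A * fr B := by
  unfold fr
  rw [Finset.sum_comm (f := fun i j => B i j ^ 2), Finset.sum_mul_sum]
  refine Finset.sum_le_sum fun i _ => Finset.sum_le_sum fun j _ => ?_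
  rw [Matrix.mul_apply]
  exact Finset.sum_mul_sq_le_sq_mul_sq _ _ _

theorem trace_sq_le {α : Type} [Fintype α] (A : Matrix α α ℝ) : trace (A * A) ≤ fr A := by
  have h1 : trace (A * A) = ∑ i, ∑ j, A i j * A j i := by simp [trace, Matrix.mul_apply]
  have h2 : fr A = ∑ i, ∑ j, A j i ^ 2 := by unfold fr; rw [Finset.sum_comm]
  have h3 : 2 * trace (A * A) ≤ fr A + fr A := by
    nth_rewrite 2 [h2]
    rw [h1, Finset.mul_sum]
    unfold fr
    rw [← Finset.sum_add_distrib]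
    refine Finset.sum_le_sum fun i _ => ?_
    rw [Finset.mul_sum, ← Finset.sum_add_distrib]
    refine Finset.sum_le_sum fun j _ => ?_
    nlinarith [sq_nonneg (A i j - A j i)]
  linarith

theorem fr_add_le {α β : Type} [Fintype α] [Fintype β] (A B : Matrix α β ℝ) (c : ℝ) :
    fr (c • A + B) ≤ 2 * c ^ 2 * fr A + 2 * fr B := by
  unfold fr
  rw [Finset.mul_sum, Finset.mul_sum, ← Finset.sum_add_distrib]
  refine Finset.sum_le_sum fun i _ => ?_
  rw [Finset.mul_sum, Finset.mul_sum, ← Finset.sum_add_distrib]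
  refine Finset.sum_le_sum fun j _ => ?_
  simp only [Matrix.add_apply, Matrix.smul_apply, smul_eq_mul]
  nlinarith [sq_nonneg (c * A i j - B i j)]

/-- off diagonal part of the column Gram matrix -/
def E (x : ι → Fin n → ℝ) : Matrix (Fin n) (Fin n) ℝ :=
  fun a b => if a = b then 0 else ∑ i, x i a * x i b

variable {x : ι → Fin n → ℝ}

theorem E_symm : (E x)ᵀ = E x := by
  ext a b
  simp only [Matrix.transpose_apply, E, eq_comm (a := b)]
  split_ifs
  · rfl
  · exact Finset.sum_congr rfl fun i _ => mul_comm _ _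

theorem Cfg.col (h : Cfg x) :
    (Matrix.of x)ᵀ * Matrix.of x = (Fintype.card ι : ℝ) • (1 : Matrix (Fin n) (Fin n) ℝ) + E x := by
  ext a b
  simp only [Matrix.mul_apply, Matrix.transpose_apply, Matrix.of_apply, Matrix.add_apply, Matrix.smul_apply, Matrix.one_apply, E, smul_eq_mul]
  split_ifs with e
  · subst e; simp [h.mul_self]
  · simp

theorem gram_apply (i j : ι) : (Matrix.of x * (Matrix.of x)ᵀ) i j = x i ⬝ᵥ x j := by
  simp [Matrix.mul_apply, dotProduct]

/-- the second moment identity -/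
theorem Cfg.moment (h : Cfg x) :
    ∑ i, ∑ j ∈ univ.erase i, (x i ⬝ᵥ x j) ^ 2 =
      n * (Fintype.card ι : ℝ) ^ 2 - Fintype.card ι * (n : ℝ) ^ 2 + fr (E x) := by
  set X : Matrix ι (Fin n) ℝ := Matrix.of x with hX
  have h1 : fr (X * Xᵀ) = fr (Xᵀ * X) := by
    rw [fr_eq_trace, fr_eq_trace, transpose_mul, transpose_mul, transpose_transpose,
      Matrix.mul_assoc X, trace_mul_comm]
    simp only [Matrix.mul_assoc]
  have h2 : fr (Xᵀ * X) = n * (Fintype.card ι : ℝ) ^ 2 + fr (E x) := by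
    rw [hX, h.col]
    unfold fr
    have : ∀ a : Fin n, ∑ b, (((Fintype.card ι : ℝ) • (1 : Matrix (Fin n) (Fin n) ℝ) + E x) a b) ^ 2
        = (Fintype.card ι : ℝ) ^ 2 + ∑ b, E x a b ^ 2 := by
      intro a
      have e : (Fintype.card ι : ℝ) ^ 2 = ∑ b, if b = a then (Fintype.card ι : ℝ) ^ 2 else 0 := by
        simp
      rw [e, ← Finset.sum_add_distrib]
      refine Finset.sum_congr rfl fun b _ => ?_
      simp only [Matrix.add_apply, Matrix.smul_apply, Matrix.one_apply, E, smul_eq_mul, eq_comm (a := b)]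
      split_ifs <;> simp
    rw [Finset.sum_congr rfl fun a _ => this a, Finset.sum_add_distrib]
    simp
  have h3 : fr (X * Xᵀ) = Fintype.card ι * (n : ℝ) ^ 2 +
      ∑ i, ∑ j ∈ univ.erase i, (x i ⬝ᵥ x j) ^ 2 := by
    unfold fr
    have : ∀ i, ∑ j, ((X * Xᵀ) i j) ^ 2 = (n : ℝ) ^ 2 + ∑ j ∈ univ.erase i, (x i ⬝ᵥ x j) ^ 2 := by
      intro i
      simp only [hX, gram_apply]
      rw [← Finset.add_sum_erase _ _ (mem_univ i), h.self]
    rw [Finset.sum_congr rfl fun a _ => this a, Finset.sum_add_distrib]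
    simp
  linarith

/-- the quadratic form of the columns -/
theorem Cfg.quad (h : Cfg x) (t : Fin n → ℝ) :
    ∑ l, (t ⬝ᵥ x l) ^ 2 = Fintype.card ι * (t ⬝ᵥ t) + ∑ a, ∑ b, E x a b * (t a * t b) := by
  have h1 : ∑ l, (t ⬝ᵥ x l) ^ 2 = ∑ a, ∑ b, ((Matrix.of x)ᵀ * Matrix.of x) a b * (t a * t b) := by
    simp only [Matrix.mul_apply, Matrix.transpose_apply, Matrix.of_apply, Finset.sum_mul, sq, dotProduct,
      Finset.mul_sum]
    rw [Finset.sum_comm]
    refine Finset.sum_congr rfl fun a _ => ?_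
    rw [Finset.sum_comm]
    refine Finset.sum_congr rfl fun b _ => Finset.sum_congr rfl fun l _ => by ring
  rw [h1, h.col]
  simp only [Matrix.add_apply, Matrix.smul_apply, Matrix.one_apply, smul_eq_mul, add_mul, Finset.sum_add_distrib,
    dotProduct, Finset.mul_sum]
  congr 1
  refine Finset.sum_congr rfl fun a _ => ?_
  simp

/-- the Gram matrix is close to a multiple of a projection -/
theorem Cfg.proj (h : Cfg x) :
    ∑ i, ∑ l, (∑ k, (x i ⬝ᵥ x k) * (x k ⬝ᵥ x l) - Fintype.card ι * (x i ⬝ᵥ x l)) ^ 2 ≤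
      2 * (Fintype.card ι : ℝ) ^ 2 * fr (E x) + 2 * fr (E x) ^ 2 := by
  set X : Matrix ι (Fin n) ℝ := Matrix.of x with hX
  set M : ℝ := (Fintype.card ι : ℝ) with hM
  have hK : Xᵀ * X = M • (1 : Matrix (Fin n) (Fin n) ℝ) + E x := h.col
  have h1 : X * E x * Xᵀ = (X * Xᵀ) * (X * Xᵀ) - M • (X * Xᵀ) := by
    rw [Matrix.mul_assoc X Xᵀ, ← Matrix.mul_assoc Xᵀ, hK, Matrix.add_mul, Matrix.mul_add,
      Matrix.smul_mul, Matrix.one_mul, Matrix.mul_smul, Matrix.mul_assoc]
    abel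
  have h2 : ∑ i, ∑ l, (∑ k, (x i ⬝ᵥ x k) * (x k ⬝ᵥ x l) - M * (x i ⬝ᵥ x l)) ^ 2 =
      fr (X * E x * Xᵀ) := by
    rw [h1]
    unfold fr
    refine Finset.sum_congr rfl fun i _ => Finset.sum_congr rfl fun l _ => ?_
    rw [Matrix.sub_apply, Matrix.smul_apply, Matrix.mul_apply (M := X * Xᵀ)]
    simp only [hX, gram_apply, smul_eq_mul]
  have h3 : fr (X * E x * Xᵀ) = trace ((E x * (Xᵀ * X)) * (E x * (Xᵀ * X))) := by
    rw [fr_eq_trace, transpose_mul, transpose_mul, transpose_transpose, E_symm,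
      Matrix.mul_assoc X, Matrix.mul_assoc X, trace_mul_comm]
    simp only [Matrix.mul_assoc]
  have h4 : E x * (Xᵀ * X) = M • E x + E x * E x := by
    rw [hK, Matrix.mul_add, Matrix.mul_smul, Matrix.mul_one]
  rw [h2, h3, h4]
  have h5 := trace_sq_le (M • E x + E x * E x)
  have h6 := fr_add_le (E x) (E x * E x) M
  have h7 := fr_mul_le (E x) (E x)
  nlinarith

end Pool.Agent.Elspas.Conf
end

-- part Pool.Agent.P.MP_459691_co.ConfC
section

set_option autoImplicit false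
set_option linter.unusedSectionVars false

open Finset Matrix

namespace Pool.Agent.Elspas.Conf

variable {ι : Type} [DecidableEq ι] [Fintype ι] {n : ℕ} {x : ι → Fin n → ℝ}

theorem Cfg.kappa (h : Cfg x) (hM : (Fintype.card ι : ℝ) = 2 * n + 3) (hn : 3 ≤ n) :
    fr (E x) ≤ 417 * (n : ℝ) ^ 2 := by
  have hn3 : (3 : ℝ) ≤ n := by exact_mod_cast hn
  have h1 := h.moment
  have h2 := h.block univ (by rw [card_univ, hM]; linarith) (by omega)
  rw [card_univ] at h2
  rw [hM] at h1 h2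
  nlinarith

theorem Cfg.path (h : Cfg x) (hM : (Fintype.card ι : ℝ) = 2 * n + 3) (i l : ι) (hil : i ≠ l) :
    ∑ k, g x i k * g x k l ≤
      (∑ k, (x i ⬝ᵥ x k) * (x k ⬝ᵥ x l) - Fintype.card ι * (x i ⬝ᵥ x l)) + 3 +
        ∑ k, g x i k + ∑ k, g x l k := by
  have h1 : ∑ k, (g x i k * g x k l - g x i k - g x l k) ≤
      ∑ k, ((x i ⬝ᵥ x k) * (x k ⬝ᵥ x l) - (if k = i then n * (x i ⬝ᵥ x l) else 0) -
        (if k = l then n * (x i ⬝ᵥ x l) else 0)) := by
    refine Finset.sum_le_sum fun k _ => ?_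
    by_cases e1 : k = i
    · subst e1
      rw [h.g_self, h.self]
      simp only [if_true, hil, if_false]
      linarith [g_nonneg (x := x) l k]
    · by_cases e2 : k = l
      · subst e2
        rw [h.g_self, h.self]
        simp only [if_true, e1, if_false]
        linarith [g_nonneg (x := x) i k]
      · simp only [e1, e2, if_false]
        have a1 := h.le_one i k (Ne.symm e1)
        have a2 := h.le_one k l e2
        rw [g_comm l k]
        unfold g
        rcases le_total (-(x i ⬝ᵥ x k)) 0 with b1 | b1 <;>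
          rcases le_total (-(x k ⬝ᵥ x l)) 0 with b2 | b2
        · rw [max_eq_right b1, max_eq_right b2]; nlinarith
        · rw [max_eq_right b1, max_eq_left b2]; nlinarith
        · rw [max_eq_left b1, max_eq_right b2]; nlinarith
        · rw [max_eq_left b1, max_eq_left b2]; nlinarith
  simp only [Finset.sum_sub_distrib, Finset.sum_ite_eq', mem_univ, if_true] at h1
  have h2 := h.le_one i l hil
  rw [hM]
  linarith

theorem Cfg.fourth (h : Cfg x) (hM : (Fintype.card ι : ℝ) = 2 * n + 3) (hn : 3 ≤ n) :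
    ∑ k, ((∑ j, g x k j ^ 2) ^ 2 - ∑ j, g x k j ^ 4) ≤ 1440000 * (n : ℝ) ^ 4 := by
  have hn3 : (3 : ℝ) ≤ n := by exact_mod_cast hn
  set Y : ι → ι → ℝ := fun i l =>
    ∑ k, (x i ⬝ᵥ x k) * (x k ⬝ᵥ x l) - Fintype.card ι * (x i ⬝ᵥ x l) with hY
  set γ : ι → ℝ := fun i => ∑ k, g x i k with hγ
  have h1 : ∑ k, ((∑ j, g x k j ^ 2) ^ 2 - ∑ j, g x k j ^ 4) =
      ∑ i, ∑ l ∈ univ.erase i, ∑ k, (g x i k * g x k l) ^ 2 := by
    have : ∀ k, (∑ j, g x k j ^ 2) ^ 2 - ∑ j, g x k j ^ 4 =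
        ∑ i, ∑ l ∈ univ.erase i, (g x i k * g x k l) ^ 2 := by
      intro k
      rw [pow_two (∑ j, g x k j ^ 2), Finset.sum_mul_sum, ← Finset.sum_sub_distrib]
      refine Finset.sum_congr rfl fun i _ => ?_
      rw [← Finset.add_sum_erase _ _ (mem_univ i), g_comm i k]
      have : ∑ l ∈ univ.erase i, (g x k i * g x k l) ^ 2 =
          ∑ l ∈ univ.erase i, g x k i ^ 2 * g x k l ^ 2 :=
        Finset.sum_congr rfl fun l _ => by ring
      rw [this]; ring
    rw [Finset.sum_congr rfl fun k _ => this k, Finset.sum_comm]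
    refine Finset.sum_congr rfl fun i _ => ?_
    rw [Finset.sum_comm]
  have h2 : ∑ i, ∑ l ∈ univ.erase i, ∑ k, (g x i k * g x k l) ^ 2 ≤
      ∑ i, ∑ l, 4 * (Y i l ^ 2 + 9 + γ i ^ 2 + γ l ^ 2) := by
    refine Finset.sum_le_sum fun i _ => ?_
    refine le_trans (Finset.sum_le_sum fun l hl => ?_)
      (Finset.sum_le_sum_of_subset_of_nonneg (Finset.erase_subset i univ)
        fun l _ _ => by positivity)
    have a1 : ∑ k, (g x i k * g x k l) ^ 2 ≤ (∑ k, g x i k * g x k l) ^ 2 :=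
      Finset.sum_sq_le_sq_sum_of_nonneg fun k _ => mul_nonneg (g_nonneg _ _) (g_nonneg _ _)
    have a2 : 0 ≤ ∑ k, g x i k * g x k l :=
      Finset.sum_nonneg fun k _ => mul_nonneg (g_nonneg _ _) (g_nonneg _ _)
    have a3 : ∑ k, g x i k * g x k l ≤ Y i l + 3 + γ i + γ l :=
      h.path hM i l (Finset.ne_of_mem_erase hl).symm
    have a4 := pow_le_pow_left₀ a2 a3 2
    nlinarith [sq_nonneg (Y i l - 3), sq_nonneg (Y i l - γ i), sq_nonneg (Y i l - γ l),
      sq_nonneg (3 - γ i), sq_nonneg (3 - γ l), sq_nonneg (γ i - γ l)]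
  have h3 : ∑ i, ∑ l, 4 * (Y i l ^ 2 + 9 + γ i ^ 2 + γ l ^ 2) =
      4 * (∑ i, ∑ l, Y i l ^ 2 + 9 * (Fintype.card ι : ℝ) ^ 2 +
        2 * Fintype.card ι * ∑ i, γ i ^ 2) := by
    simp only [← Finset.mul_sum, Finset.sum_add_distrib, Finset.sum_const, card_univ,
      nsmul_eq_mul]
    ring
  have h4 : ∑ i, ∑ l, Y i l ^ 2 ≤ _ := h.proj
  have h5 : ∑ i, γ i ^ 2 ≤ _ := h.gam univ (by rw [card_univ, hM]; linarith) (by omega)
  have h6 := h.kappa hM hn
  have h7 := fr_nonneg (E x)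
  rw [card_univ] at h5
  set M : ℝ := (Fintype.card ι : ℝ) with hM'
  have hM0 : 0 ≤ M := by linarith
  have hM3 : M ≤ 3 * n := by linarith
  have hM2 : M ^ 2 ≤ 9 * (n : ℝ) ^ 2 := by nlinarith
  have hn2 : (1 : ℝ) ≤ (n : ℝ) ^ 2 := by nlinarith
  have b1 : M ^ 2 * fr (E x) ≤ 9 * (n : ℝ) ^ 2 * (417 * (n : ℝ) ^ 2) :=
    mul_le_mul hM2 h6 h7 (by positivity)
  have b2 : fr (E x) ^ 2 ≤ (417 * (n : ℝ) ^ 2) ^ 2 := pow_le_pow_left₀ h7 h6 2
  have b3 : M * ∑ i, γ i ^ 2 ≤ M * (136 * M * (n : ℝ) ^ 2) := mul_le_mul_of_nonneg_left h5 hM0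
  have b4 : M ^ 2 * (n : ℝ) ^ 2 ≤ 9 * (n : ℝ) ^ 2 * (n : ℝ) ^ 2 :=
    mul_le_mul_of_nonneg_right hM2 (by positivity)
  have b5 : (n : ℝ) ^ 2 * 1 ≤ (n : ℝ) ^ 2 * (n : ℝ) ^ 2 :=
    mul_le_mul_of_nonneg_left hn2 (by positivity)
  rw [h1]
  nlinarith

/-- on average every vector has an almost antipodal partner -/
theorem Cfg.partner (h : Cfg x) (hM : (Fintype.card ι : ℝ) = 2 * n + 3) (hn : 3 ≤ n)
    (μ : ι → ℝ) (h0 : ∀ k, 0 ≤ μ k) (h1 : ∀ k, μ k ≤ n) (h2 : ∀ k j, g x k j ≤ μ k) :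
    ∑ k, ((n : ℝ) - μ k) ≤ 3000000 * n := by
  have hn3 : (3 : ℝ) ≤ n := by exact_mod_cast hn
  set Q : ι → ℝ := fun k => ∑ j, g x k j ^ 2 with hQ
  set γ : ι → ℝ := fun i => ∑ k, g x i k with hγ
  set U : ι → ℝ := fun k => Q k ^ 2 - ∑ j, g x k j ^ 4 with hU
  have a1 : ∀ k, (n : ℝ) ^ 3 * (n - μ k) ≤
      2 * n * ((n : ℝ) ^ 3 + γ k ^ 2 - n * Q k) + 2 * U k := by
    intro k
    have b1 : n * Q k ≤ (n : ℝ) ^ 3 + γ k ^ 2 := h.row univ k
    have b2 : 0 ≤ U k := by
      have := Finset.sum_sq_le_sq_sum_of_nonneg (s := univ) (f := fun j => g x k j ^ 2)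
        fun j _ => sq_nonneg _
      have e : ∑ j, g x k j ^ 4 = ∑ j, (g x k j ^ 2) ^ 2 :=
        Finset.sum_congr rfl fun j _ => by ring
      simp only [hU, hQ]; linarith
    have b3 : Q k * (Q k - μ k ^ 2) ≤ U k := by
      have : ∑ j, g x k j ^ 4 ≤ ∑ j, g x k j ^ 2 * μ k ^ 2 := by
        refine Finset.sum_le_sum fun j _ => ?_
        have := pow_le_pow_left₀ (g_nonneg k j) (h2 k j) 2
        nlinarith [sq_nonneg (g x k j)]
      rw [← Finset.sum_mul] at this
      simp only [hU, hQ] at *; nlinarith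
    have b4 : (n : ℝ) * (n - μ k) ≤ (n : ℝ) ^ 2 - μ k ^ 2 := by nlinarith [h0 k, h1 k]
    have b5 : (n : ℝ) ^ 3 * (n - μ k) ≤ (n : ℝ) ^ 2 * ((n : ℝ) ^ 2 - μ k ^ 2) := by
      have := mul_le_mul_of_nonneg_left b4 (sq_nonneg (n : ℝ))
      nlinarith
    have b6 : 0 ≤ (n : ℝ) * γ k ^ 2 := by positivity
    have b7 : 0 ≤ n * ((n : ℝ) ^ 3 + γ k ^ 2 - n * Q k) := mul_nonneg (by linarith) (by linarith)
    rcases le_total ((n : ℝ) ^ 2) (2 * Q k) with c | c
    · rcases le_total (μ k ^ 2) (Q k) with d | d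
      · have := mul_le_mul_of_nonneg_right c (sub_nonneg.2 d)
        nlinarith
      · have := mul_le_mul_of_nonneg_left d (sq_nonneg (n : ℝ))
        nlinarith
    · have e1 := mul_le_mul_of_nonneg_left c (sq_nonneg (n : ℝ))
      have e2 : 0 ≤ (n : ℝ) ^ 2 * μ k ^ 2 := by positivity
      nlinarith
  have a2 : ∑ k, U k ≤ 1440000 * (n : ℝ) ^ 4 := h.fourth hM hn
  have a3 : ∑ i, γ i ^ 2 ≤ _ := h.gam univ (by rw [card_univ, hM]; linarith) (by omega)
  have a4 : ∑ i, ∑ j ∈ univ.erase i, (x i ⬝ᵥ x j) ^ 2 ≤ ∑ i, (Q i + Fintype.card ι) := by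
    refine Finset.sum_le_sum fun i _ => ?_
    calc ∑ j ∈ univ.erase i, (x i ⬝ᵥ x j) ^ 2 ≤ ∑ j ∈ univ.erase i, (g x i j ^ 2 + 1) :=
          Finset.sum_le_sum fun j hj => h.sq_le i j (Finset.ne_of_mem_erase hj).symm
      _ ≤ ∑ j, (g x i j ^ 2 + 1) :=
          Finset.sum_le_sum_of_subset_of_nonneg (Finset.erase_subset _ _)
            fun j _ _ => by positivity
      _ = _ := by rw [Finset.sum_add_distrib]; simp [hQ]
  rw [h.moment, Finset.sum_add_distrib, Finset.sum_const, card_univ, nsmul_eq_mul] at a4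
  have a5 := Finset.sum_le_sum fun k (_ : k ∈ univ) => a1 k
  simp only [← Finset.mul_sum, Finset.sum_add_distrib, Finset.sum_sub_distrib (f := fun k => (n : ℝ) ^ 3 + γ k ^ 2), Finset.sum_const, card_univ, nsmul_eq_mul] at a5
  rw [card_univ] at a3
  have a6 := fr_nonneg (E x)
  rw [hM] at a3 a4 a5
  have a7 : (2 * n + 3) * (n : ℝ) ^ 2 ≤ ∑ k, Q k := by nlinarith
  have a8 : ∑ i, γ i ^ 2 ≤ 408 * (n : ℝ) ^ 3 := by nlinarith
  have a9 : (n : ℝ) ^ 3 * ∑ k, ((n : ℝ) - μ k) ≤ (n : ℝ) ^ 3 * (3000000 * n) := by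
    have c1 := mul_le_mul_of_nonneg_left a7 (sq_nonneg (n : ℝ))
    have c2 := mul_le_mul_of_nonneg_left a8 (by linarith : (0 : ℝ) ≤ n)
    have c3 : (0 : ℝ) ≤ (n : ℝ) ^ 4 := by positivity
    nlinarith
  exact le_of_mul_le_mul_left a9 (by positivity)

end Pool.Agent.Elspas.Conf
end

-- part Pool.Agent.P.MP_459691_co.ConfD
section

set_option autoImplicit false
set_option linter.unusedSectionVars false

open Finset Matrix

namespace Pool.Agent.Elspas.Conf

variable {ι : Type} [DecidableEq ι] [Fintype ι] {n : ℕ}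

/-- a matching of almost antipodal vectors -/
structure Pairing (x : ι → Fin n → ℝ) (s : ℝ) (P : Finset ι) (π : ι → ι) : Prop where
  mem : ∀ k ∈ P, π k ∈ P
  inv : ∀ k ∈ P, π (π k) = k
  ne : ∀ k ∈ P, π k ≠ k
  close : ∀ k ∈ P, x k ⬝ᵥ x (π k) ≤ -((n : ℝ) - 2 * s)

/-- sum of the two vectors of a pair -/
def tau (x : ι → Fin n → ℝ) (π : ι → ι) (k : ι) : Fin n → ℝ := x k + x (π k)

/-- number of agreements inside a pair -/
noncomputable def sig (x : ι → Fin n → ℝ) (π : ι → ι) (k : ι) : ℝ := (n + x k ⬝ᵥ x (π k)) / 2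

variable {x : ι → Fin n → ℝ} {s : ℝ} {P : Finset ι} {π : ι → ι}

theorem Pairing.sum_swap (hp : Pairing x s P π) (f : ι → ℝ) :
    ∑ k ∈ P, f (π k) = ∑ k ∈ P, f k :=
  Finset.sum_nbij' π π hp.mem hp.mem hp.inv hp.inv fun _ _ => rfl

theorem Cfg.sig_nonneg (h : Cfg x) (k : ι) : 0 ≤ sig x π k := by
  unfold sig; linarith [h.ge k (π k)]

theorem Pairing.sig_le (hp : Pairing x s P π) (k : ι) (hk : k ∈ P) : sig x π k ≤ s := by
  unfold sig; linarith [hp.close k hk]

theorem Cfg.tau_self (h : Cfg x) (k : ι) : tau x π k ⬝ᵥ tau x π k = 4 * sig x π k := by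
  unfold tau sig
  rw [add_dotProduct, dotProduct_add, dotProduct_add, h.self, h.self,
    dotProduct_comm (x (π k)) (x k)]
  ring

theorem Cfg.tau_val (h : Cfg x) (k : ι) (a : Fin n) :
    tau x π k a = 2 ∨ tau x π k a = 0 ∨ tau x π k a = -2 := by
  unfold tau
  rcases h.sgn k a with e | e <;> rcases h.sgn (π k) a with e' | e' <;>
    simp only [Pi.add_apply, e, e'] <;> norm_num

theorem Cfg.tau_abs (h : Cfg x) (k : ι) : ∑ a, |tau x π k a| = 2 * sig x π k := by
  have h1 : tau x π k ⬝ᵥ tau x π k = ∑ a, 2 * |tau x π k a| := by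
    refine Finset.sum_congr rfl fun a _ => ?_
    rcases h.tau_val (π := π) k a with e | e | e <;> rw [e] <;> norm_num
  rw [h.tau_self, ← Finset.mul_sum] at h1
  linarith

theorem Cfg.tau_dot_ge (h : Cfg x) (k l : ι) : -(2 * sig x π k) ≤ tau x π k ⬝ᵥ x l := by
  rw [← h.tau_abs, ← Finset.sum_neg_distrib]
  refine Finset.sum_le_sum fun a _ => ?_
  rcases h.sgn l a with e | e <;> rw [e]
  · linarith [neg_abs_le (tau x π k a)]
  · linarith [le_abs_self (tau x π k a)]

theorem Cfg.tau_dot_le (h : Cfg x) (k l : ι) (h1 : l ≠ k) (h2 : l ≠ π k) :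
    tau x π k ⬝ᵥ x l ≤ 2 := by
  unfold tau
  rw [add_dotProduct]
  linarith [h.le_one k l h1.symm, h.le_one (π k) l h2.symm]

theorem Cfg.pair_sq (h : Cfg x) (k l : ι) (h1 : l ≠ k) (h2 : l ≠ π k) :
    (x k ⬝ᵥ x l) ^ 2 + (x (π k) ⬝ᵥ x l) ^ 2 ≤
      (tau x π k ⬝ᵥ x l) ^ 2 - 2 * (tau x π k ⬝ᵥ x l) + 2 := by
  unfold tau
  rw [add_dotProduct]
  nlinarith [mul_nonneg (sub_nonneg.2 (h.le_one k l h1.symm))
    (sub_nonneg.2 (h.le_one (π k) l h2.symm))]

theorem Cfg.tau_tau (h : Cfg x) (hp : Pairing x s P π) (k l : ι) (hk : k ∈ P) (hl : l ∈ P) :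
    tau x π k ⬝ᵥ tau x π l ≤
      4 + (if l = k then 4 * s else 0) + (if l = π k then 4 * s else 0) := by
  have hs := hp.sig_le k hk
  by_cases e1 : l = k
  · subst e1
    rw [h.tau_self]
    simp only [if_true, (hp.ne l hl).symm, if_false]; linarith
  · by_cases e2 : l = π k
    · subst e2
      have : tau x π (π k) = tau x π k := by unfold tau; rw [hp.inv k hk, add_comm]
      rw [this, h.tau_self]
      simp only [if_true, e1, if_false]; linarith
    · simp only [e1, e2, if_false]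
      have e3 : π l ≠ k := fun e => e2 (by rw [← e, hp.inv l hl])
      have e4 : π l ≠ π k := fun e => e1 (by rw [← hp.inv l hl, e, hp.inv k hk])
      have a1 := h.tau_dot_le (π := π) k l e1 e2
      have a2 := h.tau_dot_le (π := π) k (π l) e3 e4
      have : tau x π l = x l + x (π l) := rfl
      rw [this, dotProduct_add]; linarith

theorem Cfg.tau_nsq (h : Cfg x) (hp : Pairing x s P π) (hs : 0 ≤ s) (S : Finset ι) (hS : S ⊆ P)
    (w : ι → ℝ) (W : ℝ) (hw : ∀ k ∈ S, 0 ≤ w k) (hW : ∀ k ∈ S, w k ≤ W) :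
    (∑ k ∈ S, w k • tau x π k) ⬝ᵥ (∑ k ∈ S, w k • tau x π k) ≤
      8 * s * W * ∑ k ∈ S, w k + 4 * (∑ k ∈ S, w k) ^ 2 := by
  rw [dot_sum_sum]
  have : 8 * s * W * ∑ k ∈ S, w k + 4 * (∑ k ∈ S, w k) ^ 2 =
      ∑ k ∈ S, w k * (8 * s * W + 4 * ∑ l ∈ S, w l) := by
    rw [← Finset.sum_mul]; ring
  rw [this]
  refine Finset.sum_le_sum fun k hk => ?_
  have a1 : ∑ l ∈ S, w k * w l * (tau x π k ⬝ᵥ tau x π l) ≤
      ∑ l ∈ S, w k * (4 * w l + (if l = k then 4 * s * W else 0) +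
        (if l = π k then 4 * s * W else 0)) := by
    refine Finset.sum_le_sum fun l hl => ?_
    rw [mul_assoc]
    refine mul_le_mul_of_nonneg_left ?_ (hw k hk)
    have b1 := mul_le_mul_of_nonneg_left (h.tau_tau hp k l (hS hk) (hS hl)) (hw l hl)
    have b2 : w l * (4 * s) ≤ W * (4 * s) := mul_le_mul_of_nonneg_right (hW l hl) (by linarith)
    split_ifs at b1 ⊢ <;> linarith
  refine a1.trans ?_
  rw [← Finset.mul_sum]
  refine mul_le_mul_of_nonneg_left ?_ (hw k hk)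
  have hW0 : 0 ≤ s * W := mul_nonneg hs ((hw k hk).trans (hW k hk))
  simp only [Finset.sum_add_distrib, Finset.sum_ite_eq', ← Finset.mul_sum]
  split_ifs <;> linarith

theorem Cfg.pattern (h : Cfg x) (hp : Pairing x s P π) (hs : 0 ≤ s) (a b : Fin n) (hab : a ≠ b)
    (α β : ℝ) (hα : α ^ 2 = 4) (hβ : β ^ 2 = 4) :
    (((P.filter fun k => tau x π k a = α ∧ tau x π k b = β).card : ℕ) : ℝ) ≤ 2 * s := by
  set S := P.filter fun k => tau x π k a = α ∧ tau x π k b = β with hS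
  have h1 := h.tau_nsq hp hs S (Finset.filter_subset _ _) (fun _ => 1) 1
    (fun _ _ => zero_le_one) fun _ _ => le_rfl
  set v : Fin n → ℝ := ∑ k ∈ S, (1 : ℝ) • tau x π k with hv
  have ha : v a = S.card * α := by
    rw [hv, Finset.sum_apply, ← nsmul_eq_mul, ← Finset.sum_const]
    exact Finset.sum_congr rfl fun k hk => by simp [(Finset.mem_filter.1 hk).2.1]
  have hb : v b = S.card * β := by
    rw [hv, Finset.sum_apply, ← nsmul_eq_mul, ← Finset.sum_const]
    exact Finset.sum_congr rfl fun k hk => by simp [(Finset.mem_filter.1 hk).2.2]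
  have h2 : v a * v a + v b * v b ≤ v ⬝ᵥ v := by
    rw [← Finset.sum_pair (f := fun c => v c * v c) hab]
    exact Finset.sum_le_sum_of_subset_of_nonneg (Finset.subset_univ _)
      fun c _ _ => mul_self_nonneg _
  simp only [Finset.sum_const, nsmul_eq_mul, mul_one] at h1
  rw [ha, hb] at h2
  have h3 : (0 : ℝ) ≤ S.card := Nat.cast_nonneg _
  by_contra hc
  push Not at hc
  have e1 : (S.card : ℝ) * α * (S.card * α) = 4 * (S.card : ℝ) ^ 2 := by
    rw [← hα]; ring
  have e2 : (S.card : ℝ) * β * (S.card * β) = 4 * (S.card : ℝ) ^ 2 := by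
    rw [← hβ]; ring
  nlinarith

theorem Cfg.overlap (h : Cfg x) (hp : Pairing x s P π) (hs : 0 ≤ s) (a b : Fin n) (hab : a ≠ b) :
    ∑ k ∈ P, |tau x π k a| * |tau x π k b| ≤ 32 * s := by
  have key : ∀ α β : ℝ, ∑ k ∈ P, (if tau x π k a = α ∧ tau x π k b = β then (4 : ℝ) else 0) =
      4 * (((P.filter fun k => tau x π k a = α ∧ tau x π k b = β).card : ℕ) : ℝ) := by
    intro α β
    rw [← Finset.sum_filter, Finset.sum_const, nsmul_eq_mul, mul_comm]
  have h1 := h.pattern hp hs a b hab 2 2 (by norm_num) (by norm_num)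
  have h2 := h.pattern hp hs a b hab 2 (-2) (by norm_num) (by norm_num)
  have h3 := h.pattern hp hs a b hab (-2) 2 (by norm_num) (by norm_num)
  have h4 := h.pattern hp hs a b hab (-2) (-2) (by norm_num) (by norm_num)
  have h5 : ∑ k ∈ P, |tau x π k a| * |tau x π k b| ≤
      ∑ k ∈ P, ((if tau x π k a = 2 ∧ tau x π k b = 2 then (4 : ℝ) else 0) +
        (if tau x π k a = 2 ∧ tau x π k b = -2 then (4 : ℝ) else 0) +
        (if tau x π k a = -2 ∧ tau x π k b = 2 then (4 : ℝ) else 0) +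
        (if tau x π k a = -2 ∧ tau x π k b = -2 then (4 : ℝ) else 0)) := by
    refine Finset.sum_le_sum fun k _ => ?_
    rcases h.tau_val (π := π) k a with e | e | e <;>
      rcases h.tau_val (π := π) k b with e' | e' | e' <;> rw [e, e'] <;> norm_num
  simp only [Finset.sum_add_distrib, key] at h5
  linarith

theorem Cfg.cross (h : Cfg x) (hp : Pairing x s P π) (hs : 0 ≤ s) :
    ∑ k ∈ P, ∑ a, ∑ b, E x a b * (tau x π k a * tau x π k b) ≤
      2 * fr (E x) + 16 * s ^ 3 * P.card := by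
  have h1 : ∑ k ∈ P, ∑ a, ∑ b, E x a b * (tau x π k a * tau x π k b) =
      ∑ a, ∑ b, E x a b * ∑ k ∈ P, tau x π k a * tau x π k b := by
    rw [Finset.sum_comm]
    refine Finset.sum_congr rfl fun a _ => ?_
    rw [Finset.sum_comm]
    exact Finset.sum_congr rfl fun b _ => by rw [Finset.mul_sum]
  have h2 : ∑ a, ∑ b, E x a b * ∑ k ∈ P, tau x π k a * tau x π k b ≤
      ∑ a, ∑ b, (2 * E x a b ^ 2 + 4 * s * ∑ k ∈ P, |tau x π k a| * |tau x π k b|) := by
    refine Finset.sum_le_sum fun a _ => Finset.sum_le_sum fun b _ => ?_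
    have c0 : 0 ≤ ∑ k ∈ P, |tau x π k a| * |tau x π k b| :=
      Finset.sum_nonneg fun k _ => by positivity
    by_cases e : a = b
    · have : E x a b = 0 := by simp [E, e]
      rw [this]
      have := mul_nonneg hs c0
      nlinarith
    · have c1 := h.overlap hp hs a b e
      have c2 : |∑ k ∈ P, tau x π k a * tau x π k b| ≤ ∑ k ∈ P, |tau x π k a| * |tau x π k b| := by
        refine (Finset.abs_sum_le_sum_abs _ _).trans (le_of_eq ?_)
        exact Finset.sum_congr rfl fun k _ => abs_mul _ _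
      have c3 := pow_le_pow_left₀ (abs_nonneg _) c2 2
      rw [sq_abs] at c3
      have c4 := mul_le_mul_of_nonneg_right c1 c0
      nlinarith [sq_nonneg (4 * E x a b - ∑ k ∈ P, tau x π k a * tau x π k b)]
  have h3 : ∑ a, ∑ b, ∑ k ∈ P, |tau x π k a| * |tau x π k b| ≤ 4 * s ^ 2 * P.card := by
    have : ∑ a, ∑ b, ∑ k ∈ P, |tau x π k a| * |tau x π k b| =
        ∑ k ∈ P, (2 * sig x π k) ^ 2 := by
      rw [Finset.sum_congr rfl fun a _ => Finset.sum_comm, Finset.sum_comm]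
      refine Finset.sum_congr rfl fun k _ => ?_
      rw [← h.tau_abs, pow_two, Finset.sum_mul_sum]
    rw [this, mul_comm _ (P.card : ℝ), ← nsmul_eq_mul, ← Finset.sum_const]
    refine Finset.sum_le_sum fun k hk => ?_
    have := pow_le_pow_left₀ (h.sig_nonneg (π := π) k) (hp.sig_le k hk) 2
    nlinarith
  simp only [Finset.sum_add_distrib, ← Finset.mul_sum] at h2
  have h4 := mul_le_mul_of_nonneg_left h3 hs
  rw [h1]
  unfold fr
  nlinarith

end Pool.Agent.Elspas.Conf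
end

-- part Pool.Agent.P.MP_459691_co.ConfE
section

set_option autoImplicit false
set_option linter.unusedSectionVars false

open Finset Matrix

namespace Pool.Agent.Elspas.Conf

variable {ι : Type} [DecidableEq ι] [Fintype ι] {n : ℕ}
variable {x : ι → Fin n → ℝ} {s : ℝ} {P : Finset ι} {π : ι → ι}

theorem Pairing.sum_tau (hp : Pairing x s P π) (m : Fin n → ℝ) :
    ∑ k ∈ P, tau x π k ⬝ᵥ m = 2 * ((∑ k ∈ P, x k) ⬝ᵥ m) := by
  unfold tau
  simp only [add_dotProduct, Finset.sum_add_distrib]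
  rw [hp.sum_swap fun k => x k ⬝ᵥ m, sum_dotProduct]; ring

/-- rows of matched vectors -/
theorem Cfg.good (h : Cfg x) (hp : Pairing x s P π) (hs : 1 ≤ s)
    (hM : (Fintype.card ι : ℝ) = 2 * n + 3) :
    ∑ k ∈ P, ∑ l ∈ univ.erase k, (x k ⬝ᵥ x l) ^ 2 ≤
      P.card * ((n : ℝ) ^ 2 + 10 * s ^ 2 + 8 * s ^ 3 + (2 * n + 3)) + fr (E x) +
        ((∑ k ∈ Pᶜ, x k) ⬝ᵥ (∑ k ∈ Pᶜ, x k)) / 2 := by
  set F : ι → ℝ := fun k => ∑ l ∈ (univ.erase k).erase (π k), (x k ⬝ᵥ x l) ^ 2 with hF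
  set mP : Fin n → ℝ := ∑ k ∈ P, x k with hmP
  set mB : Fin n → ℝ := ∑ k ∈ Pᶜ, x k with hmB
  have hm : ∑ l, x l = mP + mB := (Finset.sum_add_sum_compl P x).symm
  have h1 : ∑ k ∈ P, ∑ l ∈ univ.erase k, (x k ⬝ᵥ x l) ^ 2 =
      ∑ k ∈ P, ((n : ℝ) - 2 * sig x π k) ^ 2 + ∑ k ∈ P, F k := by
    rw [← Finset.sum_add_distrib]
    refine Finset.sum_congr rfl fun k hk => ?_
    rw [← Finset.add_sum_erase _ _ (Finset.mem_erase.2 ⟨hp.ne k hk, mem_univ _⟩)]
    congr 1
    unfold sig; ring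
  have h2 : 2 * ∑ k ∈ P, F k ≤ ∑ k ∈ P, (Fintype.card ι * (4 * sig x π k) +
      ∑ a, ∑ b, E x a b * (tau x π k a * tau x π k b) - 2 * (tau x π k ⬝ᵥ (mP + mB)) +
        2 * Fintype.card ι) := by
    rw [two_mul]
    nth_rewrite 2 [← hp.sum_swap F]
    rw [← Finset.sum_add_distrib]
    refine Finset.sum_le_sum fun k hk => ?_
    have e1 : F (π k) = ∑ l ∈ (univ.erase k).erase (π k), (x (π k) ⬝ᵥ x l) ^ 2 := by
      simp only [hF]; rw [hp.inv k hk, Finset.erase_right_comm]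
    rw [e1, ← h.tau_self, ← h.quad, ← hm, dotProduct_sum]
    simp only [hF]
    rw [← Finset.sum_add_distrib]
    calc _ ≤ ∑ l ∈ (univ.erase k).erase (π k),
            ((tau x π k ⬝ᵥ x l) ^ 2 - 2 * (tau x π k ⬝ᵥ x l) + 2) := by
          refine Finset.sum_le_sum fun l hl => h.pair_sq k l ?_ (Finset.ne_of_mem_erase hl)
          exact Finset.ne_of_mem_erase (Finset.mem_of_mem_erase hl)
      _ ≤ ∑ l, ((tau x π k ⬝ᵥ x l) ^ 2 - 2 * (tau x π k ⬝ᵥ x l) + 2) :=
          Finset.sum_le_sum_of_subset_of_nonneg (Finset.subset_univ _) fun l _ _ => by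
            nlinarith [sq_nonneg (tau x π k ⬝ᵥ x l - 1)]
      _ = _ := by
          simp only [Finset.sum_add_distrib, Finset.sum_sub_distrib, ← Finset.mul_sum,
            Finset.sum_const, card_univ, nsmul_eq_mul]
          ring
  have h3 : ∑ k ∈ P, (((n : ℝ) - 2 * sig x π k) ^ 2 + 2 * (2 * n + 3) * sig x π k) ≤
      P.card * ((n : ℝ) ^ 2 + 10 * s ^ 2) := by
    rw [← nsmul_eq_mul, ← Finset.sum_const]
    refine Finset.sum_le_sum fun k hk => ?_
    have a1 := h.sig_nonneg (π := π) k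
    have a2 := hp.sig_le k hk
    nlinarith
  have h4 := h.cross hp (by linarith)
  have h5 := hp.sum_tau (mP + mB)
  have h6 := amgm mB mP 2
  simp only [Finset.sum_add_distrib, Finset.sum_sub_distrib, ← Finset.mul_sum, Finset.sum_const,
    nsmul_eq_mul] at h2 h3
  rw [h5, ← hmP, dotProduct_add, dotProduct_comm mP mB, hM] at h2
  rw [h1]
  nlinarith

/-- matched against unmatched vectors -/
theorem Cfg.mixed (h : Cfg x) (hp : Pairing x s P π) (hs : 1 ≤ s) (L : ℝ) (hL : 0 < L) :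
    2 * ∑ k ∈ P, ∑ l ∈ Pᶜ, (x k ⬝ᵥ x l) ^ 2 ≤
      4 * (Pᶜ.card : ℝ) * ∑ k ∈ P, sig x π k + 2 * (Pᶜ.card : ℝ) * P.card +
        (8 * s ^ 2 * ∑ k ∈ P, sig x π k + 4 * (∑ k ∈ P, sig x π k) ^ 2) / L +
          L * ((∑ k ∈ Pᶜ, x k) ⬝ᵥ (∑ k ∈ Pᶜ, x k)) := by
  set mB : Fin n → ℝ := ∑ k ∈ Pᶜ, x k with hmB
  set A : Fin n → ℝ := ∑ k ∈ P, sig x π k • tau x π k with hA
  have h1 : 2 * ∑ k ∈ P, ∑ l ∈ Pᶜ, (x k ⬝ᵥ x l) ^ 2 ≤
      ∑ k ∈ P, ((Pᶜ.card : ℝ) * (4 * sig x π k + 2) - 2 * (sig x π k * (tau x π k ⬝ᵥ mB))) := by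
    rw [two_mul]
    nth_rewrite 2 [← hp.sum_swap fun k => ∑ l ∈ Pᶜ, (x k ⬝ᵥ x l) ^ 2]
    rw [← Finset.sum_add_distrib]
    refine Finset.sum_le_sum fun k hk => ?_
    rw [← Finset.sum_add_distrib, hmB, dotProduct_sum, ← nsmul_eq_mul, ← Finset.sum_const,
      Finset.mul_sum, Finset.mul_sum, ← Finset.sum_sub_distrib]
    refine Finset.sum_le_sum fun l hl => ?_
    have hl' := Finset.mem_compl.1 hl
    have e1 : l ≠ k := fun e => hl' (e ▸ hk)
    have e2 : l ≠ π k := fun e => hl' (e ▸ hp.mem k hk)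
    have a1 := h.pair_sq k l e1 e2
    have a2 := h.tau_dot_le k l e1 e2
    have a3 := h.tau_dot_ge (π := π) k l
    nlinarith [mul_nonneg (sub_nonneg.2 a2) (sub_nonneg.2 a3)]
  have h2 : ∑ k ∈ P, sig x π k * (tau x π k ⬝ᵥ mB) = A ⬝ᵥ mB := by
    rw [hA, sum_dotProduct]
    exact Finset.sum_congr rfl fun k _ => by rw [smul_dotProduct, smul_eq_mul]
  have h3 : A ⬝ᵥ A ≤ _ := h.tau_nsq hp (by linarith) P subset_rfl (sig x π) s
    (fun k _ => h.sig_nonneg k) hp.sig_le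
  have h4 := amgm A mB L
  have h5 : -(2 * (A ⬝ᵥ mB)) ≤ (8 * s ^ 2 * ∑ k ∈ P, sig x π k +
      4 * (∑ k ∈ P, sig x π k) ^ 2) / L + L * (mB ⬝ᵥ mB) := by
    rw [← sub_le_iff_le_add, le_div_iff₀ hL]
    nlinarith
  simp only [Finset.sum_add_distrib, Finset.sum_sub_distrib, ← Finset.mul_sum, Finset.sum_const,
    nsmul_eq_mul] at h1
  rw [h2] at h1
  nlinarith

theorem split_sum (P : Finset ι) (x : ι → Fin n → ℝ) :
    ∑ i, ∑ j ∈ univ.erase i, (x i ⬝ᵥ x j) ^ 2 =
      ∑ k ∈ P, ∑ l ∈ univ.erase k, (x k ⬝ᵥ x l) ^ 2 + ∑ k ∈ P, ∑ l ∈ Pᶜ, (x k ⬝ᵥ x l) ^ 2 +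
        ∑ i ∈ Pᶜ, ∑ j ∈ Pᶜ.erase i, (x i ⬝ᵥ x j) ^ 2 := by
  rw [← Finset.sum_add_sum_compl P, add_assoc, Finset.sum_comm (s := P) (t := Pᶜ),
    ← Finset.sum_add_distrib]
  congr 1
  refine Finset.sum_congr rfl fun i hi => ?_
  have e : univ.erase i = P ∪ Pᶜ.erase i := by
    ext j
    have := Finset.mem_compl.1 hi
    simp only [Finset.mem_erase, mem_univ, and_true, Finset.mem_union, Finset.mem_compl]
    constructor
    · intro hj
      by_cases c : j ∈ P
      · exact Or.inl c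
      · exact Or.inr ⟨hj, c⟩
    · rintro (c | c)
      · exact fun e => this (e ▸ c)
      · exact c.1
  rw [e, Finset.sum_union]
  · congr 1
    exact Finset.sum_congr rfl fun j _ => by rw [dotProduct_comm]
  · exact Finset.disjoint_left.2 fun j hj hj' =>
      Finset.mem_compl.1 (Finset.mem_of_mem_erase hj') hj

theorem Cfg.unique (h : Cfg x) (hs : 4 * s + 1 < n) (k j l : ι)
    (h1 : x k ⬝ᵥ x j ≤ -((n : ℝ) - 2 * s)) (h2 : x k ⬝ᵥ x l ≤ -((n : ℝ) - 2 * s)) : j = l := by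
  by_contra e
  have h3 := h.le_one j l e
  have h4 : ∑ a : Fin n, (-1 : ℝ) ≤ ∑ a, (x k a * x j a + x k a * x l a + x j a * x l a) := by
    refine Finset.sum_le_sum fun a _ => ?_
    rcases h.sgn k a with e1 | e1 <;> rcases h.sgn j a with e2 | e2 <;>
      rcases h.sgn l a with e3 | e3 <;> rw [e1, e2, e3] <;> norm_num
  simp only [Finset.sum_add_distrib, Finset.sum_const, card_univ, Fintype.card_fin,
    nsmul_eq_mul] at h4
  unfold dotProduct at h1 h2 h3
  linarith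

theorem Cfg.exists_pairing (h : Cfg x) (hs0 : 0 ≤ s) (hs : 4 * s + 1 < n) :
    ∃ (P : Finset ι) (π : ι → ι), Pairing x s P π ∧
      (∀ k ∈ P, ∀ j, g x k j ≤ n - 2 * sig x π k) ∧ ∀ k ∈ Pᶜ, ∀ j, g x k j ≤ n - 2 * s := by
  classical
  let good : ι → Prop := fun k => ∃ j, x k ⬝ᵥ x j ≤ -((n : ℝ) - 2 * s)
  let π : ι → ι := fun k => if hk : good k then hk.choose else k
  have hπ : ∀ k, good k → x k ⬝ᵥ x (π k) ≤ -((n : ℝ) - 2 * s) := by
    intro k hk
    simp only [π, dif_pos hk]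
    exact hk.choose_spec
  have hg : ∀ k, good k → good (π k) := fun k hk => ⟨k, by rw [dotProduct_comm]; exact hπ k hk⟩
  refine ⟨univ.filter good, π, ⟨?_, ?_, ?_, ?_⟩, ?_, ?_⟩
  · intro k hk
    exact Finset.mem_filter.2 ⟨mem_univ _, hg k (Finset.mem_filter.1 hk).2⟩
  · intro k hk
    have hk' := (Finset.mem_filter.1 hk).2
    exact h.unique hs (π k) _ _ (hπ _ (hg k hk')) (by rw [dotProduct_comm]; exact hπ k hk')
  · intro k hk e
    have := hπ k (Finset.mem_filter.1 hk).2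
    rw [e, h.self] at this
    linarith
  · intro k hk
    exact hπ k (Finset.mem_filter.1 hk).2
  · intro k hk j
    have h1 := hπ k (Finset.mem_filter.1 hk).2
    unfold sig
    refine max_le ?_ (by linarith)
    by_cases c : x k ⬝ᵥ x j ≤ -((n : ℝ) - 2 * s)
    · rw [h.unique hs k j (π k) c h1]; linarith
    · push Not at c; linarith
  · intro k hk j
    have h1 : ¬ good k := fun c => Finset.mem_compl.1 hk (Finset.mem_filter.2 ⟨mem_univ _, c⟩)
    refine max_le ?_ (by linarith)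
    by_contra c
    push Not at c
    exact h1 ⟨j, by linarith⟩

/-- no `2 n + 3` sign vectors of a large length `n` have pairwise inner products at most one -/
theorem Cfg.false (h : Cfg x) (hM : (Fintype.card ι : ℝ) = 2 * n + 3) (hn : 10 ^ 66 ≤ n) :
    False := by
  have hn' : (10 : ℝ) ^ 66 ≤ n := by exact_mod_cast hn
  have hn3 : 3 ≤ n := le_trans (by norm_num) hn
  obtain ⟨P, π, hp, hP, hB⟩ := h.exists_pairing (s := 10 ^ 21) (by norm_num) (by linarith)
  set Z : ℝ := ∑ k ∈ P, sig x π k with hZ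
  set p : ℝ := (Pᶜ.card : ℝ) with hp'
  set r : ℝ := (P.card : ℝ) with hr
  have hp0 : 0 ≤ p := Nat.cast_nonneg _
  have hr0 : 0 ≤ r := Nat.cast_nonneg _
  have hrp : r + p = 2 * n + 3 := by
    rw [hr, hp', ← hM]; exact_mod_cast Finset.card_add_card_compl P
  have hZ0 : 0 ≤ Z := Finset.sum_nonneg fun k _ => h.sig_nonneg k
  have h1 := h.partner hM hn3 (fun k => if k ∈ P then n - 2 * sig x π k else n - 2 * 10 ^ 21)
    (fun k => by
      split_ifs with c
      · linarith [hp.sig_le k c]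
      · linarith)
    (fun k => by
      split_ifs with c
      · linarith [h.sig_nonneg (π := π) k]
      · linarith)
    (fun k j => by
      split_ifs with c
      · exact hP k c j
      · exact hB k (Finset.mem_compl.2 c) j)
  have h2 : ∑ k, ((n : ℝ) - if k ∈ P then n - 2 * sig x π k else n - 2 * 10 ^ 21) =
      2 * Z + p * (2 * 10 ^ 21) := by
    rw [← Finset.sum_add_sum_compl P, hZ, Finset.mul_sum, hp', ← nsmul_eq_mul, ← Finset.sum_const]
    congr 1
    · exact Finset.sum_congr rfl fun k hk => by rw [if_pos hk]; ring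
    · exact Finset.sum_congr rfl fun k hk => by rw [if_neg (Finset.mem_compl.1 hk)]; ring
  rw [h2] at h1
  have hZ1 : Z ≤ 1500000 * n := by nlinarith
  have hp1 : p * 10 ^ 15 ≤ 3 / 2 * n := by nlinarith
  have hp3 : p ≤ 3 * n := by linarith
  have h3 := h.good hp (by norm_num) hM
  have h4 := h.mixed hp (by norm_num) (4 * 10 ^ 13) (by norm_num)
  have h5 := h.block Pᶜ hp3 (by omega)
  have h6 := h.msq_le Pᶜ
  have h7 := h.moment
  rw [split_sum P x, hM] at h7
  rw [← hZ, ← hp', ← hr] at h4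
  rw [← hp'] at h5 h6
  rw [← hr] at h3
  have hn0 : (0 : ℝ) ≤ n := Nat.cast_nonneg _
  have c1 : p * (n + p) ≤ 4 * (p * n) := by nlinarith
  have c2 : p * n * 10 ^ 15 ≤ 3 / 2 * (n : ℝ) ^ 2 := by nlinarith
  have c3 : p * Z ≤ 1500000 * (p * n) := by nlinarith
  have c4 : p * r ≤ 3 * (p * n) := by nlinarith
  have c5 : Z ^ 2 ≤ (1500000 * n) ^ 2 := pow_le_pow_left₀ hZ0 hZ1 2
  have c6 : 10 ^ 66 * (n : ℝ) ≤ (n : ℝ) ^ 2 := by nlinarith
  have c7 : r ≤ 3 * n := by linarith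
  have c8 : r * (n : ℝ) ^ 2 + p * (n : ℝ) ^ 2 = (2 * n + 3) * (n : ℝ) ^ 2 := by rw [← hrp]; ring
  have c9 : r * (2 * n + 3) ≤ (2 * n + 3) * (2 * n + 3) :=
    mul_le_mul_of_nonneg_right (by linarith) (by linarith)
  nlinarith

end Pool.Agent.Elspas.Conf
end

-- part Pool.Agent.P.MP_459691_co.ConfF
section

set_option autoImplicit false
set_option linter.unusedSectionVars false

open Finset Matrix

namespace Pool.Agent.Elspas.Conf

variable {n : ℕ}

/-- the sign vector of a binary word -/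
def sg (u : Fin n → Bool) : Fin n → ℝ := fun a => if u a then 1 else -1

theorem sg_val (u : Fin n → Bool) (a : Fin n) : sg u a = 1 ∨ sg u a = -1 := by
  unfold sg; split_ifs <;> simp

theorem sg_mul (u v : Fin n → Bool) (a : Fin n) :
    sg u a * sg v a = if u a ≠ v a then -1 else 1 := by
  unfold sg; cases u a <;> cases v a <;> simp

theorem sg_dot (u v : Fin n → Bool) : sg u ⬝ᵥ sg v = n - 2 * hammingDist u v := by
  have : sg u ⬝ᵥ sg v = ∑ a, ((1 : ℝ) - 2 * if u a ≠ v a then 1 else 0) := by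
    refine Finset.sum_congr rfl fun a _ => ?_
    rw [sg_mul]; split_ifs <;> norm_num
  rw [this, Finset.sum_sub_distrib, ← Finset.mul_sum, Finset.sum_boole]
  simp [hammingDist]

theorem sg_prod (u v : Fin n → Bool) :
    (∏ a, sg u a) * ∏ a, sg v a = (-1) ^ hammingDist u v := by
  rw [← Finset.prod_mul_distrib, Finset.prod_congr rfl fun a _ => sg_mul u v a, Finset.prod_ite]
  simp [hammingDist]

theorem card_le_of_cfg {α : Type} (C : Finset α) (y : α → Fin n → ℝ) (hn : 10 ^ 66 ≤ n)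
    (h1 : ∀ u a, y u a = 1 ∨ y u a = -1) (h2 : ∀ u ∈ C, ∀ v ∈ C, u ≠ v → y u ⬝ᵥ y v ≤ 1) :
    C.card ≤ 2 * n + 2 := by
  classical
  by_contra hc
  obtain ⟨D, hD, hcard⟩ := Finset.exists_subset_card_eq (s := C) (n := 2 * n + 3) (by omega)
  have h : Cfg (fun u : D => y u) :=
    ⟨fun u a => h1 u a, fun u v huv => h2 u (hD u.2) v (hD v.2) fun e => huv (Subtype.ext e)⟩
  refine h.false ?_ hn
  rw [Fintype.card_coe, hcard]; push_cast; ring

theorem upper_even {d : ℕ} (hn : 10 ^ 66 ≤ n) (hd : n ≤ 2 * d + 1) (C : Finset (Fin n → Bool))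
    (hC : ∀ u ∈ C, ∀ v ∈ C, u ≠ v → d ≤ hammingDist u v) : C.card ≤ 2 * n + 2 := by
  refine card_le_of_cfg C sg hn sg_val fun u hu v hv huv => ?_
  have h1 : (d : ℝ) ≤ hammingDist u v := by exact_mod_cast hC u hu v hv huv
  have h2 : (n : ℝ) ≤ 2 * d + 1 := by exact_mod_cast hd
  rw [sg_dot]; linarith

theorem upper_odd {d : ℕ} (hn : 10 ^ 66 ≤ n) (hd : n ≤ 2 * d + 2) (hodd : d % 2 = 1)
    (C : Finset (Fin n → Bool)) (hC : ∀ u ∈ C, ∀ v ∈ C, u ≠ v → d ≤ hammingDist u v) :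
    C.card ≤ 2 * (n + 1) + 2 := by
  refine card_le_of_cfg (n := n + 1) C (fun u => Fin.cons (∏ a, sg u a) (sg u)) (by omega) ?_
    fun u hu v hv huv => ?_
  · intro u a
    refine Fin.cases ?_ (fun b => ?_) a
    · have := sg_prod u u
      rw [hammingDist_self, pow_zero] at this
      simpa using mul_self_eq_one_iff.1 this
    · simpa using sg_val u b
  · have h1 := hC u hu v hv huv
    have h2 : (n : ℝ) ≤ 2 * d + 2 := by exact_mod_cast hd
    have h3 := sg_dot u v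
    unfold dotProduct at h3 ⊢
    rw [Fin.sum_univ_succ]
    simp only [Fin.cons_zero, Fin.cons_succ]
    rw [h3, sg_prod]
    rcases h1.eq_or_lt with e | e
    · rw [← e, Odd.neg_one_pow (Nat.odd_iff.2 hodd)]; linarith
    · have h4 : (d : ℝ) + 1 ≤ hammingDist u v := by exact_mod_cast e
      have h5 : ((-1 : ℝ)) ^ hammingDist u v ≤ 1 := by
        rcases neg_one_pow_eq_or ℝ (hammingDist u v) with c | c <;> rw [c] <;> norm_num
      linarith

theorem exists_code {ι : Type} [Fintype ι] (y : ι → Fin n → ℝ) (d : ℕ) (hd : 0 < d)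
    (h1 : ∀ i a, y i a = 1 ∨ y i a = -1) (h2 : ∀ i j, i ≠ j → y i ⬝ᵥ y j ≤ n - 2 * d) :
    ∃ C : Finset (Fin n → Bool), (∀ u ∈ C, ∀ v ∈ C, u ≠ v → d ≤ hammingDist u v) ∧
      C.card = Fintype.card ι := by
  classical
  let c : ι → Fin n → Bool := fun i a => decide (y i a = 1)
  have hc : ∀ i, sg (c i) = y i := by
    intro i; funext a
    rcases h1 i a with e | e
    · simp [sg, c, e]
    · have : ¬ (-1 : ℝ) = 1 := by norm_num
      simp [sg, c, e, this]
  have hd' : ∀ i j, i ≠ j → d ≤ hammingDist (c i) (c j) := by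
    intro i j hij
    have := h2 i j hij
    rw [← hc, ← hc, sg_dot] at this
    have h3 : (d : ℝ) ≤ hammingDist (c i) (c j) := by linarith
    exact_mod_cast h3
  refine ⟨univ.image c, ?_, ?_⟩
  · intro u hu v hv huv
    obtain ⟨i, -, rfl⟩ := Finset.mem_image.1 hu
    obtain ⟨j, -, rfl⟩ := Finset.mem_image.1 hv
    exact hd' i j fun e => huv (by rw [e])
  · rw [Finset.card_image_of_injective, card_univ]
    intro i j e
    by_contra hij
    have := hd' i j hij
    rw [e, hammingDist_self] at this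
    omega

section Paley

variable {F : Type} [Field F] [Fintype F] [DecidableEq F]

theorem chi_corr (hF : ringChar F ≠ 2) (i j : F) (hij : i ≠ j) :
    ∑ a, quadraticChar F (a - i) * quadraticChar F (a - j) = -1 := by
  have h1 : ∑ a, quadraticChar F (a - i) * quadraticChar F (a - j) =
      ∑ b ∈ univ.erase (0 : F), quadraticChar F (1 + (i - j) * b⁻¹) := by
    rw [← Equiv.sum_comp (Equiv.addRight i), ← Finset.add_sum_erase _ _ (mem_univ (0 : F))]
    simp only [Equiv.coe_addRight, add_sub_cancel_right]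
    rw [MulChar.map_zero, zero_mul, zero_add]
    refine Finset.sum_congr rfl fun b hb => ?_
    have hb0 : b ≠ 0 := Finset.ne_of_mem_erase hb
    have : b + i - j = b * (1 + (i - j) * b⁻¹) := by field_simp; ring
    rw [this, map_mul, ← mul_assoc, ← pow_two, quadraticChar_sq_one hb0, one_mul]
  have hc : i - j ≠ 0 := sub_ne_zero.2 hij
  have h2 : ∑ b : F, quadraticChar F (1 + (i - j) * b⁻¹) = 0 := by
    rw [← quadraticChar_sum_zero hF]
    exact Equiv.sum_comp (((Equiv.inv F).trans (Equiv.mulLeft₀ (i - j) hc)).trans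
      (Equiv.addLeft 1)) fun a => quadraticChar F a
  rw [← Finset.add_sum_erase _ _ (mem_univ (0 : F))] at h2
  simp only [_root_.inv_zero, mul_zero, add_zero, map_one] at h2
  rw [h1]; linarith

/-- the conference matrix code as integer sign vectors -/
def conf (w : Option F × Bool) (a : F) : ℤ :=
  match w.1 with
  | none => if w.2 then 1 else -1
  | some i => (if w.2 then 1 else -1) * quadraticChar F (a - i) + if a = i then 1 else 0

theorem conf_val (w : Option F × Bool) (a : F) : conf w a = 1 ∨ conf w a = -1 := by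
  obtain ⟨o, b⟩ := w
  cases o with
  | none => cases b <;> simp [conf]
  | some i =>
    by_cases e : a = i
    · simp [conf, e]
    · rcases quadraticChar_dichotomy (sub_ne_zero.2 e) with c | c <;> cases b <;>
        simp [conf, e, c]

theorem chi_shift (hF : ringChar F ≠ 2) (i : F) : ∑ a, quadraticChar F (a - i) = 0 := by
  rw [← quadraticChar_sum_zero hF]
  exact Equiv.sum_comp (Equiv.subRight i) fun a => quadraticChar F a

theorem conf_dot (hF : ringChar F ≠ 2) (h4 : Fintype.card F % 4 = 1) (w z : Option F × Bool)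
    (hwz : w ≠ z) : ∑ a, conf w a * conf z a ≤ 1 := by
  have hneg : quadraticChar F (-1) = 1 := by
    rw [quadraticChar_one_iff_isSquare (by simp), FiniteField.isSquare_neg_one_iff]; omega
  have sgn : ∀ b : Bool, (if b then (1 : ℤ) else -1) = 1 ∨ (if b then (1 : ℤ) else -1) = -1 := by
    intro b; cases b <;> simp
  obtain ⟨o, b⟩ := w
  obtain ⟨o', b'⟩ := z
  cases o with
  | none =>
    cases o' with
    | none =>
      have : b ≠ b' := fun e => hwz (by rw [e])
      cases b <;> cases b' <;> simp [conf] at this ⊢ <;> omega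
    | some j =>
      simp only [conf, mul_add, Finset.sum_add_distrib, ← Finset.mul_sum, chi_shift hF]
      rcases sgn b with c | c <;> rw [c] <;> simp
  | some i =>
    cases o' with
    | none =>
      simp only [conf, add_mul, Finset.sum_add_distrib, ← Finset.sum_mul, ← Finset.mul_sum,
        chi_shift hF]
      rcases sgn b' with c | c <;> rw [c] <;> simp
    | some j =>
      by_cases e : i = j
      · subst e
        have hb : b ≠ b' := fun e => hwz (by rw [e])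
        have : ∑ a, conf (some i, b) a * conf (some i, b') a ≤
            ∑ a, if a = i then (1 : ℤ) else 0 := by
          refine Finset.sum_le_sum fun a _ => ?_
          by_cases c : a = i
          · simp [conf, c]
          · rcases quadraticChar_dichotomy (sub_ne_zero.2 c) with c' | c' <;> cases b <;>
              cases b' <;> simp [conf, c, c'] at hb ⊢
        simpa using this
      · have h1 : ∑ a, conf (some i, b) a * conf (some j, b') a =
            (if b then 1 else -1) * (if b' then 1 else -1) *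
              ∑ a, quadraticChar F (a - i) * quadraticChar F (a - j) +
            ∑ a, (if a = j then (if b then 1 else -1) * quadraticChar F (j - i) else 0) +
            ∑ a, (if a = i then (if b' then 1 else -1) * quadraticChar F (i - j) else 0) := by
          rw [Finset.mul_sum, ← Finset.sum_add_distrib, ← Finset.sum_add_distrib]
          refine Finset.sum_congr rfl fun a _ => ?_
          simp only [conf]
          by_cases c1 : a = i
          · subst c1; simp [e]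
          · by_cases c2 : a = j
            · subst c2; simp [c1]
            · simp only [c1, c2, if_false]; ring
        have h2 : quadraticChar F (j - i) = quadraticChar F (i - j) := by
          rw [← neg_sub, ← neg_one_mul, map_mul, hneg, one_mul]
        rw [h1, chi_corr hF i j e, h2]
        simp only [Finset.sum_ite_eq', mem_univ, if_true]
        rcases quadraticChar_dichotomy (sub_ne_zero.2 e) with c | c <;> cases b <;> cases b' <;>
          simp [c]

end Paley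

theorem exists_conf (hq : IsPrimePow n) (h4 : n % 4 = 1) :
    ∃ y : Option (Fin n) × Bool → Fin n → ℝ, (∀ i a, y i a = 1 ∨ y i a = -1) ∧
      ∀ i j, i ≠ j → y i ⬝ᵥ y j ≤ 1 := by
  classical
  obtain ⟨p, k, hp, hk, rfl⟩ := (isPrimePow_nat_iff n).1 hq
  haveI : Fact p.Prime := ⟨hp⟩
  haveI : Fintype (GaloisField p k) := Fintype.ofFinite _
  have hcard : Fintype.card (GaloisField p k) = p ^ k := by
    rw [← Nat.card_eq_fintype_card, GaloisField.card p k hk.ne']
  have hF : ringChar (GaloisField p k) ≠ 2 := by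
    intro e
    have := (FiniteField.even_card_iff_char_two (F := GaloisField p k)).1 e
    omega
  let e : Fin (p ^ k) ≃ GaloisField p k := (Fintype.equivFinOfCardEq hcard).symm
  refine ⟨fun w a => (conf (w.1.map e, w.2) (e a) : ℝ), fun w a => ?_, fun w z hwz => ?_⟩
  · rcases conf_val (w.1.map e, w.2) (e a) with c | c <;> simp [c]
  · have h1 := conf_dot hF (by omega) (w.1.map e, w.2) (z.1.map e, z.2) (by
      intro c
      obtain ⟨c1, c2⟩ := Prod.mk.inj c
      exact hwz (Prod.ext (Option.map_injective e.injective c1) c2))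
    rw [← Equiv.sum_comp e] at h1
    unfold dotProduct
    beta_reduce
    exact_mod_cast h1

theorem lower_even {d : ℕ} (hq : IsPrimePow n) (h4 : n % 4 = 1) (hd : n = 2 * d + 1) :
    ∃ C : Finset (Fin n → Bool), (∀ u ∈ C, ∀ v ∈ C, u ≠ v → d ≤ hammingDist u v) ∧
      C.card = 2 * n + 2 := by
  obtain ⟨y, h1, h2⟩ := exists_conf hq h4
  have h5 := hq.two_le
  obtain ⟨C, hC, hc⟩ := exists_code y d (by omega) h1 fun i j hij => by
    have : (n : ℝ) = 2 * d + 1 := by exact_mod_cast hd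
    linarith [h2 i j hij]
  exact ⟨C, hC, by rw [hc]; simp; ring⟩

theorem lower_odd {d : ℕ} (hq : IsPrimePow (n + 1)) (hodd : d % 2 = 1) (hd : n = 2 * d + 2) :
    ∃ C : Finset (Fin n → Bool), (∀ u ∈ C, ∀ v ∈ C, u ≠ v → d ≤ hammingDist u v) ∧
      C.card = 2 * (n + 1) + 2 := by
  obtain ⟨y, h1, h2⟩ := exists_conf hq (by omega)
  obtain ⟨C, hC, hc⟩ := exists_code (fun i (a : Fin n) => y i a.succ) d (by omega)
    (fun i a => h1 i _) fun i j hij => by
      have e : (n : ℝ) = 2 * d + 2 := by exact_mod_cast hd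
      have h3 := h2 i j hij
      unfold dotProduct at h3 ⊢
      rw [Fin.sum_univ_succ] at h3
      have h4 : -1 ≤ y i 0 * y j 0 := by
        rcases h1 i 0 with c | c <;> rcases h1 j 0 with c' | c' <;> rw [c, c'] <;> norm_num
      linarith
  exact ⟨C, hC, by rw [hc]; simp; ring⟩

end Pool.Agent.Elspas.Conf
end
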