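import Mathlib

-- part Pool.Agent.P.MP_459691_co.Rz
section

/-! Realizable Gram matrices of sign matrices; partial Hadamard matrices from Golay pairs. -/

set_option autoImplicit false
open Finset

namespace Pool.Agent.Elspas

/-- `n` sign columns on the rows `ι` with off-diagonal inner products `G`. -/
def Rz (ι : Type) (n : ℕ) (G : ι → ι → ℤ) : Prop :=
  ∃ c : Fin n → ι → ℤ, (∀ t i, c t i = 1 ∨ c t i = -1) ∧
    ∀ i j, i ≠ j → ∑ t, c t i * c t j = G i j

variable {ι ι' : Type}

theorem Rz.congr {n n' : ℕ} {G G' : ι → ι → ℤ} (h : Rz ι n G) (hn : n = n')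
    (hG : ∀ i j, i ≠ j → G i j = G' i j) : Rz ι n' G' := by
  subst hn
  obtain ⟨c, h1, h2⟩ := h
  exact ⟨c, h1, fun i j hij => (h2 i j hij).trans (hG i j hij)⟩

theorem Rz.zero : Rz ι 0 (fun _ _ => 0) :=
  ⟨fun t => t.elim0, fun t => t.elim0, fun _ _ _ => by simp⟩

theorem Rz.of_fun {κ : Type} [Fintype κ] (c : κ → ι → ℤ) (h1 : ∀ t i, c t i = 1 ∨ c t i = -1) :
    Rz ι (Fintype.card κ) (fun i j => ∑ t, c t i * c t j) := by
  refine ⟨fun t => c ((Fintype.equivFin κ).symm t), fun t i => h1 _ _, fun i j _ => ?_⟩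
  exact Equiv.sum_comp (Fintype.equivFin κ).symm (fun t => c t i * c t j)

theorem Rz.add {n n' : ℕ} {G G' : ι → ι → ℤ} (h : Rz ι n G) (h' : Rz ι n' G') :
    Rz ι (n + n') (fun i j => G i j + G' i j) := by
  obtain ⟨c, h1, h2⟩ := h
  obtain ⟨c', h1', h2'⟩ := h'
  have := Rz.of_fun (ι := ι) (κ := Fin n ⊕ Fin n') (Sum.elim c c') (by
    rintro (t | t) i
    · exact h1 t i
    · exact h1' t i)
  refine this.congr (by simp) (fun i j hij => ?_)
  simp [Fintype.sum_sum_type, h2 i j hij, h2' i j hij]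

theorem Rz.sum {κ : Type} (s : Finset κ) (n : κ → ℕ) (G : κ → ι → ι → ℤ)
    (h : ∀ k ∈ s, Rz ι (n k) (G k)) : Rz ι (∑ k ∈ s, n k) (fun i j => ∑ k ∈ s, G k i j) := by
  classical
  induction s using Finset.induction_on with
  | empty => simpa using Rz.zero
  | insert a s ha ih =>
    have := (h a (mem_insert_self _ _)).add (ih fun k hk => h k (mem_insert_of_mem hk))
    refine this.congr (by rw [sum_insert ha]) (fun i j _ => by rw [sum_insert ha])

theorem Rz.comp {n : ℕ} {G : ι → ι → ℤ} (h : Rz ι n G) (f : ι' → ι) (hf : Function.Injective f) :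
    Rz ι' n (fun i j => G (f i) (f j)) := by
  obtain ⟨c, h1, h2⟩ := h
  exact ⟨fun t i => c t (f i), fun t i => h1 _ _, fun i j hij => h2 _ _ (hf.ne hij)⟩

theorem Rz.single (c : ι → ℤ) (h : ∀ i, c i = 1 ∨ c i = -1) : Rz ι 1 (fun i j => c i * c j) :=
  ⟨fun _ => c, fun _ i => h i, fun i j _ => by simp⟩

/-- partial Hadamard matrices: pairwise orthogonal sign rows of length `h`. -/
def PH (ι : Type) (h : ℕ) : Prop := Rz ι h (fun _ _ => 0)

theorem PH.zero : PH ι 0 := Rz.zero

theorem PH.add {a b : ℕ} (ha : PH ι a) (hb : PH ι b) : PH ι (a + b) :=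
  (Rz.add ha hb).congr rfl (fun _ _ _ => by simp)

theorem PH.mul {a : ℕ} (ha : PH ι a) (m : ℕ) : PH ι (m * a) := by
  induction m with
  | zero => simpa using PH.zero
  | succ m ih => rw [Nat.succ_mul]; exact ih.add ha

theorem PH.of_card [Fintype ι] [Fintype ι'] {a : ℕ} (ha : PH ι a)
    (h : Fintype.card ι' ≤ Fintype.card ι) : PH ι' a := by
  obtain ⟨f⟩ := Function.Embedding.nonempty_of_card_le h
  exact Rz.comp ha f f.injective

/-! ### Golay pairs -/

section Golay
variable {v : ℕ} [NeZero v]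

/-- periodic correlation -/
def cor (a : ZMod v → ℤ) (s : ZMod v) : ℤ := ∑ x, a x * a (x + s)

/-- sign sequence supported on `[0,L)` -/
def Sup (L : ℕ) (a : ZMod v → ℤ) : Prop :=
  ∀ x, (x.val < L → a x = 1 ∨ a x = -1) ∧ (L ≤ x.val → a x = 0)

theorem cor_glue (a b : ZMod v → ℤ) (l s : ZMod v) :
    cor (fun x => a x + b (x - l)) s + cor (fun x => a x - b (x - l)) s
      = 2 * cor a s + 2 * cor b s := by
  have hb : cor b s = ∑ x, b (x - l) * b (x + s - l) := by
    unfold cor
    rw [← Equiv.sum_comp (Equiv.subRight l)]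
    refine Finset.sum_congr rfl fun x _ => ?_
    simp only [Equiv.subRight_apply]
    congr 2; ring
  rw [hb]
  unfold cor
  rw [← Finset.sum_add_distrib, Finset.mul_sum, Finset.mul_sum, ← Finset.sum_add_distrib]
  refine Finset.sum_congr rfl fun x _ => ?_
  ring

theorem Sup.glue {L L' : ℕ} {a b : ZMod v → ℤ} (ha : Sup L a) (hb : Sup L' b) (hL : L + L' ≤ v)
    (hL' : 0 < L') (e : ℤ) (he : e = 1 ∨ e = -1) :
    Sup (L + L') (fun x => a x + e * b (x - (L : ZMod v))) := by
  intro x
  have hx := ZMod.val_lt x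
  have hLv : L < v := by omega
  have hvL : (L : ZMod v).val = L := ZMod.val_cast_of_lt hLv
  by_cases h : x.val < L
  · have h2 : (x - (L : ZMod v)).val = x.val + v - L := by
      have : x - (L : ZMod v) = ((x.val + v - L : ℕ) : ZMod v) := by
        rw [Nat.cast_sub (by omega)]; simp
      rw [this, ZMod.val_cast_of_lt (by omega)]
    have h3 := (hb (x - L)).2 (by omega)
    refine ⟨fun _ => ?_, fun h' => by omega⟩
    simp only [h3, mul_zero, add_zero]
    exact (ha x).1 h
  · have h2 : (x - (L : ZMod v)).val = x.val - L := by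
      rw [ZMod.val_sub (by omega), hvL]
    have h3 := (ha x).2 (by omega)
    constructor
    · intro h'
      have h4 := (hb (x - L)).1 (by omega)
      simp only [h3, zero_add]
      rcases he with rfl | rfl <;> rcases h4 with h4 | h4 <;> simp [h4]
    · intro h'
      have h4 := (hb (x - L)).2 (by omega)
      simp [h3, h4]

theorem golay (r : ℕ) (hr : 2 ^ r ≤ v) :
    ∃ a b : ZMod v → ℤ, Sup (2 ^ r) a ∧ Sup (2 ^ r) b ∧ ∀ s, s ≠ 0 → cor a s + cor b s = 0 := by
  induction r with
  | zero =>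
    have hs : Sup (v := v) (2 ^ 0) (fun x => if x = 0 then 1 else 0) := by
      intro x
      constructor
      · intro h
        have : x = 0 := by rwa [pow_zero, Nat.lt_one_iff, ZMod.val_eq_zero] at h
        simp [this]
      · intro h
        have : x ≠ 0 := by rintro rfl; simp at h
        simp [this]
    refine ⟨_, _, hs, hs, fun s hs0 => ?_⟩
    have : cor (v := v) (fun x => if x = 0 then 1 else 0) s = 0 := by
      unfold cor
      refine Finset.sum_eq_zero fun x _ => ?_
      by_cases hx : x = 0 <;> simp [hx, hs0]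
    rw [this]; rfl
  | succ r ih =>
    obtain ⟨a, b, ha, hb, hab⟩ := ih (le_trans (by rw [pow_succ]; omega) hr)
    have h2 : 2 ^ (r + 1) = 2 ^ r + 2 ^ r := by ring
    refine ⟨fun x => a x + b (x - ((2 ^ r : ℕ) : ZMod v)),
      fun x => a x - b (x - ((2 ^ r : ℕ) : ZMod v)), ?_, ?_, fun s hs => ?_⟩
    · have := ha.glue hb (by omega) (by positivity) 1 (Or.inl rfl)
      rw [h2]; simpa using this
    · have := ha.glue hb (by omega) (by positivity) (-1) (Or.inr rfl)
      rw [h2]; simpa [sub_eq_add_neg] using this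
    · rw [cor_glue]; linarith [hab s hs]

theorem Sup.rz {a : ZMod v → ℤ} (ha : Sup v a) : Rz (ZMod v) v (fun i j => cor a (j - i)) := by
  have := Rz.of_fun (ι := ZMod v) (κ := ZMod v) (fun x i => a (x + i))
    (fun x i => (ha _).1 (ZMod.val_lt _))
  refine this.congr (ZMod.card v) (fun i j _ => ?_)
  unfold cor
  rw [← Equiv.sum_comp (Equiv.addRight i) (fun x => a x * a (x + (j - i)))]
  refine Finset.sum_congr rfl fun x _ => ?_
  simp only [Equiv.coe_addRight]
  congr 2; ring

end Golay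

theorem ph_pow (r : ℕ) : PH (ZMod (2 ^ r)) (2 * 2 ^ r) := by
  obtain ⟨a, b, ha, hb, hab⟩ := golay (v := 2 ^ r) r le_rfl
  exact (ha.rz.add hb.rz).congr (by ring) (fun i j hij => hab _ (sub_ne_zero.2 hij.symm))

theorem ph_pow_add (r s : ℕ) : PH (ZMod (2 ^ r + 2 ^ s)) (4 * (2 ^ r + 2 ^ s)) := by
  have : NeZero (2 ^ r + 2 ^ s) := ⟨by positivity⟩
  obtain ⟨a, b, ha, hb, hab⟩ := golay (v := 2 ^ r + 2 ^ s) r (Nat.le_add_right _ _)
  obtain ⟨c, d, hc, hd, hcd⟩ := golay (v := 2 ^ r + 2 ^ s) s (Nat.le_add_left _ _)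
  have h1 := (ha.glue hc le_rfl (by positivity) 1 (Or.inl rfl)).rz
  have h2 := (ha.glue hc le_rfl (by positivity) (-1) (Or.inr rfl)).rz
  have h3 := (hb.glue hd le_rfl (by positivity) 1 (Or.inl rfl)).rz
  have h4 := (hb.glue hd le_rfl (by positivity) (-1) (Or.inr rfl)).rz
  refine ((h1.add h2).add (h3.add h4)).congr (by ring) (fun i j hij => ?_)
  have hs : j - i ≠ 0 := sub_ne_zero.2 hij.symm
  have e1 := cor_glue a c ((2 ^ r : ℕ) : ZMod (2 ^ r + 2 ^ s)) (j - i)
  have e2 := cor_glue b d ((2 ^ r : ℕ) : ZMod (2 ^ r + 2 ^ s)) (j - i)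
  simp only [one_mul, neg_mul, ← sub_eq_add_neg]
  rw [e1, e2]
  linarith [hab _ hs, hcd _ hs]

/-- All large multiples of `4` are lengths of partial Hadamard matrices. -/
theorem ph_all [Fintype ι] (s : ℕ) (hs : Fintype.card ι ≤ 2 ^ s) (t : ℕ)
    (ht : 2 * s * 2 ^ s ≤ t) : PH ι (4 * t) := by
  have key : ∀ r j : ℕ, j + r = s → ∀ t, 2 * r * 2 ^ s ≤ t → 2 ^ j ∣ t → PH ι (4 * t) := by
    intro r
    induction r with
    | zero =>
      intro j hj t _ hd
      obtain ⟨m, rfl⟩ := hd
      have hjs : j = s := by omega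
      subst hjs
      have := ((ph_pow j).of_card (ι' := ι) (by simpa using hs)).mul (2 * m)
      have e : 4 * (2 ^ j * m) = 2 * m * (2 * 2 ^ j) := by ring
      rw [e]; exact this
    | succ r ih =>
      intro j hj t ht hd
      by_cases h : 2 ^ (j + 1) ∣ t
      · exact ih (j + 1) (by omega) t (le_trans (by nlinarith [Nat.zero_le (2 ^ s)]) ht) h
      · obtain ⟨m, rfl⟩ := hd
        have hm : m % 2 = 1 := by
          by_contra hm
          exact h ⟨m / 2, by rw [pow_succ, mul_assoc]; congr 1; omega⟩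
        have hjs : 2 ^ j ≤ 2 ^ s := Nat.pow_le_pow_right (by norm_num) (by omega)
        have hle : 2 ^ s + 2 ^ j ≤ 2 ^ j * m := by nlinarith [Nat.zero_le (2 ^ s), Nat.zero_le r]
        obtain ⟨u, hu⟩ := Nat.exists_eq_add_of_le hle
        have : NeZero (2 ^ s + 2 ^ j) := ⟨by positivity⟩
        have h1 : PH ι (4 * (2 ^ s + 2 ^ j)) :=
          (ph_pow_add s j).of_card (by rw [ZMod.card]; omega)
        have h2 : PH ι (4 * u) := by
          refine ih (j + 1) (by omega) u (by nlinarith [Nat.zero_le (2 ^ s), Nat.zero_le r]) ?_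
          have e : 2 ^ s = 2 ^ (j + 1) * 2 ^ r := by rw [← pow_add]; congr 1; omega
          have h3 : 2 ^ (j + 1) ∣ 2 ^ s + u := by
            refine ⟨m / 2, ?_⟩
            have : m = 2 * (m / 2) + 1 := by omega
            have e2 : 2 ^ j * m = 2 ^ (j + 1) * (m / 2) + 2 ^ j := by
              conv_lhs => rw [this]
              ring
            omega
          exact (Nat.dvd_add_right ⟨_, e⟩).1 h3
        rw [hu, mul_add]
        exact h1.add h2
  exact key s 0 (by omega) t ht (by simp)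

end Pool.Agent.Elspas
end

-- part Pool.Agent.P.MP_459691_co.Match
section

/-! Blocks from perfect matchings, and the explicit factorizations used for the seeds. -/

set_option autoImplicit false
open Finset

namespace Pool.Agent.Elspas

variable {ι ι' : Type}

/-- fixed point free involution -/
def Inv (σ : ι → ι) : Prop := (∀ i, σ (σ i) = i) ∧ ∀ i, σ i ≠ i

theorem Inv.sum {σ : ι → ι} {τ : ι' → ι'} (h : Inv σ) (h' : Inv τ) : Inv (Sum.map σ τ) := by
  constructor
  · rintro (i | i) <;> simp [h.1, h'.1]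
  · rintro (i | i) <;> simp [h.2, h'.2]

theorem Rz.inv [Fintype ι] [DecidableEq ι] {σ : ι → ι} (hσ : Inv σ) {h : ℕ} (hh : PH ι h) :
    Rz ι h (fun i j => -(if σ i = j then (h : ℤ) else 0)) := by
  obtain ⟨c, h1, h2⟩ := hh
  let e := Fintype.equivFin ι
  let sg : ι → ℤ := fun i => if e i < e (σ i) then 1 else -1
  let rp : ι → ι := fun i => if e i < e (σ i) then i else σ i
  have hne : ∀ i, e i ≠ e (σ i) := fun i hi => hσ.2 i (e.injective hi).symm
  have hsg : ∀ i, sg i = 1 ∨ sg i = -1 := fun i => by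
    simp only [sg]; split_ifs <;> simp
  refine ⟨fun t i => sg i * c t (rp i), fun t i => ?_, fun i j hij => ?_⟩
  · rcases hsg i with a | a <;> rcases h1 t (rp i) with b | b <;> simp [a, b]
  · have e1 : ∑ t, sg i * c t (rp i) * (sg j * c t (rp j))
        = sg i * sg j * ∑ t, c t (rp i) * c t (rp j) := by
      rw [Finset.mul_sum]; exact Finset.sum_congr rfl fun t _ => by ring
    rw [e1]
    by_cases hj : σ i = j
    · subst hj
      have hr : rp (σ i) = rp i := by
        simp only [rp, hσ.1]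
        rcases lt_or_gt_of_ne (hne i) with a | a
        · simp [a, not_lt_of_gt a]
        · simp [a, not_lt_of_gt a]
      have hs : sg i * sg (σ i) = -1 := by
        simp only [sg, hσ.1]
        rcases lt_or_gt_of_ne (hne i) with a | a
        · simp [a, not_lt_of_gt a]
        · simp [a, not_lt_of_gt a]
      have : ∑ t, c t (rp i) * c t (rp i) = h := by
        have : ∀ t, c t (rp i) * c t (rp i) = 1 := fun t => by
          rcases h1 t (rp i) with b | b <;> simp [b]
        simp [this]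
      rw [hr, hs, this]; simp
    · have : rp i ≠ rp j := by
        simp only [rp]
        split_ifs
        · exact hij
        · intro hh; exact hj (by rw [hh, hσ.1])
        · exact hj
        · intro hh; exact hij (by rw [← hσ.1 i, hh, hσ.1])
      rw [h2 _ _ this]; simp [hj]

theorem Rz.invs [Fintype ι] [DecidableEq ι] {κ : Type} [Fintype κ] (σ : κ → ι → ι)
    (hσ : ∀ k, Inv (σ k)) (w : κ → ℕ) (hw : ∀ k, PH ι (w k)) :
    Rz ι (∑ k, w k) (fun i j => -∑ k, (if σ k i = j then (w k : ℤ) else 0)) := by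
  refine (Rz.sum univ w _ (fun k _ => Rz.inv (hσ k) (hw k))).congr rfl (fun i j _ => ?_)
  rw [Finset.sum_neg_distrib]

theorem Rz.invs_const [Fintype ι] [DecidableEq ι] {κ : Type} [Fintype κ] (σ : κ → ι → ι)
    (hσ : ∀ k, Inv (σ k)) (h : ℕ) (hw : PH ι h) :
    Rz ι (Fintype.card κ * h) (fun i j => -(h * ∑ k, (if σ k i = j then (1 : ℤ) else 0))) := by
  refine (Rz.invs σ hσ (fun _ => h) (fun _ => hw)).congr (by simp) (fun i j _ => ?_)
  rw [Finset.mul_sum]
  congr 1
  exact Finset.sum_congr rfl fun k _ => by split_ifs <;> simp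

section Layers
variable {A : Type} [AddCommGroup A] [DecidableEq A]

/-- matching between the two layers with shift `s` -/
def cross (s : A) (p : A × Bool) : A × Bool := (if p.2 then p.1 - s else p.1 + s, !p.2)

/-- shift of a pair of points in different layers -/
def shift (p p' : A × Bool) : A := if p.2 then p.1 - p'.1 else p'.1 - p.1

/-- reflection inside the layers, fixed points being sent across -/
def mu (s c : A) (p : A × Bool) : A × Bool :=
  if (if p.2 then c + s + s else c) - p.1 = p.1 then cross s p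
  else ((if p.2 then c + s + s else c) - p.1, p.2)

omit [DecidableEq A] in
theorem cross_inv (s : A) : Inv (cross s) := by
  constructor
  · rintro ⟨x, _ | _⟩ <;> simp [cross]
  · rintro ⟨x, _ | _⟩ <;> simp [cross]

omit [DecidableEq A] in
theorem cross_eq_iff (s : A) (p p' : A × Bool) :
    cross s p = p' ↔ p.2 ≠ p'.2 ∧ shift p p' = s := by
  obtain ⟨x, _ | _⟩ := p <;> obtain ⟨y, _ | _⟩ := p' <;> simp [cross, shift]
  · constructor <;> rintro rfl <;> simp
  · constructor <;> rintro rfl <;> simp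

theorem mu_inv (s c : A) : Inv (mu s c) := by
  constructor
  · rintro ⟨x, _ | _⟩
    · by_cases h : c - x = x
      · have h' : c + s + s - (x + s) = x + s := by rw [← h]; simp only [sub_eq_iff_eq_add] at h; rw [h]; abel
        simp [mu, cross, h, h']
      · have h' : ¬ x = c - x := fun e => h e.symm
        simp [mu, h, h']
    · by_cases h : c + s + s - x = x
      · have h' : c - (x - s) = x - s := by
          rw [sub_eq_iff_eq_add] at h ⊢
          have : c = x + x - s - s := by rw [← h]; abel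
          rw [this]; abel
        simp [mu, cross, h, h']
      · have h' : ¬ x = c + s + s - x := fun e => h e.symm
        simp [mu, h, h']
  · rintro ⟨x, b⟩
    unfold mu
    split_ifs with h1 h2 h3
    · exact (cross_inv s).2 _
    · simpa using h2
    · exact (cross_inv s).2 _
    · simpa using h3

theorem mu_count [Fintype A] (s : A) (p p' : A × Bool) (hp : p ≠ p') :
    ∑ c, (if mu s c p = p' then (1 : ℤ) else 0)
      = if p.2 = p'.2 then 1 else if shift p p' = s then 1 else 0 := by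
  have key : ∀ c, mu s c p = p' ↔
      c = p.1 + (if p.2 = p'.2 then p'.1 else p.1) - (if p.2 then s + s else 0)
        ∧ (p.2 = p'.2 ∨ shift p p' = s) := by
    intro c
    obtain ⟨x, b⟩ := p
    obtain ⟨y, b'⟩ := p'
    unfold mu
    by_cases h : (if b then c + s + s else c) - x = x
    · rw [if_pos h, cross_eq_iff]
      have hc : c = x + x - (if b then s + s else 0) := by
        rw [sub_eq_iff_eq_add] at h
        rw [← h]; cases b <;> simp [add_assoc]
      by_cases hb : b = b'
      · subst hb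
        have hxy : x ≠ y := fun e => hp (by rw [e])
        simp only [ne_eq, not_true_eq_false, false_and, if_true, true_or, and_true, false_iff]
        intro h2
        rw [hc] at h2
        exact hxy (by simpa using h2)
      · simp [hb, hc]
    · rw [if_neg h]
      by_cases hb : b = b'
      · subst hb
        simp only [Prod.mk.injEq, and_true, if_true, true_or]
        cases b
        · simp [sub_eq_iff_eq_add']
        · simp only [if_true]
          constructor
          · rintro rfl; abel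
          · rintro rfl; abel
      · simp only [Prod.mk.injEq, hb, and_false, if_false, false_or, false_iff, not_and]
        rintro rfl
        exact absurd (by cases b <;> simp <;> abel) h
  simp only [key]
  by_cases h1 : p.2 = p'.2
  · simp [h1]
  · by_cases h2 : shift p p' = s <;> simp [h1, h2]

theorem cross_sum [Fintype A] (w : A → ℤ) (p p' : A × Bool) :
    ∑ s, (if cross s p = p' then w s else 0) = if p.2 = p'.2 then 0 else w (shift p p') := by
  simp only [cross_eq_iff]
  by_cases h1 : p.2 = p'.2 <;> simp [h1]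

/-- general weighted design on two layers -/
theorem two_layer [Fintype A] (a : A) (u w : ℕ) (C : A → ℕ) (hu : PH (A × Bool) u)
    (hw : PH (A × Bool) w) (hC : ∀ s, PH (A × Bool) (C s)) :
    Rz (A × Bool) (Fintype.card A * (u + w) + ∑ s, C s) (fun i j => if i.2 = j.2 then -((u : ℤ) + w)
      else -((if shift i j = 0 then (u : ℤ) else 0) + (if shift i j = a then (w : ℤ) else 0)
        + C (shift i j))) := by
  have h1 := Rz.invs_const (mu (0 : A)) (mu_inv 0) u hu
  have h2 := Rz.invs_const (mu a) (mu_inv a) w hw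
  have h3 := Rz.invs (cross (A := A)) cross_inv C hC
  refine ((h1.add h2).add h3).congr (by ring) (fun i j hij => ?_)
  rw [mu_count _ _ _ hij, mu_count _ _ _ hij, cross_sum (fun s => (C s : ℤ))]
  split_ifs <;> ring

end Layers

section Four
variable {A A' U : Type} [AddCommGroup A] [DecidableEq A] [AddCommGroup A'] [DecidableEq A']
  (E : A' ⊕ U ≃ A)

/-- matchings inside the four groups -/
def nu (s : A) (s' s'' : A') : A' ⊕ U → (A × Bool) ⊕ (A' × Bool) → (A × Bool) ⊕ (A' × Bool)
  | .inl c => Sum.map (mu s (E (.inl c))) (mu s' c)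
  | .inr u => Sum.map (mu s (E (.inr u))) (cross s'')

/-- matchings between the two parts -/
def beta (s : A) (t : A × Bool) : (A × Bool) ⊕ (A' × Bool) → (A × Bool) ⊕ (A' × Bool)
  | .inr p => .inl (E (.inl p.1) + t.1 + (if xor p.2 t.2 then s else 0), xor p.2 t.2)
  | .inl p => Sum.elim (fun j => .inr (j, xor p.2 t.2)) (fun _ => .inl (cross s p))
      (E.symm (p.1 - t.1 - (if p.2 then s else 0)))

theorem nu_inv (s : A) (s' s'' : A') (c : A' ⊕ U) : Inv (nu E s s' s'' c) := by
  rcases c with c | c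
  · exact (mu_inv _ _).sum (mu_inv _ _)
  · exact (mu_inv _ _).sum (cross_inv _)

omit [DecidableEq A] [AddCommGroup A'] [DecidableEq A'] in
theorem beta_inv (s : A) (t : A × Bool) : Inv (beta E s t) := by
  constructor
  · rintro (⟨x, b⟩ | ⟨x, b⟩)
    · rcases h : E.symm (x - t.1 - (if b then s else 0)) with j | u
      · have h2 : E (.inl j) = x - t.1 - (if b then s else 0) := by rw [← h]; simp
        simp [beta, h, h2]
        abel
      · have h2 : (cross s (x, b)).1 - t.1 - (if (cross s (x, b)).2 then s else 0)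
            = x - t.1 - (if b then s else 0) := by
          cases b <;> simp [cross] <;> abel
        simp only [beta, h, Sum.elim_inr, h2, (cross_inv s).1]
    · have : E (.inl x) + t.1 + (if xor b t.2 then s else 0) - t.1 - (if xor b t.2 then s else 0)
          = E (.inl x) := by abel
      simp only [beta, this, Equiv.symm_apply_apply, Sum.elim_inl]
      simp
  · rintro (⟨x, b⟩ | ⟨x, b⟩)
    · rcases h : E.symm (x - t.1 - (if b then s else 0)) with j | u
      · simp [beta, h]
      · simpa [beta, h] using (cross_inv s).2 (x, b)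
    · simp [beta]

variable [Fintype A] [Fintype A'] [Fintype U]

theorem nu_ll (s : A) (s' s'' : A') (p p' : A × Bool) (hp : p ≠ p') :
    ∑ c, (if nu E s s' s'' c (.inl p) = .inl p' then (1 : ℤ) else 0)
      = if p.2 = p'.2 then 1 else if shift p p' = s then 1 else 0 := by
  rw [← mu_count s p p' hp, ← Equiv.sum_comp E]
  refine Finset.sum_congr rfl ?_
  rintro (c | c) _ <;> simp [nu]

omit [Fintype A] in
theorem nu_rr (s : A) (s' s'' : A') (p p' : A' × Bool) (hp : p ≠ p') :
    ∑ c, (if nu E s s' s'' c (.inr p) = .inr p' then (1 : ℤ) else 0)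
      = if p.2 = p'.2 then 1 else (if shift p p' = s' then 1 else 0)
          + Fintype.card U * (if shift p p' = s'' then 1 else 0) := by
  rw [Fintype.sum_sum_type]
  simp only [nu, Sum.map_inr, Sum.inr.injEq]
  rw [mu_count s' p p' hp]
  simp only [cross_eq_iff]
  by_cases h : p.2 = p'.2 <;> simp [h]

omit [Fintype A] in
theorem nu_lr (s : A) (s' s'' : A') (p : A × Bool) (p' : A' × Bool) :
    ∑ c, (if nu E s s' s'' c (.inl p) = .inr p' then (1 : ℤ) else 0) = 0 := by
  refine Finset.sum_eq_zero ?_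
  rintro (c | c) _ <;> simp [nu]

omit [Fintype A] in
theorem nu_rl (s : A) (s' s'' : A') (p : A' × Bool) (p' : A × Bool) :
    ∑ c, (if nu E s s' s'' c (.inr p) = .inl p' then (1 : ℤ) else 0) = 0 := by
  refine Finset.sum_eq_zero ?_
  rintro (c | c) _ <;> simp [nu]

omit [AddCommGroup A'] [Fintype A'] [Fintype U] in
theorem beta_rr (s : A) (p p' : A' × Bool) :
    ∑ t, (if beta E s t (.inr p) = .inr p' then (1 : ℤ) else 0) = 0 := by
  simp [beta]

omit [AddCommGroup A'] [Fintype A'] [Fintype U] in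
theorem beta_rl (s : A) (p : A' × Bool) (p' : A × Bool) :
    ∑ t, (if beta E s t (.inr p) = .inl p' then (1 : ℤ) else 0) = 1 := by
  have key : ∀ t, beta E s t (.inr p) = .inl p' ↔
      t = (p'.1 - E (.inl p.1) - (if p'.2 then s else 0), xor p.2 p'.2) := by
    rintro ⟨t, e⟩
    obtain ⟨x, b⟩ := p
    obtain ⟨y, b'⟩ := p'
    simp only [beta, Sum.inl.injEq, Prod.mk.injEq]
    constructor
    · rintro ⟨rfl, rfl⟩
      exact ⟨by abel, by cases b <;> cases e <;> rfl⟩
    · rintro ⟨rfl, rfl⟩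
      have : xor b (xor b b') = b' := by cases b <;> cases b' <;> rfl
      rw [this]
      exact ⟨by abel, rfl⟩
  simp [key]

omit [AddCommGroup A'] [Fintype A'] [Fintype U] in
theorem beta_lr (s : A) (p : A × Bool) (p' : A' × Bool) :
    ∑ t, (if beta E s t (.inl p) = .inr p' then (1 : ℤ) else 0) = 1 := by
  refine Eq.trans (Finset.sum_congr rfl fun t _ => ?_) (beta_rl E s p' p)
  have : beta E s t (.inl p) = .inr p' ↔ beta E s t (.inr p') = .inl p := by
    constructor <;> intro h <;> rw [← h, (beta_inv E s t).1]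
  simp only [this]

omit [AddCommGroup A'] in
theorem beta_ll (s : A) (p p' : A × Bool) :
    ∑ t, (if beta E s t (.inl p) = .inl p' then (1 : ℤ) else 0)
      = if p.2 = p'.2 then 0 else 2 * Fintype.card U * (if shift p p' = s then 1 else 0) := by
  rw [Fintype.sum_prod_type]
  let F : A' ⊕ U ≃ A := E.trans (Equiv.subLeft (p.1 - (if p.2 then s else 0)))
  rw [← Equiv.sum_comp F, Fintype.sum_sum_type]
  have h : ∀ c, p.1 - F c - (if p.2 then s else 0) = E c := by
    intro c; simp only [F, Equiv.trans_apply, Equiv.subLeft_apply]; abel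
  simp only [beta, h, Equiv.symm_apply_apply, Sum.elim_inl, Sum.elim_inr, Sum.inl.injEq,
    cross_eq_iff]
  by_cases h1 : p.2 = p'.2
  · simp [h1]
  · by_cases h2 : shift p p' = s <;> simp [h1, h2]; ring

omit [AddCommGroup A] [DecidableEq A] [AddCommGroup A'] [DecidableEq A'] [Fintype A]
  [Fintype A'] in
/-- three seed columns -/
theorem seed3 : Rz ((A × Bool) ⊕ (A' × Bool)) 3 (fun i j =>
    match i, j with
    | .inl p, .inl p' => if p.2 = p'.2 then 3 else -1
    | .inr p, .inr p' => if p.2 = p'.2 then 3 else -1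
    | _, _ => -1) := by
  let c1 : (A × Bool) ⊕ (A' × Bool) → ℤ :=
    Sum.elim (fun p => if p.2 then 1 else -1) (fun p => if p.2 then 1 else -1)
  let c2 : (A × Bool) ⊕ (A' × Bool) → ℤ :=
    Sum.elim (fun p => if p.2 then 1 else -1) (fun p => if p.2 then -1 else 1)
  let c3 : (A × Bool) ⊕ (A' × Bool) → ℤ := Sum.elim (fun _ => 1) (fun _ => -1)
  have h1 := Rz.single c1 (by rintro (⟨_, _ | _⟩ | ⟨_, _ | _⟩) <;> simp [c1])
  have h2 := Rz.single c2 (by rintro (⟨_, _ | _⟩ | ⟨_, _ | _⟩) <;> simp [c2])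
  have h3 := Rz.single c3 (by rintro (⟨_, _ | _⟩ | ⟨_, _ | _⟩) <;> simp [c3])
  refine ((h1.add h2).add h3).congr rfl ?_
  rintro (⟨_, _ | _⟩ | ⟨_, _ | _⟩) (⟨_, _ | _⟩ | ⟨_, _ | _⟩) _ <;> simp [c1, c2, c3]

omit [Fintype U] in
theorem gamma_rz (C : A' → ℕ) (hC : ∀ s, PH ((A × Bool) ⊕ (A' × Bool)) (C s)) :
    Rz ((A × Bool) ⊕ (A' × Bool)) (∑ s, C s) (fun i j =>
    match i, j with
    | .inl p, .inl p' => if p.2 = p'.2 then 0 else
        -(Sum.elim (fun s => (C s : ℤ)) (fun _ => 0) (E.symm (shift p p')))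
    | .inr p, .inr p' => if p.2 = p'.2 then 0 else -(C (shift p p') : ℤ)
    | _, _ => 0) := by
  have h := Rz.invs (fun s : A' => Sum.map (cross (E (.inl s))) (cross s))
    (fun s => (cross_inv _).sum (cross_inv _)) C hC
  refine h.congr rfl ?_
  rintro (p | p) (p' | p') _
  · simp only [Sum.map_inl, Sum.inl.injEq, cross_eq_iff]
    by_cases h1 : p.2 = p'.2
    · simp [h1]
    · obtain ⟨c, hc⟩ := E.surjective (shift p p')
      rw [← hc]
      rcases c with c | c <;> simp [h1]
  · simp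
  · simp
  · simp only [Sum.map_inr, Sum.inr.injEq]
    rw [cross_sum (fun s => (C s : ℤ))]
    split_ifs <;> simp

end Four

end Pool.Agent.Elspas
end

-- part Pool.Agent.P.MP_459691_co.Seeds
section

/-! Codes meeting the Plotkin bound. -/

set_option autoImplicit false
open Finset

namespace Pool.Agent.Elspas

variable {ι ι' : Type}

/-- `n` sign columns with all inner products of distinct rows at most `-q` -/
def Good (ι : Type) (n q : ℕ) : Prop := ∃ G, Rz ι n G ∧ ∀ i j, i ≠ j → G i j ≤ -(q : ℤ)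

/-- `2k` rows, length `(2k-1)q+2b`, inner products at most `-q` -/
def GoodK (k q b : ℕ) : Prop := ∃ n, n + q = 2 * k * q + 2 * b ∧ Good (Fin (2 * k)) n q

theorem Good.toK [Fintype ι] {n q k b : ℕ} (h : Good ι n q) (hk : Fintype.card ι = 2 * k)
    (hn : n + q = 2 * k * q + 2 * b) : GoodK k q b := by
  obtain ⟨G, h1, h2⟩ := h
  let e := (Fintype.equivFinOfCardEq hk).symm
  exact ⟨n, hn, _, h1.comp e e.injective, fun i j hij => h2 _ _ (e.injective.ne hij)⟩

theorem GoodK.add {k q b q' b' : ℕ} (h : GoodK k q b) (h' : GoodK k q' b') :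
    GoodK k (q + q') (b + b') := by
  obtain ⟨n, hn, G, h1, h2⟩ := h
  obtain ⟨n', hn', G', h1', h2'⟩ := h'
  refine ⟨n + n', by nlinarith, _, h1.add h1', fun i j hij => ?_⟩
  have := h2 i j hij
  have := h2' i j hij
  push_cast; linarith

theorem sum_ite3 {A : Type} [Fintype A] [DecidableEq A] (a b c : A) (hab : a ≠ b) (hac : a ≠ c)
    (hbc : b ≠ c) (x y z w : ℕ) :
    (∑ s, if s = a then x else if s = b then y else if s = c then z else w) + 3 * w
      = Fintype.card A * w + x + y + z := by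
  have : ∀ s, (if s = a then x else if s = b then y else if s = c then z else w)
      + ((if s = a then w else 0) + (if s = b then w else 0) + (if s = c then w else 0))
      = w + (if s = a then x else 0) + (if s = b then y else 0) + (if s = c then z else 0) := by
    intro s
    by_cases h1 : s = a
    · subst h1; simp [hab, hac]; ring
    · by_cases h2 : s = b
      · subst h2; simp [h1, hbc]; ring
      · by_cases h3 : s = c
        · subst h3; simp [h1, h2]; ring
        · simp [h1, h2, h3]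
  have h := Finset.sum_congr rfl (fun s (_ : s ∈ (univ : Finset A)) => this s)
  simp only [Finset.sum_add_distrib, Finset.sum_ite_eq', mem_univ, if_true, Finset.sum_const,
    card_univ, smul_eq_mul] at h
  omega

theorem sum_ite2 {A : Type} [Fintype A] [DecidableEq A] (a b : A) (hab : a ≠ b) (x y w : ℕ) :
    (∑ s, if s = a then x else if s = b then y else w) + 2 * w
      = Fintype.card A * w + x + y := by
  have : ∀ s, (if s = a then x else if s = b then y else w)
      + ((if s = a then w else 0) + (if s = b then w else 0))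
      = w + (if s = a then x else 0) + (if s = b then y else 0) := by
    intro s
    by_cases h1 : s = a
    · subst h1; simp [hab]; ring
    · by_cases h2 : s = b
      · subst h2; simp [h1]; ring
      · simp [h1, h2]
  have h := Finset.sum_congr rfl (fun s (_ : s ∈ (univ : Finset A)) => this s)
  simp only [Finset.sum_add_distrib, Finset.sum_ite_eq', mem_univ, if_true, Finset.sum_const,
    card_univ, smul_eq_mul] at h
  omega

theorem zmod_ne {k : ℕ} {a b : ℕ} (ha : a < k) (hb : b < k) (hab : a ≠ b) :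
    (a : ZMod k) ≠ (b : ZMod k) := by
  intro h
  have := congrArg ZMod.val h
  rw [ZMod.val_cast_of_lt ha, ZMod.val_cast_of_lt hb] at this
  exact hab this

section
variable {k T : ℕ} (H : ∀ t, T ≤ t → PH (Fin (2 * k)) (4 * t))
include H

theorem good_base (hk : 2 ≤ k) (t b : ℕ) (ht : T ≤ t) : GoodK k (4 * t) (2 * b) := by
  have : NeZero k := ⟨by omega⟩
  have hc : Fintype.card (ZMod k × Bool) = 2 * k := by simp [ZMod.card, mul_comm]
  have H' : ∀ t, T ≤ t → PH (ZMod k × Bool) (4 * t) := fun t ht =>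
    (H t ht).of_card (by simp [hc])
  have h01 : (0 : ZMod k) ≠ 1 := by simpa using zmod_ne (k := k) (a := 0) (b := 1) (by omega) (by omega) (by omega)
  have h := two_layer (1 : ZMod k) (4 * t) 0
    (fun s => if s = 0 then 0 else if s = 1 then 4 * (t + b) else 4 * t) (H' t ht) PH.zero (by
      intro s; split_ifs
      · exact PH.zero
      · exact H' _ (by omega)
      · exact H' _ ht)
  refine Good.toK ⟨_, h, fun i j _ => ?_⟩ hc ?_
  · split_ifs <;> push_cast <;> omega
  · have := sum_ite2 (0 : ZMod k) 1 h01 0 (4 * (t + b)) (4 * t)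
    rw [ZMod.card] at this ⊢
    nlinarith

theorem good_two (hk : 2 ≤ k) (t : ℕ) (ht : T ≤ t) : GoodK k (8 * t + 10) 0 := by
  have : NeZero k := ⟨by omega⟩
  have hc : Fintype.card (ZMod k × Bool) = 2 * k := by simp [ZMod.card, mul_comm]
  have H' : ∀ t, T ≤ t → PH (ZMod k × Bool) (4 * t) := fun t ht =>
    (H t ht).of_card (by simp [hc])
  have h01 : (0 : ZMod k) ≠ 1 := by simpa using zmod_ne (k := k) (a := 0) (b := 1) (by omega) (by omega) (by omega)
  have h := two_layer (1 : ZMod k) (4 * (t + 1)) (4 * (t + 2))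
    (fun s => if s = 0 then 4 * (t + 1) else if s = 1 then 4 * t else 4 * (2 * t + 2))
    (H' _ (by omega)) (H' _ (by omega)) (by
      intro s; split_ifs <;> exact H' _ (by omega))
  have h1 := Rz.single (fun p : ZMod k × Bool => if p.2 then (1 : ℤ) else -1)
    (by rintro ⟨_, _ | _⟩ <;> simp)
  refine Good.toK ⟨_, (h1.add h1).add h, fun i j _ => ?_⟩ hc ?_
  · by_cases h2 : i.2 = j.2
    · rw [if_pos h2, h2]; cases j.2 <;> simp <;> omega
    · have : (if i.2 then (1 : ℤ) else -1) * (if j.2 then (1 : ℤ) else -1) = -1 := by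
        revert h2; cases i.2 <;> cases j.2 <;> simp
      rw [if_neg h2, this]
      split_ifs <;> push_cast <;> omega
  · have := sum_ite2 (0 : ZMod k) 1 h01 (4 * (t + 1)) (4 * t) (4 * (2 * t + 2))
    rw [ZMod.card] at this ⊢
    nlinarith

theorem good_even (g : ℕ) (hk : k = 2 * g) (hg : 2 ≤ g) (t : ℕ) (ht : T ≤ t) :
    GoodK k (8 * t + 9) 0 := by
  have : NeZero g := ⟨by omega⟩
  have hc : Fintype.card ((ZMod g × Bool) ⊕ (ZMod g × Bool)) = 2 * k := by
    simp [ZMod.card, hk]; ring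
  have H' : ∀ t, T ≤ t → PH ((ZMod g × Bool) ⊕ (ZMod g × Bool)) (4 * t) := fun t ht =>
    (H t ht).of_card (by rw [hc]; simp)
  have h01 : (0 : ZMod g) ≠ 1 := by simpa using zmod_ne (k := g) (a := 0) (b := 1) (by omega) (by omega) (by omega)
  let E : ZMod g ⊕ Empty ≃ ZMod g := Equiv.sumEmpty _ _
  have h1 := Rz.invs_const (nu E 0 0 0) (nu_inv E 0 0 0) _ (H' (t + 1) (by omega))
  have h2 := Rz.invs_const (nu E 1 1 0) (nu_inv E 1 1 0) _ (H' (t + 2) (by omega))
  have h3 := Rz.invs_const (beta E 0) (beta_inv E 0) _ (H' (2 * t + 2) (by omega))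
  have h4 := gamma_rz E
    (fun s => if s = 0 then 4 * (t + 1) else if s = 1 then 4 * t else 4 * (2 * t + 2)) (by
      intro s; split_ifs <;> exact H' _ (by omega))
  refine Good.toK ⟨_, (((seed3.add h1).add h2).add h3).add h4, ?_⟩ hc ?_
  · rintro (p | p) (p' | p') hp
    · have hp' : p ≠ p' := fun e => hp (by rw [e])
      simp only [nu_ll E _ _ _ _ _ hp', beta_ll]
      have : E.symm (shift p p') = .inl (shift p p') := rfl
      rw [this]
      simp only [Sum.elim_inl, Fintype.card_eq_zero]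
      split_ifs <;> push_cast <;> omega
    · simp only [nu_lr, beta_lr]; push_cast; omega
    · simp only [nu_rl, beta_rl]; push_cast; omega
    · have hp' : p ≠ p' := fun e => hp (by rw [e])
      simp only [nu_rr E _ _ _ _ _ hp', beta_rr, Fintype.card_eq_zero]
      split_ifs <;> push_cast <;> omega
  · have := sum_ite2 (0 : ZMod g) 1 h01 (4 * (t + 1)) (4 * t) (4 * (2 * t + 2))
    simp only [Fintype.card_sum, Fintype.card_prod, ZMod.card, Fintype.card_bool,
      Fintype.card_eq_zero] at this ⊢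
    subst hk
    nlinarith

theorem good_odd (a : ℕ) (hk : k = 2 * a + 1) (ha : 3 ≤ a) (t : ℕ) (ht : T ≤ t) :
    GoodK k (8 * t + 9) 1 := by
  have : NeZero a := ⟨by omega⟩
  have hc : Fintype.card ((ZMod (a + 1) × Bool) ⊕ (ZMod a × Bool)) = 2 * k := by
    simp [ZMod.card, hk]; ring
  have H' : ∀ t, T ≤ t → PH ((ZMod (a + 1) × Bool) ⊕ (ZMod a × Bool)) (4 * t) := fun t ht =>
    (H t ht).of_card (by rw [hc]; simp)
  have h01 : (0 : ZMod a) ≠ 1 := by simpa using zmod_ne (k := a) (a := 0) (b := 1) (by omega) (by omega) (by omega)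
  have h02 : (0 : ZMod a) ≠ 2 := by simpa using zmod_ne (k := a) (a := 0) (b := 2) (by omega) (by omega) (by omega)
  have h12 : (1 : ZMod a) ≠ 2 := by simpa using zmod_ne (k := a) (a := 1) (b := 2) (by omega) (by omega) (by omega)
  obtain ⟨E⟩ : Nonempty (ZMod a ⊕ Unit ≃ ZMod (a + 1)) :=
    Fintype.card_eq.1 (by simp [ZMod.card])
  have h1 := Rz.invs_const (nu E (E (.inl 1)) 0 1) (nu_inv E _ 0 1) _ (H' (t + 1) (by omega))
  have h2 := Rz.invs_const (nu E (E (.inl 2)) 0 2) (nu_inv E _ 0 2) _ (H' (t + 2) (by omega))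
  have h3 := Rz.invs_const (beta E (E (.inl 0))) (beta_inv E _) _ (H' (t + 1) (by omega))
  have h3' := Rz.invs_const (beta E (E (.inr ()))) (beta_inv E _) _ (H' (t + 1) (by omega))
  have h4 := gamma_rz E
    (fun s => if s = 0 then 0 else if s = 1 then 4 * (t + 1) else if s = 2 then 4 * t
      else 4 * (2 * t + 2)) (by
      intro s; split_ifs
      · exact PH.zero
      all_goals exact H' _ (by omega))
  refine Good.toK ⟨_, ((((seed3.add h1).add h2).add h3).add h3').add h4, ?_⟩ hc ?_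
  · rintro (p | p) (p' | p') hp
    · have hp' : p ≠ p' := fun e => hp (by rw [e])
      simp only [nu_ll E _ _ _ _ _ hp', beta_ll]
      obtain ⟨c, hc⟩ := E.surjective (shift p p')
      rw [← hc]
      rcases c with c | c
      · simp only [Equiv.symm_apply_apply, Sum.elim_inl, EmbeddingLike.apply_eq_iff_eq,
          Sum.inl.injEq, Fintype.card_unique, reduceCtorEq, if_false]
        split_ifs <;> push_cast <;> omega
      · simp only [Equiv.symm_apply_apply, Sum.elim_inr, EmbeddingLike.apply_eq_iff_eq,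
          Fintype.card_unique, reduceCtorEq, if_false, if_true]
        split_ifs <;> push_cast <;> omega
    · simp only [nu_lr, beta_lr]; push_cast; omega
    · simp only [nu_rl, beta_rl]; push_cast; omega
    · have hp' : p ≠ p' := fun e => hp (by rw [e])
      simp only [nu_rr E _ _ _ _ _ hp', beta_rr, Fintype.card_unique]
      split_ifs <;> push_cast <;> omega
  · have := sum_ite3 (0 : ZMod a) 1 2 h01 h02 h12 0 (4 * (t + 1)) (4 * t) (4 * (2 * t + 2))
    simp only [Fintype.card_sum, Fintype.card_prod, ZMod.card, Fintype.card_bool,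
      Fintype.card_unique] at this ⊢
    subst hk
    nlinarith

end

theorem good_of_fun {m n q : ℕ} (c : Fin n → Fin m → Bool)
    (h : ∀ i j, i ≠ j → ∑ t, (if c t i then (1 : ℤ) else -1) * (if c t j then (1 : ℤ) else -1)
      ≤ -(q : ℤ)) : Good (Fin m) n q :=
  ⟨_, ⟨fun t i => if c t i then 1 else -1, fun t i => by cases h : c t i <;> simp [h],
    fun _ _ _ => rfl⟩, h⟩

theorem good_small2 : GoodK 2 1 0 :=
  ⟨3, rfl, good_of_fun (fun t i => decide ((t.val + i.val) % 3 = 0 ∨ i.val = 3)) (by decide)⟩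

theorem good_small3 : GoodK 3 1 1 :=
  ⟨7, rfl, good_of_fun (fun t i => decide ((t.val + i.val) % 7 ∈ [1, 2, 4])) (by decide)⟩

theorem good_small5 : GoodK 5 1 1 :=
  ⟨11, rfl, good_of_fun (fun t i => decide ((t.val + i.val) % 11 ∈ [1, 3, 4, 5, 9])) (by decide)⟩

theorem good_all {k T : ℕ} (H : ∀ t, T ≤ t → PH (Fin (2 * k)) (4 * t)) (hk : 2 ≤ k) (q b : ℕ)
    (hq : 20 * T + 19 ≤ q) (hb : (q * k + b) % 2 = 0) : GoodK k q b := by
  have h1 : GoodK k (8 * T + 9) (k % 2) := by
    have hs : ∀ b, GoodK k 1 b → GoodK k (8 * T + 9) b := fun b h => by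
      have := h.add (good_base H hk (2 * T + 2) 0 (by omega))
      have e : 1 + 4 * (2 * T + 2) = 8 * T + 9 := by ring
      rwa [e] at this
    rcases Nat.even_or_odd' k with ⟨g, hg | hg⟩
    · have e : k % 2 = 0 := by omega
      rw [e]
      by_cases h : 2 ≤ g
      · exact good_even H g hg h T le_rfl
      · have : k = 2 := by omega
        subst this; exact hs _ good_small2
    · have e : k % 2 = 1 := by omega
      rw [e]
      by_cases h : 3 ≤ g
      · exact good_odd H g hg h T le_rfl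
      · have : k = 3 ∨ k = 5 := by omega
        rcases this with rfl | rfl
        · exact hs _ good_small3
        · exact hs _ good_small5
  have h2 := good_two H hk T le_rfl
  have hpar : ∀ r, q % 2 = r → (r * (k % 2) + b) % 2 = 0 := by
    rintro r rfl
    rw [Nat.add_mod, ← Nat.mul_mod, ← Nat.add_mod]; exact hb
  have hq4 : q % 4 = 0 ∨ q % 4 = 1 ∨ q % 4 = 2 ∨ q % 4 = 3 := by omega
  rcases hq4 with h | h | h | h
  · have := hpar 0 (by omega)
    have := good_base H hk (q / 4) (b / 2) (by omega)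
    rwa [show 4 * (q / 4) = q by omega, show 2 * (b / 2) = b by omega] at this
  · have := hpar 1 (by omega)
    have := h1.add (good_base H hk ((q - (8 * T + 9)) / 4) (b / 2) (by omega))
    rwa [show 8 * T + 9 + 4 * ((q - (8 * T + 9)) / 4) = q by omega,
      show k % 2 + 2 * (b / 2) = b by omega] at this
  · have := hpar 0 (by omega)
    have := h2.add (good_base H hk ((q - (8 * T + 10)) / 4) (b / 2) (by omega))
    rwa [show 8 * T + 10 + 4 * ((q - (8 * T + 10)) / 4) = q by omega,
      show 0 + 2 * (b / 2) = b by omega] at this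
  · have := hpar 1 (by omega)
    have := (h1.add h2).add (good_base H hk ((q - (16 * T + 19)) / 4) (b / 2) (by omega))
    rwa [show 8 * T + 9 + (8 * T + 10) + 4 * ((q - (16 * T + 19)) / 4) = q by omega,
      show k % 2 + 0 + 2 * (b / 2) = b by omega] at this

end Pool.Agent.Elspas
end

-- part Pool.Agent.P.MP_459691_co.Main
section

/-! Plotkin bound and its attainment. -/

set_option autoImplicit false
open Finset

namespace Pool.Agent.Elspas

theorem sign_sum {κ : Type} [Fintype κ] (x y : κ → Bool) :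
    ∑ t, (if x t then (1 : ℤ) else -1) * (if y t then (1 : ℤ) else -1)
      = Fintype.card κ - 2 * (hammingDist x y : ℤ) := by
  have : ∀ t, (if x t then (1 : ℤ) else -1) * (if y t then (1 : ℤ) else -1)
      = 1 - 2 * (if x t ≠ y t then 1 else 0) := by
    intro t; cases x t <;> cases y t <;> simp
  simp only [this, Finset.sum_sub_distrib, ← Finset.mul_sum, Finset.sum_boole, hammingDist]
  simp

/-- Plotkin bound for an odd number of words. -/
theorem plotkin_odd {κ ι : Type} [Fintype κ] [Fintype ι] [DecidableEq ι] (w : ι → κ → Bool)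
    (k d : ℕ) (hk : 1 ≤ k) (hι : Fintype.card ι = 2 * k + 1)
    (hd : ∀ i j, i ≠ j → d ≤ hammingDist (w i) (w j)) :
    d * (2 * k + 1) ≤ Fintype.card κ * (k + 1) := by
  set n := Fintype.card κ with hn
  let c : κ → ι → ℤ := fun t i => if w i t then 1 else -1
  have h1 : ∀ t, 1 ≤ (∑ i, c t i) ^ 2 := by
    intro t
    have : ∑ i, c t i = Fintype.card ι - 2 * ∑ i, (if w i t then (0 : ℤ) else 1) := by
      rw [Finset.mul_sum, eq_sub_iff_add_eq, ← Finset.sum_add_distrib]
      rw [Finset.sum_congr rfl (g := fun _ => (1 : ℤ))]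
      · simp
      · intro i _; simp only [c]; split_ifs <;> simp
    have h0 : ∑ i, c t i ≠ 0 := by rw [this, hι]; push_cast; omega
    have := sq_pos_of_pos (abs_pos.2 h0)
    rw [sq_abs] at this
    omega
  have h2 : ∑ t, (∑ i, c t i) ^ 2 = ∑ i, ∑ j, ∑ t, c t i * c t j := by
    simp only [sq, Finset.sum_mul_sum]
    rw [Finset.sum_comm]
    exact Finset.sum_congr rfl fun i _ => Finset.sum_comm
  have h3 : ∀ i j, ∑ t, c t i * c t j ≤ (n - 2 * d : ℤ) + (if i = j then (2 * d : ℤ) else 0) := by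
    intro i j
    rw [sign_sum]
    split_ifs with h
    · subst h; simp [hn]
    · have := hd i j h
      omega
  have h4 : (n : ℤ) ≤ ∑ t, (∑ i, c t i) ^ 2 := by
    calc (n : ℤ) = ∑ _t : κ, (1 : ℤ) := by simp [hn]
      _ ≤ _ := Finset.sum_le_sum fun t _ => h1 t
  have h5 : ∑ i, ∑ j, ∑ t, c t i * c t j
      ≤ (2 * k + 1) * ((2 * k + 1) * (n - 2 * d : ℤ) + 2 * d) := by
    calc _ ≤ ∑ i : ι, ∑ j : ι, ((n - 2 * d : ℤ) + (if i = j then (2 * d : ℤ) else 0)) :=
          Finset.sum_le_sum fun i _ => Finset.sum_le_sum fun j _ => h3 i j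
      _ = _ := by simp [Finset.sum_add_distrib, hι]; left; ring
  have h6 : (4 * k : ℤ) * (d * (2 * k + 1)) ≤ (4 * k : ℤ) * (n * (k + 1)) := by nlinarith
  have h7 := le_of_mul_le_mul_left h6 (by positivity)
  exact_mod_cast h7

/-- existence of a code from a sign matrix, with `r` deleted and `p` added coordinates -/
theorem code_of_good {k q b : ℕ} (h : GoodK k q b) (n d e : ℕ) (hd : 1 ≤ d)
    (hdq : d + e ≤ k * q + b) (hn : 2 * k * q + 2 * b ≤ n + e + q) :
    ∃ D : Finset (Fin n → Bool), (∀ x ∈ D, ∀ y ∈ D, x ≠ y → d ≤ hammingDist x y) ∧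
      D.card = 2 * k := by
  obtain ⟨m, hm, G, ⟨c, h1, h2⟩, h3⟩ := h
  let w0 : Fin (2 * k) → Fin m → Bool := fun i t => decide (c t i = 1)
  have hw0 : ∀ i j, i ≠ j → d + e ≤ hammingDist (w0 i) (w0 j) := by
    intro i j hij
    have e1 := sign_sum (w0 i) (w0 j)
    have : ∀ t i, (if w0 i t then (1 : ℤ) else -1) = c t i := by
      intro t i; rcases h1 t i with h | h <;> simp [w0, h]
    simp only [this, h2 i j hij, Fintype.card_fin] at e1
    have := h3 i j hij
    have hm' : (m : ℤ) + q = 2 * (k * q) + 2 * b := by exact_mod_cast (by rw [hm]; ring)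
    have hdq' : (d : ℤ) + e ≤ k * q + b := by exact_mod_cast hdq
    omega
  let w : Fin (2 * k) → Fin n → Bool := fun i t => if h : t.val < m then w0 i ⟨t, h⟩ else false
  have hw : ∀ i j, i ≠ j → d ≤ hammingDist (w i) (w j) := by
    intro i j hij
    have h0 := hw0 i j hij
    have : hammingDist (w0 i) (w0 j) ≤ hammingDist (w i) (w j) + e := by
      unfold hammingDist
      have hsub : (univ.filter fun t => w0 i t ≠ w0 j t).map Fin.valEmbedding ⊆
          (univ.filter fun t => w i t ≠ w j t).map Fin.valEmbedding ∪ Finset.Ico n (n + e) := by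
        intro x hx
        simp only [mem_map, mem_filter, mem_univ, true_and, Fin.valEmbedding_apply] at hx
        obtain ⟨t, ht, rfl⟩ := hx
        by_cases htn : t.val < n
        · refine mem_union_left _ ?_
          simp only [mem_map, mem_filter, mem_univ, true_and, Fin.valEmbedding_apply]
          exact ⟨⟨t, htn⟩, by simpa [w] using ht, rfl⟩
        · refine mem_union_right _ ?_
          have := t.2
          rw [Finset.mem_Ico]; omega
      have := (card_le_card hsub).trans (card_union_le _ _)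
      simpa using this
    omega
  have hinj : Function.Injective w := by
    intro i j hij
    by_contra hne
    have := hw i j hne
    rw [hij, hammingDist_self] at this
    omega
  refine ⟨univ.image w, ?_, by rw [card_image_of_injective _ hinj]; simp⟩
  intro x hx y hy hxy
  obtain ⟨i, -, rfl⟩ := mem_image.1 hx
  obtain ⟨j, -, rfl⟩ := mem_image.1 hy
  exact hw i j (fun e => hxy (by rw [e]))

/-- Plotkin bound with the parity extension -/
theorem plotkin_code {n d k : ℕ} (hk : 1 ≤ k) (C : Finset (Fin n → Bool))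
    (hC : ∀ x ∈ C, ∀ y ∈ C, x ≠ y → d ≤ hammingDist x y) (hc : 2 * k + 1 ≤ C.card) :
    (d + d % 2) * (2 * k + 1) ≤ (n + d % 2) * (k + 1) := by
  obtain ⟨C', hC', hc'⟩ := Finset.exists_subset_card_eq hc
  rcases Nat.mod_two_eq_zero_or_one d with h | h
  · have := plotkin_odd (ι := C') (fun x => x.1) k d hk (by simp [hc'])
      (fun i j hij => hC _ (hC' i.2) _ (hC' j.2) (fun e => hij (Subtype.ext e)))
    simpa [h] using this
  · let par : (Fin n → Bool) → Bool := fun x => decide (hammingDist x (fun _ => false) % 2 = 1)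
    let w : C' → Option (Fin n) → Bool := fun x t => t.elim (par x.1) x.1
    have := plotkin_odd (ι := C') w k (d + 1) hk (by simp [hc']) (by
      intro i j hij
      have h0 := hC _ (hC' i.2) _ (hC' j.2) (fun e => hij (Subtype.ext e))
      have e1 : hammingDist (w i) (w j)
          = (if par i.1 ≠ par j.1 then 1 else 0) + hammingDist i.1 j.1 := by
        unfold hammingDist
        simp only [card_filter]
        rw [Fintype.sum_option]
        rfl
      have e3 : (hammingDist i.1 j.1 + hammingDist i.1 (fun _ => false)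
          + hammingDist j.1 (fun _ => false)) % 2 = 0 := by
        unfold hammingDist
        simp only [card_filter, ← Finset.sum_add_distrib]
        refine Nat.eq_zero_of_dvd_of_lt ((Nat.dvd_mod_iff (dvd_refl 2)).2 ?_) (Nat.mod_lt _ two_pos)
        refine Finset.dvd_sum fun t _ => ?_
        cases i.1 t <;> cases j.1 t <;> simp
      rw [e1]
      by_cases a : hammingDist i.1 (fun _ => false) % 2 = 1 <;>
        by_cases b : hammingDist j.1 (fun _ => false) % 2 = 1 <;>
        simp [par, a, b] <;> omega)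
    simpa [h] using this

/-- the Plotkin bound is attained when the distance is large compared with the size -/
theorem exists_code (n d k : ℕ) (hk : 2 ≤ k) (hd : 180 * k ^ 2 * (Nat.log 2 k + 2) ≤ d)
    (hn : (d + d % 2) * (2 * k - 1) ≤ (n + d % 2) * k) :
    ∃ D : Finset (Fin n → Bool), (∀ x ∈ D, ∀ y ∈ D, x ≠ y → d ≤ hammingDist x y) ∧
      D.card = 2 * k := by
  set s := Nat.log 2 k + 2 with hs
  have h1 : 2 * k ≤ 2 ^ s := by
    have := Nat.lt_pow_succ_log_self (b := 2) (by norm_num) k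
    rw [hs, pow_succ]; rw [Nat.succ_eq_add_one] at this; omega
  have h2 : 2 ^ s ≤ 4 * k := by
    have := Nat.pow_log_le_self 2 (x := k) (by omega)
    rw [hs, pow_add]; omega
  have H : ∀ t, 2 * s * 2 ^ s ≤ t → PH (Fin (2 * k)) (4 * t) :=
    fun t ht => ph_all s (by simpa using h1) t ht
  set d' := d + d % 2 with hd'
  have hdm := Nat.div_add_mod d' k
  have hml := Nat.mod_lt d' (show 0 < k by omega)
  set q := d' / k
  set b := d' % k
  have hq : 20 * (2 * s * 2 ^ s) + 19 ≤ q := by
    rw [Nat.le_div_iff_mul_le (by omega)]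
    have : (20 * (2 * s * 2 ^ s) + 19) * k ≤ 180 * k ^ 2 * s := by
      have hs2 : 2 ≤ s := by omega
      have : s * 2 ^ s ≤ s * (4 * k) := Nat.mul_le_mul_left _ h2
      nlinarith [Nat.mul_le_mul hs2 hk]
    omega
  have hG := good_all H hk q b hq (by rw [mul_comm, hdm]; omega)
  have hpos : 1 ≤ d := le_trans (by
    have : 0 < 180 * k ^ 2 * s := by positivity
    omega) hd
  refine code_of_good hG n d (d % 2) hpos (by omega) ?_
  obtain ⟨k', rfl⟩ : ∃ k', k = k' + 1 := ⟨k - 1, by omega⟩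
  rw [show 2 * (k' + 1) - 1 = 2 * k' + 1 by omega] at hn
  by_contra hlt
  push Not at hlt
  nlinarith

end Pool.Agent.Elspas
end

-- part Pool.Agent.P.MP_459691_co.Poly1
section

/-! Complementary families on cubes, and tilings of arcs by them. -/

set_option autoImplicit false
open Finset

namespace Pool.Agent.Elspas.Poly

/-- inner product of two signed basis vectors -/
def ip {R : Type} [DecidableEq R] (a b : R × Bool) : ℤ :=
  if a.1 = b.1 then (if a.2 = b.2 then 1 else -1) else 0

theorem ip_ne {R : Type} [DecidableEq R] {a b : R × Bool} (h : a.1 ≠ b.1) : ip a b = 0 :=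
  if_neg h

theorem ip_comm {R : Type} [DecidableEq R] (a b : R × Bool) : ip a b = ip b a := by
  unfold ip
  simp only [eq_comm (a := a.1), eq_comm (a := a.2)]

theorem ip_map {R R' : Type} [DecidableEq R] [DecidableEq R'] (f : R → R') (a b : R × Bool)
    (hf : f a.1 = f b.1 → a.1 = b.1) : ip (f a.1, a.2) (f b.1, b.2) = ip a b := by
  unfold ip
  by_cases h : a.1 = b.1
  · simp [h]
  · have : ¬ f a.1 = f b.1 := fun e => h (hf e)
    simp [h, this]

/-- the two halves of the Golay doubling step -/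
def TT (β : Bool) (s : ℕ × Bool) : ℕ × Bool :=
  (2 * (s.1 / 2) + (if β then 1 else 0), xor s.2 (β && decide (s.1 % 2 = 1)))

theorem ip_T_ft (a b : ℕ × Bool) : ip (TT false a) (TT true b) = 0 :=
  ip_ne (by simp [TT]; omega)

theorem ip_T_tf (a b : ℕ × Bool) : ip (TT true a) (TT false b) = 0 :=
  ip_ne (by simp [TT]; omega)

theorem ip_T_sum (a b : ℕ × Bool) :
    ip (TT false a) (TT false b) + ip (TT true a) (TT true b) = 2 * ip a b := by
  obtain ⟨c, s⟩ := a
  obtain ⟨c', s'⟩ := b
  by_cases h : c / 2 = c' / 2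
  · by_cases h2 : c = c'
    · subst h2
      cases s <;> cases s' <;> simp [ip, TT]
    · have h3 : (c % 2 = 1 ∧ ¬ c' % 2 = 1) ∨ (¬ c % 2 = 1 ∧ c' % 2 = 1) := by omega
      rcases h3 with ⟨h3, h4⟩ | ⟨h3, h4⟩ <;> cases s <;> cases s' <;> simp [ip, TT, h, h2, h3, h4]
  · have h2 : c ≠ c' := fun e => h (by rw [e])
    simp [ip, TT, h, h2]

theorem TT_lt (β : Bool) (s : ℕ × Bool) (k : ℕ) (h : s.1 < 2 * k) : (TT β s).1 < 2 * k := by
  cases β <;> simp [TT] <;> omega

theorem TT_ge (β : Bool) (s : ℕ × Bool) (h : 2 ≤ s.1) : 2 ≤ (TT β s).1 := by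
  cases β <;> simp [TT] <;> omega

theorem sum_prod2 {I B : Type} [Fintype I] [Fintype B] (f : I × B → I × B → ℤ) :
    ∑ x, ∑ y, f x y = ∑ i, ∑ j, ∑ u, ∑ u', f (i, u) (j, u') := by
  rw [Fintype.sum_prod_type]
  refine Finset.sum_congr rfl fun i _ => ?_
  simp only [Fintype.sum_prod_type]
  rw [Finset.sum_comm]

/-- a complementary family in which the class `0` is the set `A` with constant sign -/
def Row (I : Type) [Fintype I] (k : ℕ) (p : I → ℤ) (A : I → Bool) : Prop :=
  ∃ V : I → ℕ × Bool, (∀ i, (V i).1 < 2 * (k + 1)) ∧ (∀ i, A i = true → V i = (0, false)) ∧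
    (∀ i, A i = false → 2 ≤ (V i).1) ∧
    ∀ ω : ℤ → ℤ, ω 0 = 0 → ∑ i, ∑ j, ip (V i) (V j) * ω (p j - p i) = 0

theorem Row.equiv {I J : Type} [Fintype I] [Fintype J] {k : ℕ} {p : I → ℤ} {A : I → Bool}
    (h : Row I k p A) (e : J ≃ I) (p' : J → ℤ) (A' : J → Bool) (hp : ∀ j, p' j = p (e j))
    (hA : ∀ j, A' j = A (e j)) : Row J k p' A' := by
  obtain ⟨V, h1, h2, h3, h4⟩ := h
  refine ⟨fun j => V (e j), fun j => h1 _, fun j hj => h2 _ (hA j ▸ hj),
    fun j hj => h3 _ (hA j ▸ hj), fun ω hω => ?_⟩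
  rw [← h4 ω hω, ← Equiv.sum_comp e]
  refine Finset.sum_congr rfl fun i _ => ?_
  rw [← Equiv.sum_comp e]
  simp only [hp]

theorem Row.step {I : Type} [Fintype I] {k : ℕ} {p : I → ℤ} {A : I → Bool} (h : Row I k p A)
    (s a b : ℤ) :
    Row (I × Bool × Bool) (k + 1)
      (fun x => p x.1 + s + (if x.2.1 then a else 0) + (if x.2.2 then b else 0))
      (fun x => A x.1 && !x.2.2) := by
  obtain ⟨V, h1, h2, h3, h4⟩ := h
  let V' : I × Bool × Bool → ℕ × Bool := fun x =>
    if A x.1 then (if x.2.2 then (2 * (k + 1), x.2.1) else (0, false))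
    else TT x.2.2 (TT x.2.1 (V x.1))
  have hlt : ∀ i u u', (TT u (TT u' (V i))).1 < 2 * (k + 1) := fun i u u' =>
    TT_lt _ _ _ (TT_lt _ _ _ (h1 i))
  have hge : ∀ i u u', A i = false → 2 ≤ (TT u (TT u' (V i))).1 := fun i u u' hi =>
    TT_ge _ _ (TT_ge _ _ (h3 i hi))
  refine ⟨V', ?_, ?_, ?_, fun ω hω => ?_⟩
  · rintro ⟨i, u, u'⟩
    have := hlt i u' u
    simp only [V']
    split_ifs <;> simp <;> omega
  · rintro ⟨i, u, u'⟩ hx
    simp only [Bool.and_eq_true, Bool.not_eq_true'] at hx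
    simp [V', hx.1, hx.2]
  · rintro ⟨i, u, u'⟩ hx
    cases hA : A i
    · simpa [V', hA] using hge i u' u hA
    · have : u' = true := by simpa [hA] using hx
      simp [V', hA, this]
  · rw [sum_prod2]
    have key : ∀ i j, ∑ u : Bool × Bool, ∑ u' : Bool × Bool, ip (V' (i, u)) (V' (j, u')) *
        ω ((p j + s + (if u'.1 then a else 0) + (if u'.2 then b else 0))
          - (p i + s + (if u.1 then a else 0) + (if u.2 then b else 0)))
        = 4 * (ip (V i) (V j) * ω (p j - p i)) := by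
      intro i j
      cases hi : A i <;> cases hj : A j
      · have e1 := ip_T_sum (V i) (V j)
        have e2 := ip_T_sum (TT false (V i)) (TT false (V j))
        have e3 := ip_T_sum (TT true (V i)) (TT true (V j))
        have e4 := ip_T_sum (TT false (V i)) (TT true (V j))
        have e5 := ip_T_sum (TT true (V i)) (TT false (V j))
        rw [ip_T_ft] at e4
        rw [ip_T_tf] at e5
        simp only [Fintype.sum_prod_type, Fintype.sum_bool, V', hi, hj, ip_T_ft, ip_T_tf,
          Bool.false_eq_true, if_false, if_true, add_zero, zero_mul, zero_add,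
          add_sub_add_right_eq_sub]
        linear_combination (ω (p j - p i)) * (e2 + e3 + 2 * e1)
          + ω (p j + s + a - (p i + s)) * e4 + ω (p j + s - (p i + s + a)) * e5
      · have e0 : ∀ u u', ip (V' (i, u)) (V' (j, u')) = 0 := by
          rintro ⟨u1, u2⟩ ⟨u3, u4⟩
          have := hlt i u2 u1
          have := hge i u2 u1 hi
          refine ip_ne ?_
          cases u4 <;> simp [V', hi, hj] <;> omega
        have e1 : ip (V i) (V j) = 0 := ip_ne (by have := h3 i hi; rw [h2 j hj]; simp; omega)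
        simp [e0, e1]
      · have e0 : ∀ u u', ip (V' (i, u)) (V' (j, u')) = 0 := by
          rintro ⟨u1, u2⟩ ⟨u3, u4⟩
          have := hlt j u4 u3
          have := hge j u4 u3 hj
          refine ip_ne ?_
          cases u2 <;> simp [V', hi, hj] <;> omega
        have e1 : ip (V i) (V j) = 0 := ip_ne (by have := h3 j hj; rw [h2 i hi]; simp; omega)
        simp [e0, e1]
      · simp only [Fintype.sum_prod_type, Fintype.sum_bool, V', hi, hj, h2 i hi, h2 j hj,
          Bool.false_eq_true, if_false, if_true, add_zero, add_sub_add_right_eq_sub]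
        simp [ip]
        ring
    simp only [key, ← Finset.mul_sum, h4 ω hω, mul_zero]

/-- `p` enumerates `0, …, n-1` -/
def Enum {I : Type} [Fintype I] (p : I → ℤ) (n : ℕ) : Prop :=
  ∀ ω : ℤ → ℤ, ∑ i, ω (p i) = ∑ z ∈ range n, ω z

theorem grid (k : ℕ) : ∀ c : ℕ, c < 4 ^ k →
    ∃ (I : Type) (_ : Fintype I) (p : I → ℤ) (A B : I → Bool), Row I k p A ∧ Row I k p B ∧
      Enum p (4 ^ k) ∧ ∀ ω : ℤ → ℤ,
        ∑ i, ∑ j, (if A i && B j then ω (p i + p j) else 0) = ∑ i, ω (p i + c) := by
  induction k with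
  | zero =>
    intro c hc
    have hc0 : c = 0 := by simpa using hc
    have hR : Row Unit 0 (fun _ => 0) (fun _ => true) :=
      ⟨fun _ => (0, false), by simp, by simp, by simp, fun ω hω => by simp [hω]⟩
    exact ⟨Unit, inferInstance, fun _ => 0, fun _ => true, fun _ => true, hR, hR,
      fun ω => by simp, fun ω => by simp [hc0]⟩
  | succ k ih =>
    intro c hc
    have hl : 0 < 4 ^ k := by positivity
    obtain ⟨I, _, p, A, B, hA, hB, hE, hS⟩ := ih (c % 4 ^ k) (Nat.mod_lt _ hl)
    set l : ℕ := 4 ^ k with hldef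
    have hd : c / l < 4 := by
      rw [Nat.div_lt_iff_lt_mul hl]; rw [pow_succ] at hc; omega
    have hcd : (c : ℤ) = (c % l : ℕ) + l * (c / l : ℕ) := by
      exact_mod_cast (Nat.mod_add_div c l).symm
    obtain ⟨s, a, b, hs, hab⟩ : ∃ s a b : ℤ, (c : ℤ) = (c % l : ℕ) + s ∧ ∀ F : ℤ → ℤ,
        F (s + a + b) + F (s + b) + (F (s + a) + F s) = F 0 + F l + F (2 * l) + F (3 * l) := by
      have : c / l = 0 ∨ c / l = 1 ∨ c / l = 2 ∨ c / l = 3 := by
        generalize c / l = x at hd; omega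
      rcases this with h | h | h | h <;> rw [h] at hcd
      · refine ⟨0, l, 2 * l, by simpa using hcd, fun F => ?_⟩
        rw [show (0 : ℤ) + l + 2 * l = 3 * l by ring, zero_add, zero_add]; ring
      · refine ⟨l, -l, 2 * l, by simpa using hcd, fun F => ?_⟩
        rw [show (l : ℤ) + -l + 2 * l = 2 * l by ring, show (l : ℤ) + -l = 0 by ring,
          show (l : ℤ) + 2 * l = 3 * l by ring]; ring
      · refine ⟨2 * l, l, -(2 * l), by rw [hcd]; push_cast; ring, fun F => ?_⟩
        rw [show 2 * (l : ℤ) + l + -(2 * l) = l by ring, show 2 * (l : ℤ) + l = 3 * l by ring,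
          show 2 * (l : ℤ) + -(2 * l) = 0 by ring]; ring
      · refine ⟨3 * l, -l, -(2 * l), by rw [hcd]; push_cast; ring, fun F => ?_⟩
        rw [show 3 * (l : ℤ) + -l + -(2 * l) = 0 by ring, show 3 * (l : ℤ) + -l = 2 * l by ring,
          show 3 * (l : ℤ) + -(2 * l) = l by ring]; ring
    refine ⟨I × Bool × Bool, inferInstance,
      fun x => p x.1 + s + (if x.2.1 then a else 0) + (if x.2.2 then b else 0),
      fun x => A x.1 && !x.2.2, fun x => B x.1 && !x.2.1, hA.step s a b, ?_, fun ω => ?_,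
      fun ω => ?_⟩
    · refine (hB.step s b a).equiv ((Equiv.refl I).prodCongr (Equiv.prodComm _ _)) _ _ ?_ ?_
      · rintro ⟨i, u, u'⟩; simp; ring
      · rintro ⟨i, u, u'⟩; simp
    · have e1 : ∀ t : ℤ, ∑ i, ω (p i + t) = ∑ z ∈ range l, ω (z + t) := fun t =>
        hE (fun z => ω (z + t))
      have e2 := hab (fun t => ∑ z ∈ range l, ω (z + t))
      simp only [Fintype.sum_prod_type, Fintype.sum_bool, Bool.false_eq_true, if_false, if_true,
        add_zero, Finset.sum_add_distrib, add_assoc (p _), e1]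
      rw [e2, pow_succ, ← hldef, show l * 4 = l + l + l + l by ring]
      simp only [Finset.sum_range_add]
      push_cast
      simp only [add_zero]
      congr 1
      · congr 1
        · congr 1
          exact Finset.sum_congr rfl fun z _ => by rw [add_comm]
        · exact Finset.sum_congr rfl fun z _ => by congr 1; ring
      · exact Finset.sum_congr rfl fun z _ => by congr 1; ring
    · rw [sum_prod2]
      have e1 : ∀ t : ℤ, ∑ i, ∑ j, (if A i && B j then ω (p i + p j + t) else 0)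
          = ∑ i, ω (p i + (c % l : ℕ) + t) := fun t => hS (fun z => ω (z + t))
      have e2 : ∀ i j, ∑ u : Bool × Bool, ∑ u' : Bool × Bool,
          (if (A i && !u.2) && (B j && !u'.1) then
            ω (p i + s + (if u.1 then a else 0) + (if u.2 then b else 0) +
              (p j + s + (if u'.1 then a else 0) + (if u'.2 then b else 0))) else 0)
          = (if A i && B j then ω (p i + p j + (2 * s + a + b)) else 0)
            + (if A i && B j then ω (p i + p j + (2 * s + b)) else 0)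
            + ((if A i && B j then ω (p i + p j + (2 * s + a)) else 0)
            + (if A i && B j then ω (p i + p j + 2 * s) else 0)) := by
        intro i j
        cases A i <;> cases B j <;>
          simp only [Fintype.sum_prod_type, Fintype.sum_bool, Bool.false_eq_true, if_false,
            if_true, add_zero, Bool.not_true, Bool.not_false, Bool.and_true, Bool.and_false,
            zero_add, Bool.false_and]
        rw [show p i + s + a + (p j + s + b) = p i + p j + (2 * s + a + b) by ring,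
          show p i + s + a + (p j + s) = p i + p j + (2 * s + a) by ring,
          show p i + s + (p j + s + b) = p i + p j + (2 * s + b) by ring,
          show p i + s + (p j + s) = p i + p j + 2 * s by ring]
        ring
      simp only [e2, Finset.sum_add_distrib, e1]
      simp only [Fintype.sum_prod_type, Fintype.sum_bool, Bool.false_eq_true, if_false, if_true,
        add_zero, Finset.sum_add_distrib, hs]
      congr 1 <;> congr 1 <;> exact Finset.sum_congr rfl fun z _ => by congr 1; ring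

/-- two complementary families whose cross correlation is `-∑ z^(d i)` -/
def Bi (I : Type) [Fintype I] (r : ℕ) (p q d : I → ℤ) : Prop :=
  ∃ V W : I → ℕ × Bool, (∀ i, (V i).1 < r) ∧ (∀ i, (W i).1 < r) ∧
    (∀ ω : ℤ → ℤ, ω 0 = 0 → ∑ i, ∑ j, ip (V i) (V j) * ω (p j - p i) = 0) ∧
    (∀ ω : ℤ → ℤ, ω 0 = 0 → ∑ i, ∑ j, ip (W i) (W j) * ω (q j - q i) = 0) ∧
    ∀ ω : ℤ → ℤ, ∑ i, ∑ j, ip (V i) (W j) * ω (p i - q j) = -∑ i, ω (d i)

section
variable {I J : Type} [Fintype I] [Fintype J] {r r' : ℕ} {p q d : I → ℤ}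

theorem Bi.mono (h : Bi I r p q d) (hr : r ≤ r') : Bi I r' p q d := by
  obtain ⟨V, W, h1, h2, h3⟩ := h
  exact ⟨V, W, fun i => (h1 i).trans_le hr, fun i => (h2 i).trans_le hr, h3⟩

theorem Bi.shift (h : Bi I r p q d) (a b : ℤ) (p' q' d' : I → ℤ) (hp : ∀ i, p' i = p i + a)
    (hq : ∀ i, q' i = q i + b) (hd : ∀ i, d' i = d i + (a - b)) : Bi I r p' q' d' := by
  obtain ⟨V, W, h1, h2, h3, h4, h5⟩ := h
  refine ⟨V, W, h1, h2, fun ω hω => ?_, fun ω hω => ?_, fun ω => ?_⟩
  · simpa only [hp, add_sub_add_right_eq_sub] using h3 ω hω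
  · simpa only [hq, add_sub_add_right_eq_sub] using h4 ω hω
  · have := h5 (fun z => ω (z + (a - b)))
    simp only [hp, hq, hd, ← this]
    refine Finset.sum_congr rfl fun i _ => Finset.sum_congr rfl fun j _ => ?_
    congr 2; ring

theorem Bi.neg (h : Bi I r p q d) : Bi I r (fun i => -p i) (fun i => -q i) (fun i => -d i) := by
  obtain ⟨V, W, h1, h2, h3, h4, h5⟩ := h
  refine ⟨V, W, h1, h2, fun ω hω => ?_, fun ω hω => ?_, fun ω => ?_⟩
  · rw [← h3 (fun z => ω (-z)) (by simpa using hω)]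
    refine Finset.sum_congr rfl fun i _ => Finset.sum_congr rfl fun j _ => ?_
    congr 2; ring
  · rw [← h4 (fun z => ω (-z)) (by simpa using hω)]
    refine Finset.sum_congr rfl fun i _ => Finset.sum_congr rfl fun j _ => ?_
    congr 2; ring
  · rw [← h5 (fun z => ω (-z))]
    refine Finset.sum_congr rfl fun i _ => Finset.sum_congr rfl fun j _ => ?_
    congr 2; ring

theorem sum_ip_sum (V W : I → ℕ × Bool) (V' W' : J → ℕ × Bool) (hV : ∀ i, (V i).1 < r)
    (hW : ∀ i, (W i).1 < r) (F : I ⊕ J → I ⊕ J → ℤ) :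
    ∑ x, ∑ y, ip (Sum.elim V (fun j => ((V' j).1 + r, (V' j).2)) x)
        (Sum.elim W (fun j => ((W' j).1 + r, (W' j).2)) y) * F x y
      = ∑ i, ∑ j, ip (V i) (W j) * F (.inl i) (.inl j)
        + ∑ i, ∑ j, ip (V' i) (W' j) * F (.inr i) (.inr j) := by
  have e1 : ∀ i j, ip (V i) ((W' j).1 + r, (W' j).2) = 0 := fun i j =>
    ip_ne (by have := hV i; simp; omega)
  have e2 : ∀ i j, ip ((V' i).1 + r, (V' i).2) (W j) = 0 := fun i j =>
    ip_ne (by have := hW j; simp; omega)
  have e3 : ∀ i j, ip ((V' i).1 + r, (V' i).2) ((W' j).1 + r, (W' j).2) = ip (V' i) (W' j) :=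
    fun i j => ip_map (fun c => c + r) _ _ (by simp)
  simp only [Fintype.sum_sum_type, Sum.elim_inl, Sum.elim_inr, e1, e2, e3, zero_mul,
    Finset.sum_const_zero, add_zero, zero_add]

theorem Bi.sum {p' q' d' : J → ℤ} (h : Bi I r p q d) (h' : Bi J r' p' q' d') :
    Bi (I ⊕ J) (r + r') (Sum.elim p p') (Sum.elim q q') (Sum.elim d d') := by
  obtain ⟨V, W, h1, h2, h3, h4, h5⟩ := h
  obtain ⟨V', W', h1', h2', h3', h4', h5'⟩ := h'
  refine ⟨Sum.elim V (fun j => ((V' j).1 + r, (V' j).2)),
    Sum.elim W (fun j => ((W' j).1 + r, (W' j).2)), ?_, ?_, fun ω hω => ?_, fun ω hω => ?_,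
    fun ω => ?_⟩
  · rintro (i | j)
    · have := h1 i; simp; omega
    · have := h1' j; simp; omega
  · rintro (i | j)
    · have := h2 i; simp; omega
    · have := h2' j; simp; omega
  · rw [sum_ip_sum V V V' V' h1 h1]
    simp only [Sum.elim_inl, Sum.elim_inr, h3 ω hω, h3' ω hω, add_zero]
  · rw [sum_ip_sum W W W' W' h2 h2]
    simp only [Sum.elim_inl, Sum.elim_inr, h4 ω hω, h4' ω hω, add_zero]
  · rw [sum_ip_sum V W V' W' h1 h2]
    simp only [Sum.elim_inl, Sum.elim_inr, h5 ω, h5' ω, Fintype.sum_sum_type]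
    ring

end

theorem Bi.single (a b : ℤ) : Bi Unit 1 (fun _ => a) (fun _ => b) (fun _ => a - b) :=
  ⟨fun _ => (0, false), fun _ => (0, true), by simp, by simp, fun ω hω => by simp [hω],
    fun ω hω => by simp [hω], fun ω => by simp [ip]⟩

theorem Bi.empty : Bi Empty 0 (fun _ => 0) (fun _ => 0) (fun _ => 0) :=
  ⟨fun x => x.elim, fun x => x.elim, fun x => x.elim, fun x => x.elim, by simp, by simp, by simp⟩

theorem piece (k c : ℕ) (hc : c < 4 ^ k) :
    ∃ (I : Type) (_ : Fintype I) (p : I → ℤ), Enum p (4 ^ k) ∧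
      Bi I (4 * (k + 1)) p (fun i => -p i) (fun i => p i + c) := by
  obtain ⟨I, _, p, A, B, ⟨V, h1, h2, h3, h4⟩, ⟨W, g1, g2, g3, g4⟩, hE, hS⟩ := grid k c hc
  let f : ℕ → ℕ := fun n => if n = 0 then 0 else n + 2 * (k + 1)
  let W' : I → ℕ × Bool := fun i => (f (W i).1, !(W i).2)
  refine ⟨I, inferInstance, p, hE, V, W', fun i => by have := h1 i; omega, fun i => ?_, h4,
    fun ω hω => ?_, fun ω => ?_⟩
  · have := g1 i
    simp only [W', f]; split_ifs <;> omega
  · rw [← g4 (fun z => ω (-z)) (by simpa using hω)]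
    refine Finset.sum_congr rfl fun i _ => Finset.sum_congr rfl fun j _ => ?_
    have : ip (W' i) (W' j) = ip (W i) (W j) := by
      have e := ip_map f ((W i).1, !(W i).2) ((W j).1, !(W j).2)
        (by intro h; simp only [f] at h ⊢; split_ifs at h <;> omega)
      simp only [W', e]
      simp [ip]
    rw [this]
    congr 2; ring
  · rw [← hS ω, ← Finset.sum_neg_distrib]
    refine Finset.sum_congr rfl fun i _ => ?_
    rw [← Finset.sum_neg_distrib]
    refine Finset.sum_congr rfl fun j _ => ?_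
    have a1 := h1 i
    cases hi : A i <;> cases hj : B j
    · have a2 := h3 i hi
      have a3 := g3 j hj
      rw [ip_ne (by simp only [W', f]; split_ifs <;> omega)]; simp
    · have a2 := h3 i hi
      rw [ip_ne (by simp only [W', f, g2 j hj]; simp; omega)]; simp
    · have a3 := g3 j hj
      rw [ip_ne (by simp only [W', f, h2 i hi]; split_ifs <;> omega)]; simp
    · simp [W', f, h2 i hi, g2 j hj, ip]

/-- a pair of mirror arcs of length `L` whose differences tile an interval of length `L` -/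
def Arc (L : ℕ) (α β : ℤ) (r : ℕ) : Prop :=
  ∃ (I : Type) (_ : Fintype I) (p d : I → ℤ), Bi I r p (fun i => -p i) d ∧ Enum p L ∧
    ∀ ω : ℤ → ℤ, (∀ t, ω (t - α) = ω (2 * L - 2 + β - t)) →
      ∑ i, ω (d i) = ∑ t ∈ range L, ω (t - α)

theorem Arc.rev {L r : ℕ} {α β : ℤ} (h : Arc L β α r) : Arc L α β r := by
  obtain ⟨I, _, p, d, h1, h2, h3⟩ := h
  refine ⟨I, inferInstance, fun i => L - 1 - p i, fun i => 2 * L - 2 - d i, ?_, fun ω => ?_,
    fun ω hω => ?_⟩
  · exact h1.neg.shift (L - 1) (-(L - 1)) _ _ _ (fun i => by ring) (fun i => by ring)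
      (fun i => by ring)
  · rw [h2 (fun z => ω (L - 1 - z)), ← Finset.sum_range_reflect]
    refine Finset.sum_congr rfl fun z hz => ?_
    have := Finset.mem_range.1 hz
    congr 1; omega
  · rw [h3 (fun z => ω (2 * L - 2 - z)) (fun t => by
      rw [show 2 * (L : ℤ) - 2 - (2 * L - 2 + α - t) = t - α by ring, hω]; congr 1; ring)]
    refine Finset.sum_congr rfl fun z _ => ?_
    rw [hω]; congr 1; ring

theorem Arc.peel {L r k : ℕ} {α β : ℤ} (h1 : -(4 ^ k : ℤ) < α) (h2 : α ≤ 0)
    (h : Arc L (α + 4 ^ k) (β - 4 ^ k) r) : Arc (4 ^ k + L) α β (4 * (k + 1) + r) := by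
  obtain ⟨c, hc⟩ : ∃ c : ℕ, α = -c := ⟨(-α).toNat, by omega⟩
  have hck : c < 4 ^ k := by
    have : (c : ℤ) < 4 ^ k := by omega
    exact_mod_cast this
  obtain ⟨I, _, p, hE, hB⟩ := piece k c hck
  obtain ⟨J, _, p', d', g1, g2, g3⟩ := h
  refine ⟨I ⊕ J, inferInstance, Sum.elim p (fun j => p' j + 4 ^ k),
    Sum.elim (fun i => p i + c) (fun j => d' j + 2 * 4 ^ k), ?_, fun ω => ?_, fun ω hω => ?_⟩
  · have := hB.sum (g1.shift (4 ^ k) (-4 ^ k) (fun j => p' j + 4 ^ k)
      (fun j => -(p' j + 4 ^ k)) (fun j => d' j + 2 * 4 ^ k) (fun _ => rfl) (fun _ => by ring)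
      (fun _ => by ring))
    convert this using 1
    funext x; cases x <;> rfl
  · simp only [Fintype.sum_sum_type, Sum.elim_inl, Sum.elim_inr]
    rw [hE ω, g2 (fun z => ω (z + 4 ^ k)), Finset.sum_range_add]
    congr 1
    exact Finset.sum_congr rfl fun z _ => by congr 1; push_cast; ring
  · simp only [Fintype.sum_sum_type, Sum.elim_inl, Sum.elim_inr]
    rw [hE (fun z => ω (z + c)), g3 (fun z => ω (z + 2 * 4 ^ k)) (fun t => by
      rw [show t - (α + 4 ^ k) + 2 * 4 ^ k = t + 4 ^ k - α by ring, hω]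
      congr 1; push_cast; ring), Finset.sum_range_add]
    congr 1
    · exact Finset.sum_congr rfl fun z _ => by congr 1; rw [hc]; ring
    · exact Finset.sum_congr rfl fun z _ => by congr 1; push_cast; ring

theorem Arc.mono {L r r' : ℕ} {α β : ℤ} (h : Arc L α β r) (hr : r ≤ r') : Arc L α β r' := by
  obtain ⟨I, _, p, d, h1, h2⟩ := h
  exact ⟨I, inferInstance, p, d, h1.mono hr, h2⟩

theorem arc_all (m : ℕ) : ∀ j k : ℕ, k + j = m → ∀ L : ℕ, L < 4 ^ m → 4 ^ k ∣ L →
    ∀ α β : ℤ, -(4 ^ k : ℤ) < α → α ≤ 0 → 0 < β → β ≤ 4 ^ k → Arc L α β (12 * m * j) := by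
  intro j
  induction j with
  | zero =>
    intro k hk L hL hd α β _ _ _ _
    obtain rfl : k = m := by omega
    obtain rfl : L = 0 := Nat.eq_zero_of_dvd_of_lt hd hL
    exact ⟨Empty, inferInstance, fun _ => 0, fun _ => 0, by simpa using Bi.empty,
      fun ω => by simp, fun ω _ => by simp⟩
  | succ j ih =>
    intro k hk L hL hd
    have key : ∀ s L' : ℕ, s * 4 ^ k + L' < 4 ^ m → 4 ^ (k + 1) ∣ L' → ∀ α β : ℤ,
        -(4 ^ k : ℤ) < α → α ≤ 0 → 0 < β → β ≤ 4 ^ k →
        Arc (s * 4 ^ k + L') α β (4 * m * s + 12 * m * j) := by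
      intro s
      induction s with
      | zero =>
        intro L' h1 h2 α β a1 a2 a3 a4
        have h4 : (0 : ℤ) < 4 ^ k := by positivity
        simpa using ih (k + 1) (by omega) L' (by omega) h2 α β (by rw [pow_succ]; omega) a2 a3
          (by rw [pow_succ]; omega)
      | succ s ihs =>
        intro L' h1 h2 α β a1 a2 a3 a4
        have := (ihs L' (by nlinarith [Nat.zero_le (4 ^ k)]) h2 (β - 4 ^ k) (α + 4 ^ k) (by omega)
          (by omega) (by omega) (by omega)).rev
        have := Arc.peel a1 a2 this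
        rw [show (s + 1) * 4 ^ k + L' = 4 ^ k + (s * 4 ^ k + L') by ring]
        exact this.mono (by nlinarith)
    intro α β a1 a2 a3 a4
    obtain ⟨u, rfl⟩ := hd
    have e : 4 ^ k * u = (u % 4) * 4 ^ k + 4 ^ (k + 1) * (u / 4) := by
      conv_lhs => rw [← Nat.mod_add_div u 4]
      ring
    rw [e] at hL ⊢
    refine (key (u % 4) _ hL (Dvd.intro _ rfl) α β a1 a2 a3 a4).mono ?_
    have : u % 4 ≤ 3 := by omega
    nlinarith [Nat.mul_le_mul_left (4 * m) this]

end Pool.Agent.Elspas.Poly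
end

-- part Pool.Agent.P.MP_459691_co.Poly2
section

/-! Starters in cyclic groups with few classes. -/

set_option autoImplicit false
open Finset

namespace Pool.Agent.Elspas.Poly

theorem Bi.pairs (n : ℕ) (a b : Fin n → ℤ) : Bi (Fin n) n a b (fun i => a i - b i) := by
  have e1 : ∀ (s : Bool) (i j : Fin n), ip ((i : ℕ), s) ((j : ℕ), s) = if i = j then 1 else 0 := by
    intro s i j; simp [ip, Fin.ext_iff]
  have e2 : ∀ (i j : Fin n), ip ((i : ℕ), false) ((j : ℕ), true) = if i = j then -1 else 0 := by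
    intro i j; simp [ip, Fin.ext_iff]
  refine ⟨fun i => (i, false), fun i => (i, true), fun i => i.2, fun i => i.2, fun ω hω => ?_,
    fun ω hω => ?_, fun ω => ?_⟩
  · simp [e1, hω]
  · simp [e1, hω]
  · simp [e2]

/-- a starter over the integers: positions tile `[0,v)`, differences are given by `S` -/
def StZ (v : ℕ) (X : Type) [Fintype X] (r : ℕ) (S : (ℤ → ℤ) → ℤ) : Prop :=
  ∃ (I : Type) (_ : Fintype I) (p q d : I → ℤ) (ξ : X → ℤ), Bi I r p q d ∧
    (∀ ω : ℤ → ℤ, ∑ i, ω (p i) + ∑ i, ω (q i) + ∑ x, ω (ξ x) = ∑ z ∈ range v, ω z) ∧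
    ∀ ω : ℤ → ℤ, (∀ n, ω (-n) = ω n) → (∀ n, ω (n + v) = ω n) → ∑ i, ω (d i) = S ω

theorem StZ.mk' {X : Type} [Fintype X] {nA nB e L r n : ℕ}
    (h : Arc L ((nA : ℤ) - e) ((nB : ℤ) - e) r) (a b : Fin n → ℤ) (ξ : X → ℤ)
    (hs : ∀ ω : ℤ → ℤ, ∑ i, ω (a i) + ∑ i, ω (b i) + ∑ x, ω (ξ x)
      = ∑ z ∈ range nA, ω z + ∑ z ∈ range nB, ω (nA + L + z)) :
    StZ (nA + L + nB + L) X (r + n)
      (fun ω => ∑ t ∈ range L, ω (((e + t : ℕ) : ℤ) + 1) + ∑ i, ω (a i - b i)) := by
  obtain ⟨I, _, p, d, h1, h2, h3⟩ := h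
  set v : ℤ := nA + L + nB + L with hv
  refine ⟨I ⊕ Fin n, inferInstance, Sum.elim (fun i => p i + nA) a,
    Sum.elim (fun i => -p i + (v - 1)) b,
    Sum.elim (fun i => d i + (nA - (v - 1))) (fun i => a i - b i), ξ,
    (h1.shift nA (v - 1) _ _ _ (fun _ => rfl) (fun _ => rfl) (fun _ => rfl)).sum
      (Bi.pairs n a b), fun ω => ?_, fun ω g1 g2 => ?_⟩
  · simp only [Fintype.sum_sum_type, Sum.elim_inl, Sum.elim_inr]
    rw [h2 (fun z => ω (z + nA)), h2 (fun z => ω (-z + (v - 1))),
      ← Finset.sum_range_reflect (fun z : ℕ => ω (-(z : ℤ) + (v - 1)))]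
    have e1 : ∑ z ∈ range L, ω (-((L - 1 - z : ℕ) : ℤ) + (v - 1))
        = ∑ z ∈ range L, ω ((nA + L + nB + z : ℕ) : ℤ) := by
      refine Finset.sum_congr rfl fun z hz => ?_
      have := Finset.mem_range.1 hz
      congr 1; omega
    have e2 : ∑ z ∈ range L, ω ((z : ℤ) + nA) = ∑ z ∈ range L, ω ((nA + z : ℕ) : ℤ) :=
      Finset.sum_congr rfl fun z _ => by congr 1; push_cast; ring
    have e3 := hs ω
    rw [e1, e2]
    simp only [Finset.sum_range_add]
    push_cast at e3 ⊢
    linarith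
  · simp only [Fintype.sum_sum_type, Sum.elim_inl, Sum.elim_inr]
    have g3 : ∀ n, ω (n + v) = ω n := fun n => by rw [← g2 n]; congr 1
    rw [h3 (fun z => ω (z + (nA - (v - 1)))) (fun t => by
      rw [← g3, ← g1]; congr 1; rw [hv]; ring)]
    congr 1
    refine Finset.sum_congr rfl fun t _ => ?_
    rw [← g3]; congr 1; push_cast; ring

theorem StZ.congr {X : Type} [Fintype X] {v v' r r' : ℕ} {S S' : (ℤ → ℤ) → ℤ} (h : StZ v X r S)
    (hv : v = v') (hr : r ≤ r') (hS : ∀ ω, S ω = S' ω) : StZ v' X r' S' := by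
  subst hv
  obtain ⟨I, _, p, q, d, ξ, h1, h2, h3⟩ := h
  exact ⟨I, inferInstance, p, q, d, ξ, h1.mono hr, h2, fun ω a b => (h3 ω a b).trans (hS ω)⟩

theorem arc4 {m L : ℕ} (hm : 1 ≤ m) (hL : L < 4 ^ m) (h4 : 4 ∣ L) (α β : ℤ) (a1 : -4 < α)
    (a2 : α ≤ 0) (a3 : 0 < β) (a4 : β ≤ 4) : Arc L α β (12 * m ^ 2) :=
  (arc_all m (m - 1) 1 (by omega) L hL (by simpa using h4) α β (by simpa using a1) a2 a3
    (by simpa using a4)).mono (by nlinarith [Nat.sub_le m 1])

theorem stz_odd {m L : ℕ} (hL : L < 4 ^ m) :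
    StZ (2 * L + 1) Unit (12 * m ^ 2 + 4) (fun ω => ∑ t ∈ range L, ω ((t : ℤ) + 1)) := by
  have h := (arc_all m m 0 (by omega) L hL (by simp) 0 1 (by simp) le_rfl one_pos (by simp)).rev
  have := StZ.mk' (X := Unit) (nA := 1) (nB := 0) (e := 0) (n := 0) (by simpa using h)
    (fun i => i.elim0) (fun i => i.elim0) (fun _ => 0) (fun ω => by simp)
  exact this.congr (by ring) (by nlinarith) (fun ω => by simp)

theorem stz_even {m w : ℕ} (hm : 1 ≤ m) (hw : w < 4 ^ m) :
    StZ (2 * (w + 1)) Bool (12 * m ^ 2 + 4) (fun ω => ∑ t ∈ range w, ω ((t : ℤ) + 1)) := by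
  have h4 : w % 4 = 0 ∨ w % 4 = 1 ∨ w % 4 = 2 ∨ w % 4 = 3 := by omega
  rcases h4 with h | h | h | h
  · have := StZ.mk' (X := Bool) (nA := 0) (nB := 2) (e := 0) (n := 0) (L := w)
      (arc4 hm hw (by omega) _ _ (by simp) (by simp) (by simp) (by simp))
      (fun i => i.elim0) (fun i => i.elim0) (fun x => if x then w else w + 1)
      (fun ω => by simp [Finset.sum_range_succ])
    exact this.congr (by ring) (by omega) (fun ω => by simp)
  · obtain ⟨L, rfl⟩ : ∃ L, w = 1 + L := ⟨w - 1, by omega⟩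
    have := StZ.mk' (X := Bool) (nA := 0) (nB := 4) (e := 1) (n := 1) (L := L)
      (arc4 hm (by omega) (by omega) _ _ (by simp) (by simp) (by simp) (by simp))
      ![L + 1] ![L] (fun x => if x then L + 2 else L + 3)
      (fun ω => by simp [Finset.sum_range_succ]; ring)
    exact this.congr (by ring) (by omega) (fun ω => by
      rw [Finset.sum_range_add]; simp; ring)
  · obtain ⟨L, rfl⟩ : ∃ L, w = 2 + L := ⟨w - 2, by omega⟩
    have := StZ.mk' (X := Bool) (nA := 0) (nB := 6) (e := 2) (n := 2) (L := L)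
      (arc4 hm (by omega) (by omega) _ _ (by simp) (by simp) (by simp) (by simp))
      ![L + 1, L + 4] ![L, L + 2] (fun x => if x then L + 3 else L + 5)
      (fun ω => by simp [Finset.sum_range_succ]; ring)
    exact this.congr (by ring) (by omega) (fun ω => by
      rw [Finset.sum_range_add]; simp [Finset.sum_range_succ]; ring)
  · obtain ⟨L, rfl⟩ : ∃ L, w = 3 + L := ⟨w - 3, by omega⟩
    have := StZ.mk' (X := Bool) (nA := 2) (nB := 6) (e := 3) (n := 3) (L := L)
      (arc4 hm (by omega) (by omega) _ _ (by simp) (by simp) (by simp) (by simp))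
      ![1, 2 + L + 2, 2 + L + 4] ![0, 2 + L, 2 + L + 1]
      (fun x => if x then 2 + L + 3 else 2 + L + 5)
      (fun ω => by simp [Finset.sum_range_succ, Fin.sum_univ_succ]; ring)
    exact this.congr (by ring) (by omega) (fun ω => by
      rw [Finset.sum_range_add]; simp [Finset.sum_range_succ, Fin.sum_univ_succ]; ring)

theorem stz_plus {m w : ℕ} (hm : 1 ≤ m) (hw : w < 4 ^ m) :
    ∃ S S' : (ℤ → ℤ) → ℤ, StZ (2 * (w + 1)) Empty (12 * m ^ 2 + 4) S ∧
      StZ (2 * (w + 1)) Empty (12 * m ^ 2 + 4) S' ∧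
      ∀ ω, S ω + S' ω = 2 * ∑ t ∈ range (w + 1), ω ((t : ℤ) + 1) := by
  have h4 : w % 4 = 0 ∨ w % 4 = 1 ∨ w % 4 = 2 ∨ w % 4 = 3 := by omega
  rcases h4 with h | h | h | h
  · have := StZ.mk' (X := Empty) (nA := 0) (nB := 2) (e := 1) (n := 1) (L := w)
      (arc4 hm hw (by omega) _ _ (by simp) (by simp) (by simp) (by simp))
      ![w + 1] ![w] (fun x => x.elim) (fun ω => by simp [Finset.sum_range_succ]; ring)
    have := this.congr (v' := 2 * (w + 1)) (r' := 12 * m ^ 2 + 4) (by ring) (by omega)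
      (fun _ => rfl)
    refine ⟨_, _, this, this, fun ω => ?_⟩
    rw [add_comm w 1, Finset.sum_range_add]; simp; ring
  · obtain ⟨L, rfl⟩ : ∃ L, w = 1 + L := ⟨w - 1, by omega⟩
    have hA := arc4 hm (L := L) (by omega) (by omega) (((0 : ℕ) : ℤ) - (2 : ℕ))
      (((4 : ℕ) : ℤ) - (2 : ℕ)) (by simp) (by simp) (by simp) (by simp)
    have h1 := StZ.mk' (X := Empty) hA ![L + 1, L + 3] ![L, L + 2] (fun x => x.elim)
      (fun ω => by simp [Finset.sum_range_succ]; ring)
    have h2 := StZ.mk' (X := Empty) hA ![L + 2, L + 3] ![L, L + 1] (fun x => x.elim)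
      (fun ω => by simp [Finset.sum_range_succ]; ring)
    refine ⟨_, _, h1.congr (by ring) (by omega) (fun _ => rfl),
      h2.congr (by ring) (by omega) (fun _ => rfl), fun ω => ?_⟩
    rw [show 1 + L + 1 = 2 + L by ring, Finset.sum_range_add]
    simp [Finset.sum_range_succ]; ring_nf
  · obtain ⟨L, rfl⟩ : ∃ L, w = 2 + L := ⟨w - 2, by omega⟩
    have hA := arc4 hm (L := L) (by omega) (by omega) (((0 : ℕ) : ℤ) - (3 : ℕ))
      (((6 : ℕ) : ℤ) - (3 : ℕ)) (by simp) (by simp) (by simp) (by simp)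
    have h1 := StZ.mk' (X := Empty) hA ![L + 3, L + 2, L + 5] ![L, L + 1, L + 4] (fun x => x.elim)
      (fun ω => by simp [Finset.sum_range_succ, Fin.sum_univ_succ]; ring)
    have h2 := StZ.mk' (X := Empty) hA ![L + 2, L + 4, L + 5] ![L, L + 1, L + 3] (fun x => x.elim)
      (fun ω => by simp [Finset.sum_range_succ, Fin.sum_univ_succ]; ring)
    refine ⟨_, _, h1.congr (by ring) (by omega) (fun _ => rfl),
      h2.congr (by ring) (by omega) (fun _ => rfl), fun ω => ?_⟩
    rw [show 2 + L + 1 = 3 + L by ring, Finset.sum_range_add]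
    simp [Finset.sum_range_succ, Fin.sum_univ_succ]; ring_nf
  · obtain ⟨L, rfl⟩ : ∃ L, w = 3 + L := ⟨w - 3, by omega⟩
    have := StZ.mk' (X := Empty) (nA := 2) (nB := 6) (e := 4) (n := 4) (L := L)
      (arc4 hm (by omega) (by omega) _ _ (by simp) (by simp) (by simp) (by simp))
      ![1, 2 + L + 3, 2 + L + 5, 2 + L + 4] ![0, 2 + L, 2 + L + 1, 2 + L + 2] (fun x => x.elim)
      (fun ω => by simp [Finset.sum_range_succ, Fin.sum_univ_succ]; ring)
    have := this.congr (v' := 2 * (3 + L + 1)) (r' := 12 * m ^ 2 + 4) (by ring) (by omega)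
      (fun _ => rfl)
    refine ⟨_, _, this, this, fun ω => ?_⟩
    rw [show 3 + L + 1 = 4 + L by ring, Finset.sum_range_add]
    simp [Finset.sum_range_succ, Fin.sum_univ_succ]; ring_nf

/-- a starter in a finite abelian group, with exceptional points `X` -/
def St (G : Type) [AddCommGroup G] [DecidableEq G] (X : Type) (r : ℕ) (D : G → ℤ) : Prop :=
  ∃ (I : Type) (_ : Fintype I) (e : (I ⊕ I) ⊕ X ≃ G) (V W : I → Fin r × Bool),
    (∀ h ≠ 0, ∑ i, ∑ j, ip (V i) (V j) *
      (if e (.inl (.inl j)) - e (.inl (.inl i)) = h then 1 else 0) = 0) ∧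
    (∀ h ≠ 0, ∑ i, ∑ j, ip (W i) (W j) *
      (if e (.inl (.inr j)) - e (.inl (.inr i)) = h then 1 else 0) = 0) ∧
    ∀ h, ∑ i, ∑ j, ip (V i) (W j) *
      ((if e (.inl (.inr j)) - e (.inl (.inl i)) = h then 1 else 0)
        + (if e (.inl (.inl i)) - e (.inl (.inr j)) = h then 1 else 0)) = -D h

theorem sum_zmod (v : ℕ) [NeZero v] (φ : ZMod v → ℤ) :
    ∑ z ∈ range v, φ ((z : ℤ) : ZMod v) = ∑ g, φ g := by
  refine Finset.sum_nbij' (fun z => (z : ZMod v)) (fun g => g.val) (by simp)
    (fun g _ => Finset.mem_range.2 (ZMod.val_lt g)) (fun z hz => ?_) (fun g _ => ?_)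
    (fun z _ => by simp)
  · exact ZMod.val_cast_of_lt (Finset.mem_range.1 hz)
  · simp

/-- the even periodic test function of a residue class -/
def eta {v : ℕ} (h : ZMod v) (n : ℤ) : ℤ :=
  (if -(n : ZMod v) = h then 1 else 0) + (if (n : ZMod v) = h then 1 else 0)

theorem StZ.st {X : Type} [Fintype X] {v r : ℕ} [NeZero v] {S : (ℤ → ℤ) → ℤ} (h : StZ v X r S) :
    St (ZMod v) X r (fun h => S (eta h)) := by
  classical
  obtain ⟨I, _, p, q, d, ξ, ⟨V, W, b1, b2, h1, h2, h3⟩, h4, h5⟩ := h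
  let pos : (I ⊕ I) ⊕ X → ZMod v := fun u => ((Sum.elim (Sum.elim p q) ξ u : ℤ) : ZMod v)
  have hp : ∀ φ : ZMod v → ℤ, ∑ u, φ (pos u) = ∑ g, φ g := fun φ => by
    rw [← sum_zmod, ← h4 (fun z => φ (z : ZMod v))]
    simp [pos, Fintype.sum_sum_type]
  have hb : Function.Bijective pos := by
    rw [Fintype.bijective_iff_surjective_and_card]
    refine ⟨fun g => ?_, ?_⟩
    · by_contra hg
      push Not at hg
      have := hp (fun x => if x = g then 1 else 0)
      simp [hg] at this
    · have := hp (fun _ => 1)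
      simp only [Finset.sum_const, card_univ, nsmul_eq_mul, mul_one, Nat.cast_inj] at this
      exact this
  have hip : ∀ (a b : ℕ × Bool) (ha : a.1 < r) (hb : b.1 < r),
      ip ((⟨a.1, ha⟩ : Fin r), a.2) ((⟨b.1, hb⟩ : Fin r), b.2) = ip a b := by
    intro a b ha hb; simp [ip]
  refine ⟨I, inferInstance, Equiv.ofBijective pos hb, fun i => (⟨(V i).1, b1 i⟩, (V i).2),
    fun i => (⟨(W i).1, b2 i⟩, (W i).2), fun h hh => ?_, fun h hh => ?_, fun h => ?_⟩
  · have := h1 (fun n => if (n : ZMod v) = h then 1 else 0) (by simp [hh.symm])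
    simpa [hip, pos] using this
  · have := h2 (fun n => if (n : ZMod v) = h then 1 else 0) (by simp [hh.symm])
    simpa [hip, pos] using this
  · have := h3 (eta h)
    rw [h5 (eta h) (fun n => by simp [eta, add_comm]) (fun n => by simp [eta])] at this
    rw [← this]
    simp [hip, pos, eta]

theorem St.congr {G : Type} [AddCommGroup G] [DecidableEq G] {X : Type} {r : ℕ} {D D' : G → ℤ}
    (h : St G X r D) (hD : ∀ x, D x = D' x) : St G X r D' := by
  rwa [show D' = D from funext fun x => (hD x).symm]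

theorem eta_sum_odd (L : ℕ) (h : ZMod (2 * L + 1)) :
    ∑ t ∈ range L, eta h ((t : ℤ) + 1) = if h = 0 then 0 else 1 := by
  have h1 := sum_zmod (2 * L + 1) (fun g => if g = h then 1 else 0)
  rw [show range (2 * L + 1) = range (1 + L + L) by congr 1; ring, Finset.sum_range_add,
    Finset.sum_range_add,
    ← Finset.sum_range_reflect (fun x => if (((1 + L + x : ℕ) : ℤ) : ZMod (2 * L + 1)) = h
      then (1 : ℤ) else 0)] at h1
  have e1 : ∀ t ∈ range L, (((1 + L + (L - 1 - t) : ℕ) : ℤ) : ZMod (2 * L + 1))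
      = -(((t : ℤ) + 1 : ℤ) : ZMod (2 * L + 1)) := by
    intro t ht
    have := Finset.mem_range.1 ht
    rw [eq_neg_iff_add_eq_zero, ← Int.cast_add,
      show ((1 + L + (L - 1 - t) : ℕ) : ℤ) + (t + 1) = ((2 * L + 1 : ℕ) : ℤ) by omega]
    rw [Int.cast_natCast, ZMod.natCast_self]
  have e0 : ∑ t ∈ range L, (if (((1 + L + (L - 1 - t) : ℕ) : ℤ) : ZMod (2 * L + 1)) = h
      then (1 : ℤ) else 0) = ∑ t ∈ range L,
        (if -(((t : ℤ) + 1 : ℤ) : ZMod (2 * L + 1)) = h then 1 else 0) :=
    Finset.sum_congr rfl (fun t ht => by rw [e1 t ht])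
  rw [e0] at h1
  have e2 : ∀ t : ℕ, ((1 + t : ℕ) : ℤ) = t + 1 := fun t => by push_cast; ring
  simp only [e2, Finset.sum_ite_eq', mem_univ, if_true, Finset.sum_range_one, Nat.cast_zero,
    Int.cast_zero, eq_comm (a := (0 : ZMod (2 * L + 1)))] at h1
  simp only [eta, Finset.sum_add_distrib]
  split_ifs at h1 ⊢ <;> linarith

theorem eta_sum_even (w : ℕ) (h : ZMod (2 * (w + 1))) :
    ∑ t ∈ range w, eta h ((t : ℤ) + 1)
      = 1 - (if h = 0 then 1 else 0) - (if h = ((w + 1 : ℕ) : ZMod (2 * (w + 1))) then 1 else 0) := by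
  have h1 := sum_zmod (2 * (w + 1)) (fun g => if g = h then 1 else 0)
  rw [show range (2 * (w + 1)) = range (1 + w + 1 + w) by congr 1; ring, Finset.sum_range_add,
    Finset.sum_range_succ, Finset.sum_range_add,
    ← Finset.sum_range_reflect (fun x => if (((1 + w + 1 + x : ℕ) : ℤ) : ZMod (2 * (w + 1))) = h
      then (1 : ℤ) else 0)] at h1
  have e1 : ∀ t ∈ range w, (((1 + w + 1 + (w - 1 - t) : ℕ) : ℤ) : ZMod (2 * (w + 1)))
      = -(((t : ℤ) + 1 : ℤ) : ZMod (2 * (w + 1))) := by
    intro t ht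
    have := Finset.mem_range.1 ht
    rw [eq_neg_iff_add_eq_zero, ← Int.cast_add,
      show ((1 + w + 1 + (w - 1 - t) : ℕ) : ℤ) + (t + 1) = ((2 * (w + 1) : ℕ) : ℤ) by omega]
    rw [Int.cast_natCast, ZMod.natCast_self]
  have e0 : ∑ t ∈ range w, (if (((1 + w + 1 + (w - 1 - t) : ℕ) : ℤ) : ZMod (2 * (w + 1))) = h
      then (1 : ℤ) else 0) = ∑ t ∈ range w,
        (if -(((t : ℤ) + 1 : ℤ) : ZMod (2 * (w + 1))) = h then 1 else 0) :=
    Finset.sum_congr rfl (fun t ht => by rw [e1 t ht])
  rw [e0] at h1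
  have e2 : ∀ t : ℕ, ((1 + t : ℕ) : ℤ) = t + 1 := fun t => by push_cast; ring
  have e3 : (((w : ℤ) + 1 : ℤ) : ZMod (2 * (w + 1))) = ((w + 1 : ℕ) : ZMod (2 * (w + 1))) := by
    push_cast; rfl
  simp only [e2, e3, Finset.sum_ite_eq', mem_univ, if_true, Finset.sum_range_one, Nat.cast_zero,
    Int.cast_zero, eq_comm (a := (0 : ZMod (2 * (w + 1)))),
    eq_comm (a := ((w + 1 : ℕ) : ZMod (2 * (w + 1))))] at h1
  simp only [eta, Finset.sum_add_distrib]
  linarith

theorem half_add (w : ℕ) :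
    ((w + 1 : ℕ) : ZMod (2 * (w + 1))) + ((w + 1 : ℕ) : ZMod (2 * (w + 1))) = 0 := by
  rw [← Nat.cast_add, ← two_mul, ZMod.natCast_self]

theorem half_ne (w : ℕ) : ((w + 1 : ℕ) : ZMod (2 * (w + 1))) ≠ 0 := by
  rw [Ne, ZMod.natCast_eq_zero_iff]
  intro h
  have := Nat.le_of_dvd (by omega) h
  omega

theorem st_odd {m L : ℕ} (hL : L < 4 ^ m) :
    St (ZMod (2 * L + 1)) Unit (12 * m ^ 2 + 4) (fun h => if h = 0 then 0 else 1) :=
  (stz_odd hL).st.congr (eta_sum_odd L)

theorem st_even {m w : ℕ} (hm : 1 ≤ m) (hw : w < 4 ^ m) :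
    St (ZMod (2 * (w + 1))) Bool (12 * m ^ 2 + 4) (fun h => 1 - (if h = 0 then 1 else 0)
      - (if h = ((w + 1 : ℕ) : ZMod (2 * (w + 1))) then 1 else 0)) :=
  (stz_even hm hw).st.congr (eta_sum_even w)

theorem st_plus {m w : ℕ} (hm : 1 ≤ m) (hw : w < 4 ^ m) :
    ∃ D D' : ZMod (2 * (w + 1)) → ℤ, St (ZMod (2 * (w + 1))) Empty (12 * m ^ 2 + 4) D ∧
      St (ZMod (2 * (w + 1))) Empty (12 * m ^ 2 + 4) D' ∧ ∀ h ≠ 0, D h + D' h =
        2 * (1 + if h = ((w + 1 : ℕ) : ZMod (2 * (w + 1))) then 1 else 0) := by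
  obtain ⟨S, S', h1, h2, h3⟩ := stz_plus hm hw
  refine ⟨_, _, h1.st, h2.st, fun h hh => ?_⟩
  rw [h3, Finset.sum_range_succ, eta_sum_even, if_neg hh]
  have e3 : (((w : ℤ) + 1 : ℤ) : ZMod (2 * (w + 1))) = ((w + 1 : ℕ) : ZMod (2 * (w + 1))) := by
    push_cast; rfl
  simp only [eta, e3, neg_eq_of_add_eq_zero_left (half_add w),
    eq_comm (a := ((w + 1 : ℕ) : ZMod (2 * (w + 1))))]
  ring

end Pool.Agent.Elspas.Poly
end

-- part Pool.Agent.P.MP_459691_co.Poly3
section

/-! Developing a starter over several orbits and fixed points. -/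

set_option autoImplicit false
open Finset

namespace Pool.Agent.Elspas.Poly

theorem rz_of_sym {ι κ R : Type} [Fintype κ] [DecidableEq R] (B : κ → ι → R × Bool) {h : ℕ}
    (hh : PH R h) : Rz ι (Fintype.card κ * h) (fun i j => h * ∑ t, ip (B t i) (B t j)) := by
  obtain ⟨c, h1, h2⟩ := hh
  have := Rz.of_fun (ι := ι) (κ := κ × Fin h)
    (fun x i => (if (B x.1 i).2 then -1 else 1) * c x.2 (B x.1 i).1) (by
      intro x i
      rcases h1 x.2 (B x.1 i).1 with a | a <;> cases (B x.1 i).2 <;> simp [a])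
  refine this.congr (by simp) (fun i j _ => ?_)
  rw [Fintype.sum_prod_type, Finset.mul_sum]
  refine Finset.sum_congr rfl fun t _ => ?_
  have e1 : ∑ l, (if (B t i).2 then (-1 : ℤ) else 1) * c l (B t i).1 *
      ((if (B t j).2 then -1 else 1) * c l (B t j).1)
      = (if (B t i).2 then (-1 : ℤ) else 1) * (if (B t j).2 then -1 else 1) *
        ∑ l, c l (B t i).1 * c l (B t j).1 := by
    rw [Finset.mul_sum]; exact Finset.sum_congr rfl fun l _ => by ring
  rw [e1]
  by_cases e : (B t i).1 = (B t j).1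
  · have : ∀ l, c l (B t j).1 * c l (B t j).1 = 1 := fun l => by
      rcases h1 l (B t j).1 with b | b <;> simp [b]
    simp only [ip, e, this, if_true]
    cases (B t i).2 <;> cases (B t j).2 <;> simp
  · rw [h2 _ _ e, ip_ne e]; simp

theorem pair_sym {E : Type} [Fintype E] [DecidableEq E] {μ : E → E} (hμ : Inv μ) :
    ∃ s : E → E × Bool, ∀ a b, a ≠ b → ip (s a) (s b) = if μ a = b then -1 else 0 := by
  let e := Fintype.equivFin E
  have hne : ∀ i, e i ≠ e (μ i) := fun i hi => hμ.2 i (e.injective hi).symm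
  refine ⟨fun i => if e i < e (μ i) then (i, false) else (μ i, true), fun a b hab => ?_⟩
  by_cases hj : μ a = b
  · subst hj
    simp only [hμ.1]
    rcases lt_or_gt_of_ne (hne a) with c | c
    · simp [c, not_lt_of_gt c, ip]
    · simp [c, not_lt_of_gt c, ip]
  · rw [if_neg hj]
    refine ip_ne ?_
    beta_reduce
    split_ifs
    · exact hab
    · intro hh; exact hj (by rw [show a = μ b from hh, hμ.1])
    · exact hj
    · intro hh; exact hab (by rw [← hμ.1 a, show μ a = μ b from hh, hμ.1])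

theorem sum_shift {G U : Type} [AddCommGroup G] [Fintype G] [DecidableEq G] [Fintype U]
    (e : U ≃ G) (φ : U → U → ℤ) (x y : G) :
    ∑ t, φ (e.symm (x + t)) (e.symm (y + t))
      = ∑ u, ∑ u', φ u u' * (if e u' - e u = y - x then 1 else 0) := by
  rw [← Equiv.sum_comp (e.trans (Equiv.subRight x))]
  refine Finset.sum_congr rfl fun u _ => ?_
  rw [Finset.sum_eq_single (e.symm (y + (e u - x)))]
  · rw [if_pos (by rw [Equiv.apply_symm_apply]; abel)]; simp
  · intro u' _ hu
    rw [if_neg, mul_zero]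
    intro h
    exact hu (by rw [Equiv.eq_symm_apply, ← sub_eq_zero, ← sub_eq_zero.2 h]; abel)
  · simp

/-- the Gram matrix of one developed base column -/
def gam {G X O F : Type} [AddCommGroup G] [Fintype G] [DecidableEq G] [Fintype X] [DecidableEq X]
    [DecidableEq O] [DecidableEq F] (D : G → ℤ) (τ : O → O) (μ : (O × X) ⊕ F → (O × X) ⊕ F) :
    (O × G) ⊕ F → (O × G) ⊕ F → ℤ
  | .inl p, .inl p' => -(if p'.1 = τ p.1 then D (p'.2 - p.2) else 0)
      - (if p.2 = p'.2 then ∑ a, (if μ (.inl (p.1, a)) = .inl (p'.1, a) then 1 else 0) else 0)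
  | .inl p, .inr f => -∑ a, (if μ (.inl (p.1, a)) = .inr f then 1 else 0)
  | .inr f, .inl p => -∑ a, (if μ (.inl (p.1, a)) = .inr f then 1 else 0)
  | .inr f, .inr f' => -(Fintype.card G * if μ (.inr f) = .inr f' then 1 else 0)

theorem atom {G X O F : Type} [AddCommGroup G] [Fintype G] [DecidableEq G] [Fintype X]
    [DecidableEq X] [Fintype O] [DecidableEq O] [Fintype F] [DecidableEq F] {r : ℕ} {D : G → ℤ}
    (hS : St G X r D) (τ : O → O) (hτ : ∀ o, τ (τ o) = o) (μ : (O × X) ⊕ F → (O × X) ⊕ F)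
    (hμ : Inv μ) (hμ' : ∀ o a o' a', μ (.inl (o, a)) = .inl (o', a') → a = a') {h : ℕ}
    (hh : PH ((O × Fin r) ⊕ ((O × X) ⊕ F)) h) :
    Rz ((O × G) ⊕ F) (Fintype.card G * h) (fun i j => h * gam D τ μ i j) := by
  obtain ⟨I, _, e, V, W, h1, h2, h3⟩ := hS
  obtain ⟨s, hs⟩ := pair_sym hμ
  let b : O → (I ⊕ I) ⊕ X → ((O × Fin r) ⊕ ((O × X) ⊕ F)) × Bool := fun o =>
    Sum.elim (Sum.elim (fun i => (.inl (o, (V i).1), (V i).2))
      (fun i => (.inl (τ o, (W i).1), (W i).2)))
      (fun a => (.inr (s (.inl (o, a))).1, (s (.inl (o, a))).2))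
  let B : G → (O × G) ⊕ F → ((O × Fin r) ⊕ ((O × X) ⊕ F)) × Bool := fun t =>
    Sum.elim (fun p => b p.1 (e.symm (p.2 + t))) (fun f => (.inr (s (.inr f)).1, (s (.inr f)).2))
  have i1 : ∀ (o o' : O) (a a' : Fin r × Bool),
      ip ((.inl (o, a.1), a.2) : ((O × Fin r) ⊕ ((O × X) ⊕ F)) × Bool) (.inl (o', a'.1), a'.2)
        = (if o = o' then 1 else 0) * ip a a' := by
    intro o o' a a'
    by_cases ho : o = o' <;> simp [ip, ho]
  have i2 : ∀ (a a' : ((O × X) ⊕ F) × Bool),
      ip ((.inr a.1, a.2) : ((O × Fin r) ⊕ ((O × X) ⊕ F)) × Bool) (.inr a'.1, a'.2) = ip a a' := by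
    intro a a'; simp [ip]
  have i3 : ∀ (c : O × Fin r) (c' : (O × X) ⊕ F) (u u' : Bool),
      ip ((.inl c, u) : ((O × Fin r) ⊕ ((O × X) ⊕ F)) × Bool) (.inr c', u') = 0 := by
    intro c c' u u'; simp [ip]
  have i4 : ∀ (c : O × Fin r) (c' : (O × X) ⊕ F) (u u' : Bool),
      ip ((.inr c', u') : ((O × Fin r) ⊕ ((O × X) ⊕ F)) × Bool) (.inl c, u) = 0 := by
    intro c c' u u'; simp [ip]
  have hlr : ∀ (p : O × G) (f : F), ∑ t, ip (B t (.inl p)) (B t (.inr f))
      = -∑ a, (if μ (.inl (p.1, a)) = .inr f then 1 else 0) := by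
    intro p f
    rw [← Equiv.sum_comp (e.trans (Equiv.subRight p.2)), ← Finset.sum_neg_distrib]
    simp only [B, b, Sum.elim_inl, Sum.elim_inr, Equiv.trans_apply, Equiv.subRight_apply,
      add_sub_cancel, Equiv.symm_apply_apply, Fintype.sum_sum_type, i2, i3,
      Finset.sum_const_zero, zero_add]
    refine Finset.sum_congr rfl fun a _ => ?_
    rw [hs _ _ (by simp)]; split_ifs <;> simp
  refine (rz_of_sym B hh).congr rfl ?_
  rintro (⟨o, x⟩ | f) (⟨o', y⟩ | f') hij
  · congr 1
    simp only [B, Sum.elim_inl, gam]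
    rw [sum_shift e (fun u u' => ip (b o u) (b o' u'))]
    simp only [b, Fintype.sum_sum_type, Sum.elim_inl, Sum.elim_inr, i1, i2, i3, i4, zero_mul,
      Finset.sum_const_zero, add_zero, zero_add, Finset.sum_add_distrib, mul_assoc,
      ← Finset.mul_sum]
    have t1 : (if o = o' then (1 : ℤ) else 0) * ∑ i, ∑ j, ip (V i) (V j) *
        (if e (.inl (.inl j)) - e (.inl (.inl i)) = y - x then 1 else 0) = 0 := by
      split_ifs with ho
      · rw [h1 _ (fun hh => hij (by rw [ho, (sub_eq_zero.1 hh)])), mul_zero]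
      · simp
    have t2 : (if τ o = τ o' then (1 : ℤ) else 0) * ∑ i, ∑ j, ip (W i) (W j) *
        (if e (.inl (.inr j)) - e (.inl (.inr i)) = y - x then 1 else 0) = 0 := by
      split_ifs with ho
      · have ho' : o = o' := by rw [← hτ o, ho, hτ]
        rw [h2 _ (fun hh => hij (by rw [ho', (sub_eq_zero.1 hh)])), mul_zero]
      · simp
    have t3 := h3 (y - x)
    simp only [mul_add, Finset.sum_add_distrib] at t3
    have t4 : ∑ i, ∑ j, ip (W i) (V j) *
        (if e (.inl (.inl j)) - e (.inl (.inr i)) = y - x then (1 : ℤ) else 0)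
        = ∑ i, ∑ j, ip (V i) (W j) *
        (if e (.inl (.inl i)) - e (.inl (.inr j)) = y - x then (1 : ℤ) else 0) := by
      rw [Finset.sum_comm]
      simp only [ip_comm (W _)]
    have t5 : ∑ a, ∑ a', ip (s (.inl (o, a))) (s (.inl (o', a'))) *
        (if e (.inr a') - e (.inr a) = y - x then (1 : ℤ) else 0)
        = -(if x = y then ∑ a, (if μ (.inl (o, a)) = .inl (o', a) then 1 else 0) else 0) := by
      have : ∀ a a', ip (s (.inl (o, a))) (s (.inl (o', a'))) *
          (if e (.inr a') - e (.inr a) = y - x then (1 : ℤ) else 0)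
          = if a = a' then -(if x = y then
              (if μ (.inl (o, a)) = .inl (o', a) then 1 else 0) else 0) else 0 := by
        intro a a'
        by_cases ha : a = a'
        · subst ha
          by_cases hx : x = y
          · subst hx
            rw [hs _ _ (fun hh => hij (by simp at hh; rw [hh]))]
            simp only [sub_self, if_true]; split_ifs <;> simp
          · have : ¬ (0 : G) = y - x := fun hh => hx (sub_eq_zero.1 hh.symm).symm
            simp [hx, this]
        · rw [hs _ _ (by simp [ha]), if_neg (fun hh => ha (hμ' _ _ _ _ hh))]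
          simp [ha]
      simp only [this, Finset.sum_ite_eq, mem_univ, if_true, Finset.sum_neg_distrib]
      split_ifs <;> simp
    rw [t1, t2, t4, t5]
    by_cases ho : o' = τ o
    · have e1 : o = τ o' := by rw [ho, hτ]
      rw [if_pos e1, if_pos ho.symm, if_pos ho]; linarith
    · have e1 : ¬ o = τ o' := fun hh => ho (by rw [hh, hτ])
      rw [if_neg e1, if_neg (fun hh => ho hh.symm), if_neg ho]; ring
  · rw [hlr]; rfl
  · simp only [ip_comm (B _ (.inr f))]
    rw [hlr]; rfl
  · simp only [B, Sum.elim_inr, i2, gam]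
    rw [hs _ _ (by simpa using hij)]
    split_ifs <;> simp

theorem inv_std {ι : Type} [Fintype ι] {σ : ι → ι} (hσ : Inv σ) :
    ∃ (S : Type) (_ : Fintype S) (e : S × Bool ≃ ι), ∀ s b, σ (e (s, b)) = e (s, !b) := by
  let n := Fintype.equivFin ι
  have hne : ∀ i, n i ≠ n (σ i) := fun i hi => hσ.2 i (n.injective hi).symm
  let f : {i // n i < n (σ i)} × Bool → ι := fun x => if x.2 then σ x.1 else x.1
  have hf : Function.Bijective f := by
    constructor
    · rintro ⟨⟨a, ha⟩, _ | _⟩ ⟨⟨b, hb⟩, _ | _⟩ h <;> simp only [f, if_true, Bool.false_eq_true,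
        if_false] at h
      · simp [h]
      · subst h; rw [hσ.1] at ha; exact absurd ha (not_lt_of_gt hb)
      · subst h; rw [hσ.1] at hb; exact absurd hb (not_lt_of_gt ha)
      · have : a = b := by rw [← hσ.1 a, h, hσ.1]
        simp [this]
    · intro i
      rcases lt_or_gt_of_ne (hne i) with c | c
      · exact ⟨(⟨i, c⟩, false), rfl⟩
      · exact ⟨(⟨σ i, by rw [hσ.1]; exact c⟩, true), by simp [f, hσ.1]⟩
  refine ⟨_, inferInstance, Equiv.ofBijective f hf, fun s b => ?_⟩
  cases b <;> simp [f, hσ.1]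

theorem inv_conj {ι ι' : Type} [Fintype ι] [Fintype ι'] {σ : ι → ι} {σ' : ι' → ι'} (hσ : Inv σ)
    (hσ' : Inv σ') (hc : Fintype.card ι = Fintype.card ι') :
    ∃ e : ι ≃ ι', ∀ i j, σ' (e i) = e j ↔ σ i = j := by
  obtain ⟨S, _, e, he⟩ := inv_std hσ
  obtain ⟨S', _, e', he'⟩ := inv_std hσ'
  have h1 := Fintype.card_congr e
  have h2 := Fintype.card_congr e'
  simp only [Fintype.card_prod, Fintype.card_bool] at h1 h2
  obtain ⟨u⟩ : Nonempty (S ≃ S') := Fintype.card_eq.1 (by omega)
  refine ⟨e.symm.trans ((u.prodCongr (Equiv.refl Bool)).trans e'), fun i j => ?_⟩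
  obtain ⟨⟨s, b⟩, rfl⟩ := e.surjective i
  obtain ⟨⟨s', b'⟩, rfl⟩ := e.surjective j
  simp [he, he']

/-- `Rz` with the length given as an integer -/
def RzZ (ι : Type) (n : ℤ) (G : ι → ι → ℤ) : Prop := ∃ m : ℕ, (m : ℤ) = n ∧ Rz ι m G

theorem RzZ.add {ι : Type} {n n' : ℤ} {G G' : ι → ι → ℤ} (h : RzZ ι n G) (h' : RzZ ι n' G') :
    RzZ ι (n + n') (fun i j => G i j + G' i j) := by
  obtain ⟨m, rfl, h⟩ := h
  obtain ⟨m', rfl, h'⟩ := h'
  exact ⟨m + m', by push_cast; rfl, h.add h'⟩

theorem RzZ.congr {ι : Type} {n n' : ℤ} {G G' : ι → ι → ℤ} (h : RzZ ι n G) (hn : n = n')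
    (hG : ∀ i j, i ≠ j → G i j = G' i j) : RzZ ι n' G' := by
  obtain ⟨m, rfl, h⟩ := h
  exact ⟨m, hn, h.congr rfl hG⟩

theorem toZ {ι : Type} {n : ℕ} {G : ι → ι → ℤ} (h : Rz ι n G) : RzZ ι n G := ⟨n, rfl, h⟩

/-- translation matchings -/
def NN {O G F : Type} [AddCommGroup G] (τ : O → O) (h : G) (φ : F → F) :
    (O × G) ⊕ F → (O × G) ⊕ F := Sum.map (fun p => (τ p.1, p.2 + h)) φ

theorem NN_inv {O G F : Type} [AddCommGroup G] {τ : O → O} {h : G} {φ : F → F}
    (hτ : ∀ o, τ (τ o) = o) (hh : h + h = 0) (hne : (∀ o, τ o ≠ o) ∨ h ≠ 0) (hφ : Inv φ) :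
    Inv (NN τ h φ) := by
  refine Inv.sum ⟨fun p => by simp [hτ, add_assoc, hh], fun p hp => ?_⟩ hφ
  rcases hne with c | c
  · exact c _ (congrArg Prod.fst hp)
  · exact c (by simpa using congrArg Prod.snd hp)

theorem inv_not : Inv (fun b : Bool => !b) := ⟨by simp, by simp⟩

theorem inv_empty : Inv (fun x : Empty => x) := ⟨fun x => x.elim, fun x => x.elim⟩

section
variable {m T : ℕ} (hm : 1 ≤ m) (H : ∀ t, T ≤ t → PH (Fin (48 * m ^ 2 + 26)) (4 * t))
  {ι : Type} [Fintype ι] [DecidableEq ι] {k : ℕ} (hι : Fintype.card ι = 2 * k) (hk : k ≤ 4 ^ m)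
include H hι hk

omit [DecidableEq ι] in
theorem rz_K (hk1 : 1 ≤ k) (t : ℕ) (ht : T ≤ t) :
    RzZ ι (4 * (t * (2 * k - 1))) (fun _ _ => -(4 * t : ℤ)) := by
  obtain ⟨L, rfl⟩ : ∃ L, k = L + 1 := ⟨k - 1, by omega⟩
  have h := atom (O := Unit) (F := Unit) (st_odd (m := m) (L := L) (by omega)) id (fun _ => rfl)
    (Sum.elim (fun _ => .inr ()) (fun _ => .inl ((), ())))
    ⟨by rintro (_ | _) <;> rfl, by rintro (_ | _) <;> simp⟩ (fun _ _ _ _ _ => rfl)
    ((H t ht).of_card (by simp; omega))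
  obtain ⟨e⟩ : Nonempty (ι ≃ (Unit × ZMod (2 * L + 1)) ⊕ Unit) :=
    Fintype.card_eq.1 (by simp [hι, ZMod.card]; ring)
  refine (toZ (h.comp e e.injective)).congr (by rw [ZMod.card]; push_cast; ring)
    (fun i j hij => ?_)
  have := e.injective.ne hij
  revert this
  rcases e i with ⟨_, x⟩ | _ <;> rcases e j with ⟨_, y⟩ | _ <;> intro h
  · have : y - x ≠ 0 := fun hh => h (by rw [sub_eq_zero.1 hh])
    simp [gam, this]
  · simp [gam]
  · simp [gam]
  · exact absurd rfl h

include hm

theorem rz_minus (hk2 : 2 ≤ k) {M : ι → ι} (hM : Inv M) (t : ℕ) (ht : T ≤ t) :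
    RzZ ι (4 * (t * (2 * k - 2))) (fun i j => -(4 * t : ℤ) + if M i = j then (4 * t : ℤ) else 0) := by
  obtain ⟨w, rfl⟩ : ∃ w, k = w + 2 := ⟨k - 2, by omega⟩
  have h := atom (O := Unit) (F := Bool) (st_even hm (w := w) (by omega)) id (fun _ => rfl)
    (Sum.elim (fun p => .inr p.2) (fun b => .inl ((), b)))
    ⟨by rintro (_ | _) <;> rfl, by rintro (_ | _) <;> simp⟩ (by simp)
    ((H t ht).of_card (by simp; omega))
  obtain ⟨e, he⟩ := inv_conj hM (NN_inv (O := Unit) (τ := id) (fun _ => rfl) (half_add w)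
    (Or.inr (half_ne w)) inv_not) (by simp [hι, ZMod.card]; ring)
  refine (toZ (h.comp e e.injective)).congr (by rw [ZMod.card]; push_cast; ring)
    (fun i j hij => ?_)
  have := e.injective.ne hij
  simp only [← he]
  revert this
  rcases e i with ⟨_, x⟩ | b <;> rcases e j with ⟨_, y⟩ | b' <;> intro h
  · have h1 : y - x ≠ 0 := fun hh => h (by rw [sub_eq_zero.1 hh])
    simp only [gam, if_neg h1]
    simp only [NN, id, if_true, Sum.map_inl, Sum.inl.injEq, Prod.mk.injEq,
      true_and, Sum.elim_inl, reduceCtorEq, if_false, Finset.sum_const_zero, ite_self,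
      sub_eq_iff_eq_add', eq_comm (a := y)]
    split_ifs <;> push_cast <;> ring
  · simp [gam, NN]
  · simp [gam, NN]
  · have : (!b) = b' := by revert h; cases b <;> cases b' <;> simp
    simp [gam, NN, this]

theorem rz_plus (hk1 : 1 ≤ k) {M : ι → ι} (hM : Inv M) (t : ℕ) (ht : T ≤ t) :
    RzZ ι (4 * (2 * t * (2 * k))) (fun i j => -(8 * t : ℤ) - if M i = j then (8 * t : ℤ) else 0) := by
  obtain ⟨w, rfl⟩ : ∃ w, k = w + 1 := ⟨k - 1, by omega⟩
  obtain ⟨D, D', h1, h2, h3⟩ := st_plus hm (w := w) (by omega)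
  have hI : Inv (fun x : (Unit × Empty) ⊕ Empty => x) :=
    ⟨fun _ => rfl, by rintro (⟨_, ⟨⟩⟩ | ⟨⟨⟩⟩)⟩
  have g1 := atom (O := Unit) (F := Empty) h1 id (fun _ => rfl) _ hI (fun _ a => a.elim)
    ((H t ht).of_card (by simp; omega))
  have g2 := atom (O := Unit) (F := Empty) h2 id (fun _ => rfl) _ hI (fun _ a => a.elim)
    ((H t ht).of_card (by simp; omega))
  obtain ⟨e, he⟩ := inv_conj hM (NN_inv (O := Unit) (τ := id) (fun _ => rfl) (half_add w)
    (Or.inr (half_ne w)) inv_empty) (by simp [hι, ZMod.card])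
  refine (toZ ((g1.add g2).comp e e.injective)).congr (by rw [ZMod.card]; push_cast; ring)
    (fun i j hij => ?_)
  have := e.injective.ne hij
  simp only [← he]
  revert this
  rcases e i with ⟨_, x⟩ | ⟨⟨⟩⟩
  rcases e j with ⟨_, y⟩ | ⟨⟨⟩⟩
  intro h
  have h1 : y - x ≠ 0 := fun hh => h (by rw [sub_eq_zero.1 hh])
  have h4 := h3 _ h1
  simp only [sub_eq_iff_eq_add', eq_comm (a := y)] at h4
  simp only [gam, NN, id, if_true, Sum.map_inl, Sum.inl.injEq, Prod.mk.injEq,
    true_and, Finset.univ_eq_empty, Finset.sum_empty, ite_self]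
  push_cast at h4 ⊢
  split_ifs at h4 ⊢ <;> linear_combination (-4 * t) * h4

theorem adj (hk2 : 2 ≤ k) {M : ι → ι} (hM : Inv M) (z : ℤ) (y : ℕ) (hy : 5 * T + |z| + 2 ≤ y) :
    RzZ ι (4 * (y * (2 * k - 1) + z)) (fun i j => -(4 * y : ℤ) - if M i = j then 4 * z else 0) := by
  obtain ⟨a, b, c, ha, hb, hc, e1, e2⟩ : ∃ a b c : ℕ, T ≤ a ∧ T ≤ b ∧ T ≤ c ∧
      (y : ℤ) = 2 * a + b + c ∧ z = 2 * a - b := by
    rcases abs_cases z with ⟨h, h'⟩ | ⟨h, h'⟩ <;> rw [h] at hy
    · exact ⟨T + ((z + 1) / 2).toNat, (2 * T + 2 * ((z + 1) / 2) - z).toNat,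
        (y - 4 * T - 4 * ((z + 1) / 2) + z).toNat, by omega, by omega, by omega, by omega, by omega⟩
    · exact ⟨T, (2 * T - z).toNat, (y - 4 * T + z).toNat, le_rfl, by omega, by omega, by omega,
        by omega⟩
  refine (((rz_plus hm H hι hk (by omega) hM a ha).add (rz_minus hm H hι hk hk2 hM b hb)).add
    (rz_K H hι hk (by omega) c hc)).congr (by rw [e1, e2]; ring) (fun i j _ => ?_)
  rw [e1, e2]
  split_ifs <;> ring

end

end Pool.Agent.Elspas.Poly
end
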